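import Mathlib
import Pool.Agent.Lib.MP_fe8e9b_al_A.FinA
import Pool.Agent.Lib.MP_fe8e9b_al_A.Av

/-!
# MP_fe8e9b_al, wreath towers: definitions

Everything is finite, all representations are finite dimensional and unitary.
-/

set_option autoImplicit false

open scoped BigOperators

namespace Pool.Agent.MPfe8e9bW

open Pool.Agent.MPfe8e9b Pool.Agent.MPfe8e9bA

/-- In every unitary representation the average of the `y j` has norm at most `η` on the vectors
whose average over the group is zero. -/
def Mix {G : Type} [Group G] [Fintype G] {J : Type} [Fintype J] (y : J → G) (η : ℝ) : Prop :=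
  ∀ (V : Type) [NormedAddCommGroup V] [InnerProductSpace ℂ V] [FiniteDimensional ℂ V]
    (ρ : G →* (V ≃ₗᵢ[ℂ] V)) (v : V), av ρ v = 0 →
    ‖((Fintype.card J : ℂ))⁻¹ • ∑ j, ρ (y j) v‖ ≤ η * ‖v‖

/-- The action of `P` on the functions on the sets `X i` with values in `G i`. -/
def wrAct {P I : Type} [Group P] {X : I → Type} (α : ∀ i, P →* Equiv.Perm (X i))
    (G : I → Type) [∀ i, Group (G i)] : P →* MulAut (∀ i, X i → G i) where
  toFun p :=
    { toFun := fun f i x => f i ((α i p)⁻¹ x)
      invFun := fun f i x => f i (α i p x)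
      left_inv := fun f => by
        funext i x
        simp
      right_inv := fun f => by
        funext i x
        simp
      map_mul' := fun _ _ => rfl }
  map_one' := by
    ext f i x
    simp
  map_mul' a b := by
    ext f i x
    simp

theorem wrAct_apply {P I : Type} [Group P] {X : I → Type} (α : ∀ i, P →* Equiv.Perm (X i))
    (G : I → Type) [∀ i, Group (G i)] (p : P) (f : ∀ i, X i → G i) (i : I) (x : X i) :
    wrAct α G p f i x = f i ((α i p)⁻¹ x) := rfl

/-- The permutational wreath product `(∏ i, G i ^ (X i)) ⋊ P`. -/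
abbrev Wr {P I : Type} [Group P] {X : I → Type} (α : ∀ i, P →* Equiv.Perm (X i))
    (G : I → Type) [∀ i, Group (G i)] : Type :=
  (∀ i, X i → G i) ⋊[wrAct α G] P

/-- Transitive actions on the sets `X i` with local elements: for every `i` two elements of `P`,
acting trivially outside a subset of `X i` with at most `D` elements, move a point `x` of `X i` to
two other points. -/
def Loc (D : ℕ) {P I : Type} [Group P] {X : I → Type} (α : ∀ i, P →* Equiv.Perm (X i)) : Prop :=
  ∀ i, (∀ x y : X i, ∃ p, α i p x = y) ∧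
    ∃ (x : X i) (Z : Finset (X i)) (σ τ : P), Z.card ≤ D ∧ α i σ x ≠ x ∧ α i τ x ≠ x ∧
      α i σ x ≠ α i τ x ∧ (∀ z, z ∉ Z → α i σ z = z ∧ α i τ z = z) ∧
      ∀ j, j ≠ i → α j σ = 1 ∧ α j τ = 1

open Classical in
/-- The copy of `G i` at the coordinate `(i, x)`. -/
noncomputable def sgl {I : Type} {X : I → Type} (G : I → Type) [∀ i, Group (G i)] (i : I)
    (x : X i) : G i →* (∀ i, X i → G i) :=
  (MonoidHom.mulSingle (fun i => X i → G i) i).comp (MonoidHom.mulSingle (fun _ : X i => G i) x)

/-- Perfect groups with a `k`-tuple with spectral gap `κ`. -/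
def PE (k : ℕ) (κ : ℝ) (G : Type) [Group G] : Prop := commutator G = ⊤ ∧ FExpd G k κ

/-- The groups which are obtained in at most `h` steps. -/
inductive Tow (k D : ℕ) (κ : ℝ) : ℕ → (G : Type) → Group G → Prop
  | base (h : ℕ) (G : Type) (inst : Group G) (hG : PE k κ G) : Tow k D κ h G inst
  | step (h : ℕ) (P : Type) (instP : Group P) (hP : PE k κ P) (I : Type) (hI : Finite I)
      (X : I → Type) (hX : ∀ i, Finite (X i)) (α : ∀ i, P →* Equiv.Perm (X i)) (hα : Loc D α)
      (G : I → Type) (instG : ∀ i, Group (G i)) (hG : ∀ i, Tow k D κ h (G i) (instG i)) :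
      Tow k D κ (h + 1) (Wr α G) inferInstance
  | iso (h : ℕ) (G H : Type) (instG : Group G) (instH : Group H) (e : G ≃* H)
      (hG : Tow k D κ h G instG) : Tow k D κ h H instH

/-- Expansion with cost at most `c`. -/
def Cost (c : ℕ) (G : Type) [Group G] : Prop :=
  ∃ (k : ℕ) (κ : ℝ), 0 < κ ∧ κ ≤ 1 ∧ (k : ℝ) + 1 ≤ κ * 2 ^ c ∧ FExpd G k κ

end Pool.Agent.MPfe8e9bW
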