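import Mathlib

/-!
# MP_fe8e9b_al, wreath towers: distribution of the letters
-/

set_option autoImplicit false

open scoped BigOperators

namespace Pool.Agent.MPfe8e9bW

/-- the fibres of the orbit map have the same number of elements -/
theorem lay_fib {P X : Type} [Group P] [Fintype P] [Fintype X] [DecidableEq X]
    (α : P →* Equiv.Perm X) (htr : ∀ x y : X, ∃ p, α p x = y) (b x : X) :
    Fintype.card X * (Finset.univ.filter (fun h : P => (α h)⁻¹ b = x)).card = Fintype.card P := by
  have hle : ∀ x x' : X, (Finset.univ.filter (fun h : P => (α h)⁻¹ b = x)).card ≤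
      (Finset.univ.filter (fun h : P => (α h)⁻¹ b = x')).card := by
    intro x x'
    obtain ⟨p, hp⟩ := htr x x'
    refine Finset.card_le_card_of_injOn (fun h => h * p⁻¹) ?_ ?_
    · intro h hh
      rw [Finset.mem_coe, Finset.mem_filter] at hh ⊢
      refine ⟨Finset.mem_univ _, ?_⟩
      rw [map_mul, mul_inv_rev, map_inv, inv_inv, Equiv.Perm.mul_apply, hh.2, hp]
    · intro h _ h' _ e
      exact mul_right_cancel e
  have h1 := Finset.card_eq_sum_card_fiberwise (f := fun h : P => (α h)⁻¹ b)
    (s := Finset.univ) (t := Finset.univ) (fun _ _ => Finset.mem_univ _)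
  rw [Finset.card_univ] at h1
  rw [h1, Finset.sum_congr rfl (fun x' _ => le_antisymm (hle x' x) (hle x x')),
    Finset.sum_const, Finset.card_univ, smul_eq_mul]

theorem lay_fib2 {P X : Type} [Group P] [Fintype P] [Fintype X] [DecidableEq X]
    (α : P →* Equiv.Perm X) (htr : ∀ x y : X, ∃ p, α p x = y) (a b : X) :
    Fintype.card X * (Finset.univ.filter (fun gh : P × P =>
      (α gh.1)⁻¹ a = (α gh.2)⁻¹ b)).card = Fintype.card P ^ 2 := by
  rw [Finset.card_filter, Fintype.sum_prod_type, Finset.mul_sum]
  have h1 : ∀ g : P, Fintype.card X * ∑ h : P,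
      (if (α (g, h).1)⁻¹ a = (α (g, h).2)⁻¹ b then 1 else 0) = Fintype.card P := by
    intro g
    rw [← lay_fib α htr b ((α g)⁻¹ a), Finset.card_filter]
    congr 1
    refine Finset.sum_congr rfl fun h _ => ?_
    simp only [eq_comm]
  rw [Finset.sum_congr rfl fun g _ => h1 g, Finset.sum_const, Finset.card_univ, smul_eq_mul, sq]

/-- Few pairs of translates meet: for a transitive action of `P` on `X` and `Z ⊆ X`, the number of
pairs `(g, h)` for which the sets `g⁻¹ Z` and `h⁻¹ Z` meet, times `card X`, is at most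
`(card Z) ^ 2 * (card P) ^ 2`.

Proof. The pairs are covered by the sets `{(g, h) | g⁻¹ a = h⁻¹ b}`, `a, b ∈ Z`. For given `g`,
`a`, `b` there are `card P / card X` elements `h` with `h⁻¹ b = g⁻¹ a`: all the sets
`{h | h⁻¹ b = x}`, `x ∈ X`, have the same number of elements (translation by an element which moves
`x` to `x'`) and they form a partition of `P`. -/
theorem lay_pairs {P X : Type} [Group P] [Fintype P] [Fintype X] [DecidableEq X]
    (α : P →* Equiv.Perm X) (htr : ∀ x y : X, ∃ p, α p x = y) (Z : Finset X) :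
    Fintype.card X * (Finset.univ.filter (fun gh : P × P =>
      ∃ a ∈ Z, ∃ b ∈ Z, (α gh.1)⁻¹ a = (α gh.2)⁻¹ b)).card ≤
      Z.card ^ 2 * Fintype.card P ^ 2 := by
  classical
  have hsub : (Finset.univ.filter (fun gh : P × P =>
      ∃ a ∈ Z, ∃ b ∈ Z, (α gh.1)⁻¹ a = (α gh.2)⁻¹ b)) ⊆
      (Z ×ˢ Z).biUnion (fun ab => Finset.univ.filter (fun gh : P × P =>
        (α gh.1)⁻¹ ab.1 = (α gh.2)⁻¹ ab.2)) := by
    intro gh hgh
    rw [Finset.mem_filter] at hgh
    obtain ⟨-, a, ha, b, hb, h⟩ := hgh
    rw [Finset.mem_biUnion]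
    refine ⟨(a, b), Finset.mk_mem_product ha hb, ?_⟩
    rw [Finset.mem_filter]
    exact ⟨Finset.mem_univ _, h⟩
  refine (Nat.mul_le_mul_left _ ((Finset.card_le_card hsub).trans Finset.card_biUnion_le)).trans ?_
  rw [Finset.mul_sum, Finset.sum_congr rfl fun ab _ => lay_fib2 α htr ab.1 ab.2,
    Finset.sum_const, Finset.card_product, smul_eq_mul, sq Z.card]

theorem lay_half (q : ℕ) (hq : 0 < q) :
    (Finset.univ.filter (fun a : Fin (2 * q) => q ≤ a.1)).card = q := by
  have h1 : (Finset.univ.filter (fun a : Fin (2 * q) => q ≤ a.1)) =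
      Finset.Ici (⟨q, by omega⟩ : Fin (2 * q)) := by
    ext a
    rw [Finset.mem_filter, Finset.mem_Ici, Fin.le_def]
    exact ⟨fun h => h.2, fun h => ⟨Finset.mem_univ _, h⟩⟩
  rw [h1, Fin.card_Ici]
  simp only
  omega

theorem lay_weight {X : Type} [Fintype X] [DecidableEq X] (q : ℕ) (x : X) (Z : Finset X) :
    ∏ y : X, ((if y ∈ Z then 2 else 1) * (if y = x then q else 1)) = 2 ^ Z.card * q := by
  rw [Finset.prod_mul_distrib, Finset.prod_ite_mem, Finset.univ_inter, Finset.prod_const,
    Finset.prod_ite_eq' Finset.univ x fun _ => q, if_pos (Finset.mem_univ _)]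

theorem lay_count {X : Type} [Fintype X] [DecidableEq X] (q : ℕ)
    (S : X → Finset (Fin (2 * q))) (c : X → ℕ) (h : ∀ y, c y * (S y).card = 2 * q) :
    (∏ y : X, c y) * (Finset.univ.filter (fun t : X → Fin (2 * q) => ∀ y, t y ∈ S y)).card =
      Fintype.card (X → Fin (2 * q)) := by
  have h1 : (Finset.univ.filter (fun t : X → Fin (2 * q) => ∀ y, t y ∈ S y)) =
      Fintype.piFinset S := by
    ext t
    rw [Finset.mem_filter, Fintype.mem_piFinset]
    exact ⟨fun h => h.2, fun h => ⟨Finset.mem_univ _, h⟩⟩
  rw [h1, Fintype.card_piFinset, ← Finset.prod_mul_distrib, Finset.prod_congr rfl fun y _ => h y,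
    Finset.prod_const, Finset.card_univ, Fintype.card_fun, Fintype.card_fin]

/-- The number of functions with given constraints at the points of a set.

Proof. The functions are the elements of `Fintype.piFinset S` with `S x = {j}` resp. the letters
`≥ q` resp. everything; `Fintype.card_piFinset`, and split the product over `X` into the product
over `x`, over `Z \ {x}` and over the rest. (For `x ∈ Z`.) -/
theorem lay_one {X : Type} [Fintype X] [DecidableEq X] (q : ℕ) (hq : 0 < q) (x : X)
    (Z : Finset X) (hx : x ∈ Z) (j : Fin q) :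
    2 ^ Z.card * q * (Finset.univ.filter (fun t : X → Fin (2 * q) =>
      (t x).1 = j.1 ∧ ∀ z ∈ Z, z ≠ x → q ≤ (t z).1)).card = Fintype.card (X → Fin (2 * q)) := by
  have hj : j.1 < 2 * q := by omega
  let S : X → Finset (Fin (2 * q)) := fun y =>
    if y = x then {⟨j.1, hj⟩} else
      if y ∈ Z then Finset.univ.filter (fun a : Fin (2 * q) => q ≤ a.1) else Finset.univ
  have hS : ∀ y, ((if y ∈ Z then 2 else 1) * (if y = x then q else 1)) * (S y).card = 2 * q := by
    intro y
    by_cases h1 : y = x
    · subst h1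
      simp only [S, if_true, if_pos hx, Finset.card_singleton, mul_one]
    · by_cases h2 : y ∈ Z
      · simp only [S, if_neg h1, if_pos h2, lay_half q hq, mul_one]
      · simp only [S, if_neg h1, if_neg h2, Finset.card_univ, Fintype.card_fin, one_mul]
  rw [← lay_weight q x Z, ← lay_count q S _ hS]
  congr 2
  ext t
  rw [Finset.mem_filter, Finset.mem_filter]
  refine and_congr_right fun _ => ?_
  constructor
  · rintro ⟨h1, h2⟩ y
    by_cases h3 : y = x
    · subst h3
      simp only [S, if_true, Finset.mem_singleton]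
      exact Fin.ext h1
    · by_cases h4 : y ∈ Z
      · simp only [S, if_neg h3, if_pos h4, Finset.mem_filter, Finset.mem_univ, true_and]
        exact h2 y h4 h3
      · simp only [S, if_neg h3, if_neg h4, Finset.mem_univ]
  · intro h
    constructor
    · have h1 := h x
      simp only [S, if_true, Finset.mem_singleton] at h1
      rw [h1]
    · intro z hz hzx
      have h1 := h z
      simp only [S, if_neg hzx, if_pos hz, Finset.mem_filter, Finset.mem_univ, true_and] at h1
      exact h1

/-- Independence for two disjoint sets.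

Proof. As for `lay_one`, with the constraints at the points of `Z` and of `Z'`. -/
theorem lay_two {X : Type} [Fintype X] [DecidableEq X] (q : ℕ) (hq : 0 < q) (x x' : X)
    (Z Z' : Finset X) (hx : x ∈ Z) (hx' : x' ∈ Z') (hd : Disjoint Z Z') (j : Fin q) :
    2 ^ Z.card * q * (2 ^ Z'.card * q) * (Finset.univ.filter (fun t : X → Fin (2 * q) =>
      ((t x).1 = j.1 ∧ ∀ z ∈ Z, z ≠ x → q ≤ (t z).1) ∧
        ((t x').1 = j.1 ∧ ∀ z ∈ Z', z ≠ x' → q ≤ (t z).1))).card =
      Fintype.card (X → Fin (2 * q)) := by
  have hj : j.1 < 2 * q := by omega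
  have hxZ' : x ∉ Z' := fun h => Finset.disjoint_left.1 hd hx h
  have hxZ : x' ∉ Z := fun h => Finset.disjoint_left.1 hd h hx'
  have hxx : x ≠ x' := fun h => hxZ' (h ▸ hx')
  let S : X → Finset (Fin (2 * q)) := fun y =>
    if y = x ∨ y = x' then {⟨j.1, hj⟩} else
      if y ∈ Z ∨ y ∈ Z' then Finset.univ.filter (fun a : Fin (2 * q) => q ≤ a.1) else Finset.univ
  have hS : ∀ y, (((if y ∈ Z then 2 else 1) * (if y = x then q else 1)) *
      ((if y ∈ Z' then 2 else 1) * (if y = x' then q else 1))) * (S y).card = 2 * q := by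
    intro y
    by_cases h1 : y = x
    · subst h1
      simp only [S, true_or, if_true, if_pos hx, if_neg hxZ', if_neg hxx, Finset.card_singleton,
        mul_one]
    · by_cases h1' : y = x'
      · subst h1'
        simp only [S, or_true, if_true, if_pos hx', if_neg hxZ, if_neg h1,
          Finset.card_singleton, mul_one, one_mul]
      · have h3 : ¬ (y = x ∨ y = x') := by tauto
        by_cases h2 : y ∈ Z
        · have h4 : y ∉ Z' := fun h => Finset.disjoint_left.1 hd h2 h
          have h5 : y ∈ Z ∨ y ∈ Z' := Or.inl h2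
          simp only [S, if_neg h3, if_pos h5, if_pos h2, if_neg h4, if_neg h1, if_neg h1',
            lay_half q hq, mul_one]
        · by_cases h4 : y ∈ Z'
          · have h5 : y ∈ Z ∨ y ∈ Z' := Or.inr h4
            simp only [S, if_neg h3, if_pos h5, if_neg h2, if_pos h4, if_neg h1, if_neg h1',
              lay_half q hq, mul_one, one_mul]
          · have h5 : ¬ (y ∈ Z ∨ y ∈ Z') := by tauto
            simp only [S, if_neg h3, if_neg h5, if_neg h2, if_neg h4, if_neg h1, if_neg h1',
              Finset.card_univ, Fintype.card_fin, one_mul]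
  rw [← lay_weight q x Z, ← lay_weight q x' Z', ← Finset.prod_mul_distrib,
    ← lay_count q S _ hS]
  congr 2
  ext t
  rw [Finset.mem_filter, Finset.mem_filter]
  refine and_congr_right fun _ => ?_
  constructor
  · rintro ⟨⟨h1, h2⟩, h1', h2'⟩ y
    by_cases h3 : y = x ∨ y = x'
    · simp only [S, if_pos h3, Finset.mem_singleton]
      rcases h3 with rfl | rfl
      · exact Fin.ext h1
      · exact Fin.ext h1'
    · have h3' : y ≠ x ∧ y ≠ x' := by tauto
      by_cases h4 : y ∈ Z ∨ y ∈ Z'
      · simp only [S, if_neg h3, if_pos h4, Finset.mem_filter, Finset.mem_univ, true_and]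
        rcases h4 with h4 | h4
        · exact h2 y h4 h3'.1
        · exact h2' y h4 h3'.2
      · simp only [S, if_neg h3, if_neg h4, Finset.mem_univ]
  · intro h
    refine ⟨⟨?_, ?_⟩, ?_, ?_⟩
    · have h1 := h x
      simp only [S, true_or, if_true, Finset.mem_singleton] at h1
      rw [h1]
    · intro z hz hzx
      have h1 := h z
      have h3 : ¬ (z = x ∨ z = x') := by
        rintro (h3 | h3)
        · exact hzx h3
        · exact hxZ (h3 ▸ hz)
      have h4 : z ∈ Z ∨ z ∈ Z' := Or.inl hz
      simp only [S, if_neg h3, if_pos h4, Finset.mem_filter, Finset.mem_univ, true_and] at h1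
      exact h1
    · have h1 := h x'
      simp only [S, or_true, if_true, Finset.mem_singleton] at h1
      rw [h1]
    · intro z hz hzx
      have h1 := h z
      have h3 : ¬ (z = x ∨ z = x') := by
        rintro (h3 | h3)
        · exact hxZ' (h3 ▸ hz)
        · exact hzx h3
      have h4 : z ∈ Z ∨ z ∈ Z' := Or.inr hz
      simp only [S, if_neg h3, if_pos h4, Finset.mem_filter, Finset.mem_univ, true_and] at h1
      exact h1

end Pool.Agent.MPfe8e9bW
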