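import Mathlib
import Pool.Agent.Lib.MP_fe8e9b_al_W.Defs

/-!
# MP_fe8e9b_al, wreath towers: permutation representations
-/

set_option autoImplicit false

open scoped BigOperators

namespace Pool.Agent.MPfe8e9bW

open Pool.Agent.MPfe8e9b Pool.Agent.MPfe8e9bA

theorem prm_tr {Ω : Type} [Fintype Ω] (b : Equiv.Perm Ω) (f : EuclideanSpace ℂ Ω) (x : Ω) :
    (LinearIsometryEquiv.piLpCongrLeft 2 ℂ ℂ b f) x = f (b⁻¹ x) := by
  simp [LinearIsometryEquiv.piLpCongrLeft_apply, Equiv.piCongrLeft']

/-- The permutation representation. -/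
noncomputable def prm {G Ω : Type} [Group G] [Fintype Ω] (β : G →* Equiv.Perm Ω) :
    G →* (EuclideanSpace ℂ Ω ≃ₗᵢ[ℂ] EuclideanSpace ℂ Ω) where
  toFun g := LinearIsometryEquiv.piLpCongrLeft 2 ℂ ℂ (β g)
  map_one' := by
    ext f x
    rw [prm_tr, map_one, inv_one]
    rfl
  map_mul' a b := by
    ext f x
    rw [prm_tr]
    show _ = (LinearIsometryEquiv.piLpCongrLeft 2 ℂ ℂ (β a)
      (LinearIsometryEquiv.piLpCongrLeft 2 ℂ ℂ (β b) f)) x
    rw [prm_tr, prm_tr, map_mul, mul_inv_rev]
    rfl

theorem prm_apply {G Ω : Type} [Group G] [Fintype Ω] (β : G →* Equiv.Perm Ω) (g : G)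
    (f : EuclideanSpace ℂ Ω) (x : Ω) : prm β g f x = f ((β g)⁻¹ x) := prm_tr (β g) f x

/-- Translation of the first index. -/
def lmP (G : Type) [Group G] : G →* Equiv.Perm (G × G) where
  toFun c :=
    { toFun := fun p => (p.1 * c⁻¹, p.2)
      invFun := fun p => (p.1 * c, p.2)
      left_inv := fun p => by simp
      right_inv := fun p => by simp }
  map_one' := by
    ext p <;> simp
  map_mul' a b := by
    ext p <;> simp [mul_assoc]

/-- Translation of both indices. -/
def adP (G : Type) [Group G] : G →* Equiv.Perm (G × G) where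
  toFun c :=
    { toFun := fun p => (p.1 * c⁻¹, p.2 * c⁻¹)
      invFun := fun p => (p.1 * c, p.2 * c)
      left_inv := fun p => by simp
      right_inv := fun p => by simp }
  map_one' := by
    ext p <;> simp
  map_mul' a b := by
    ext p <;> simp [mul_assoc]

/-- Translation of the first index, as a representation. -/
noncomputable def lm (G : Type) [Group G] [Fintype G] :
    G →* (EuclideanSpace ℂ (G × G) ≃ₗᵢ[ℂ] EuclideanSpace ℂ (G × G)) := prm (lmP G)

/-- Translation of both indices, as a representation. -/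
noncomputable def ad (G : Type) [Group G] [Fintype G] :
    G →* (EuclideanSpace ℂ (G × G) ≃ₗᵢ[ℂ] EuclideanSpace ℂ (G × G)) := prm (adP G)

theorem lm_apply (G : Type) [Group G] [Fintype G] (c : G) (x : EuclideanSpace ℂ (G × G))
    (a b : G) : lm G c x (a, b) = x (a * c, b) := by
  rw [lm, prm_apply]
  rfl

theorem ad_apply (G : Type) [Group G] [Fintype G] (c : G) (x : EuclideanSpace ℂ (G × G))
    (a b : G) : ad G c x (a, b) = x (a * c, b * c) := by
  rw [ad, prm_apply]
  rfl

end Pool.Agent.MPfe8e9bW
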