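import Mathlib

/-!
# MP_fe8e9b_al, wreath towers: the inequality of Powers and Størmer
-/

set_option autoImplicit false

open scoped BigOperators Matrix ComplexOrder

namespace Pool.Agent.MPfe8e9bW

/-- Squared Hilbert-Schmidt norm of a matrix. -/
noncomputable def hs {m n : Type} [Fintype m] [Fintype n] (A : Matrix m n ℂ) : ℝ :=
  ∑ i, ∑ j, ‖A i j‖ ^ 2

private theorem pst_coe {n m : Type} [Fintype n] [Fintype m] (M : Matrix n m ℂ) :
    ((hs M : ℝ) : ℂ) = (M * Mᴴ).trace := by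
  simp only [hs, Matrix.trace, Matrix.diag_apply, Matrix.mul_apply, Matrix.conjTranspose_apply,
    RCLike.star_def, Complex.mul_conj']
  push_cast
  rfl

private theorem pst_coe' {n m : Type} [Fintype n] [Fintype m] (M : Matrix n m ℂ) :
    ((hs M : ℝ) : ℂ) = (Mᴴ * M).trace := by
  rw [pst_coe, Matrix.trace_mul_comm]

private theorem pst_left {n m : Type} [Fintype n] [DecidableEq n] [Fintype m]
    (U : Matrix n n ℂ) (hU : U * Uᴴ = 1) (M : Matrix n m ℂ) : hs (Uᴴ * M) = hs M := by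
  have h : ((hs (Uᴴ * M) : ℝ) : ℂ) = ((hs M : ℝ) : ℂ) := by
    rw [pst_coe', pst_coe', Matrix.conjTranspose_mul, Matrix.conjTranspose_conjTranspose,
      Matrix.mul_assoc, ← Matrix.mul_assoc U, hU, Matrix.one_mul]
  exact_mod_cast h

private theorem pst_right {n m : Type} [Fintype n] [DecidableEq n] [Fintype m]
    (U : Matrix n n ℂ) (hU : U * Uᴴ = 1) (M : Matrix m n ℂ) : hs (M * U) = hs M := by
  have h : ((hs (M * U) : ℝ) : ℂ) = ((hs M : ℝ) : ℂ) := by
    rw [pst_coe, pst_coe, Matrix.conjTranspose_mul, Matrix.mul_assoc, ← Matrix.mul_assoc U, hU,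
      Matrix.one_mul]
  exact_mod_cast h

/-- The inequality of Powers and Størmer when the difference is diagonal. -/
private theorem pst_diag {n m : Type} [Fintype n] [DecidableEq n] [Fintype m]
    (A B : Matrix n n ℂ) (hA : A.PosSemidef) (hB : B.PosSemidef) (K L : Matrix n m ℂ)
    (h1 : A * A = K * Kᴴ) (h2 : B * B = L * Lᴴ) (l : n → ℝ)
    (hl : A - B = Matrix.diagonal (fun i => (l i : ℂ))) :
    hs (A - B) ≤ (Real.sqrt (hs K) + Real.sqrt (hs L)) * Real.sqrt (hs (K - L)) := by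
  set r : Matrix n m ℂ → n → ℝ := fun M i => Real.sqrt (∑ j, ‖M i j‖ ^ 2) with hr
  have hr0 : ∀ M i, 0 ≤ r M i := fun M i => Real.sqrt_nonneg _
  have hr2 : ∀ M i, r M i ^ 2 = ∑ j, ‖M i j‖ ^ 2 := fun M i =>
    Real.sq_sqrt (Finset.sum_nonneg fun j _ => sq_nonneg _)
  have hrs : ∀ M, ∑ i, r M i ^ 2 = hs M := fun M => Finset.sum_congr rfl fun i _ => hr2 M i
  have hrn : ∀ M i, r M i = ‖(WithLp.toLp 2 (M i) : EuclideanSpace ℂ m)‖ := by
    intro M i
    rw [EuclideanSpace.norm_eq]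
  have hsub : ∀ i, |r K i - r L i| ≤ r (K - L) i := by
    intro i
    rw [hrn, hrn, hrn]
    have e : (WithLp.toLp 2 ((K - L) i) : EuclideanSpace ℂ m) =
        WithLp.toLp 2 (K i) - WithLp.toLp 2 (L i) := rfl
    rw [e]
    exact abs_norm_sub_norm_le _ _
  -- the diagonal of `K * Kᴴ`
  have hdiag : ∀ (M : Matrix n m ℂ) i, (M * Mᴴ) i i = ((r M i ^ 2 : ℝ) : ℂ) := by
    intro M i
    rw [hr2]
    simp only [Matrix.mul_apply, Matrix.conjTranspose_apply, RCLike.star_def, Complex.mul_conj']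
    push_cast
    rfl
  have hle : ∀ i, l i ^ 2 ≤ (r K i + r L i) * r (K - L) i := by
    intro i
    have ha := hA.diag_nonneg (i := i)
    have hb := hB.diag_nonneg (i := i)
    rw [Complex.le_def] at ha hb
    simp only [Complex.zero_re, Complex.zero_im] at ha hb
    have hAB : A i i - B i i = (l i : ℂ) := by
      have := congrFun (congrFun hl i) i
      rwa [Matrix.sub_apply, Matrix.diagonal_apply_eq] at this
    have hid : (A * A) i i - (B * B) i i = (l i : ℂ) * (A i i + B i i) := by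
      have e1 : A * A - B * B = (1 / 2 : ℂ) • ((A - B) * (A + B) + (A + B) * (A - B)) := by
        have e2 : (A - B) * (A + B) + (A + B) * (A - B) = (2 : ℂ) • (A * A - B * B) := by
          rw [two_smul]
          noncomm_ring
        rw [e2, smul_smul]
        norm_num
      rw [← Matrix.sub_apply, e1, hl, Matrix.smul_apply, Matrix.add_apply,
        Matrix.diagonal_mul, Matrix.mul_diagonal, Matrix.add_apply, smul_eq_mul]
      ring
    rw [h1, h2, hdiag, hdiag] at hid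
    have hre := congrArg Complex.re hid
    have hre2 := congrArg Complex.re hAB
    simp only [Complex.sub_re, Complex.ofReal_re, Complex.re_ofReal_mul, Complex.add_re] at hre hre2
    -- `r K i ^ 2 - r L i ^ 2 = l i * (a + b)` and `a - b = l i`, `a, b ≥ 0`
    have h3 : |l i| ≤ (A i i).re + (B i i).re := by
      rw [abs_le]
      constructor <;> linarith [ha.1, hb.1]
    have h4 : l i ^ 2 ≤ |r K i ^ 2 - r L i ^ 2| := by
      rw [hre, abs_mul, ← sq_abs, sq]
      apply mul_le_mul_of_nonneg_left _ (abs_nonneg _)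
      exact h3.trans (le_abs_self _)
    have h5 : |r K i ^ 2 - r L i ^ 2| = (r K i + r L i) * |r K i - r L i| := by
      rw [sq_sub_sq, abs_mul, abs_of_nonneg (add_nonneg (hr0 _ _) (hr0 _ _))]
    rw [h5] at h4
    exact h4.trans (mul_le_mul_of_nonneg_left (hsub i) (add_nonneg (hr0 _ _) (hr0 _ _)))
  have hs1 : hs (A - B) = ∑ i, l i ^ 2 := by
    rw [hl, hs]
    apply Finset.sum_congr rfl
    intro i _
    rw [Finset.sum_eq_single i]
    · rw [Matrix.diagonal_apply_eq, Complex.norm_real, Real.norm_eq_abs, sq_abs]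
    · intro j _ hj
      rw [Matrix.diagonal_apply_ne _ (Ne.symm hj)]
      simp
    · intro h
      exact absurd (Finset.mem_univ _) h
  rw [hs1]
  calc ∑ i, l i ^ 2 ≤ ∑ i, (r K i + r L i) * r (K - L) i := Finset.sum_le_sum fun i _ => hle i
    _ = ∑ i, r K i * r (K - L) i + ∑ i, r L i * r (K - L) i := by
        rw [← Finset.sum_add_distrib]
        exact Finset.sum_congr rfl fun i _ => add_mul _ _ _
    _ ≤ Real.sqrt (∑ i, r K i ^ 2) * Real.sqrt (∑ i, r (K - L) i ^ 2) +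
        Real.sqrt (∑ i, r L i ^ 2) * Real.sqrt (∑ i, r (K - L) i ^ 2) :=
        add_le_add (Real.sum_mul_le_sqrt_mul_sqrt _ _ _) (Real.sum_mul_le_sqrt_mul_sqrt _ _ _)
    _ = _ := by rw [hrs, hrs, hrs, add_mul]

/-- The inequality of Powers and Størmer.

Proof. `A - B` is hermitian. Take an orthonormal basis `e` of eigenvectors
(`Matrix.IsHermitian.eigenvectorBasis`) with real eigenvalues `l i`. Then
`hs (A - B) = ∑ i, l i ^ 2` (the Hilbert-Schmidt norm is `∑ i, ‖(A - B) e_i‖ ^ 2` for every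
orthonormal basis). For a unit eigenvector `e` with eigenvalue `l`:
`⟨A * A e, e⟩ - ⟨B * B e, e⟩ = ‖A e‖ ^ 2 - ‖B e‖ ^ 2 = re ⟨(A - B) e, (A + B) e⟩ =
l * ⟨e, (A + B) e⟩` and `⟨e, (A + B) e⟩ ≥ |⟨e, (A - B) e⟩| = |l|` because `⟨e, A e⟩ ≥ 0` and
`⟨e, B e⟩ ≥ 0`. Hence `l ^ 2 ≤ |⟨A * A e, e⟩ - ⟨B * B e, e⟩| = |‖Kᴴ e‖ ^ 2 - ‖Lᴴ e‖ ^ 2| ≤
(‖Kᴴ e‖ + ‖Lᴴ e‖) * ‖(K - L)ᴴ e‖`. Sum over `e` and use the inequality of Cauchy and Schwarz
(`Finset.sum_mul_sq_le_sq_mul_sq` or `Finset.inner_mul_le_norm_mul_norm`) together with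
`∑ e, ‖Kᴴ e‖ ^ 2 = hs K`. -/
theorem powers_stormer {n m : Type} [Fintype n] [DecidableEq n] [Fintype m]
    (A B : Matrix n n ℂ) (hA : A.PosSemidef) (hB : B.PosSemidef) (K L : Matrix n m ℂ)
    (h1 : A * A = K * Kᴴ) (h2 : B * B = L * Lᴴ) :
    hs (A - B) ≤ (Real.sqrt (hs K) + Real.sqrt (hs L)) * Real.sqrt (hs (K - L)) := by
  have hH : (A - B).IsHermitian := hA.isHermitian.sub hB.isHermitian
  set U : Matrix n n ℂ := (hH.eigenvectorUnitary : Matrix n n ℂ) with hUdef
  have hU : U * Uᴴ = 1 := Unitary.coe_mul_star_self hH.eigenvectorUnitary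
  have hU2 : Uᴴ * U = 1 := Unitary.coe_star_mul_self hH.eigenvectorUnitary
  have hsp : Uᴴ * (A - B) * U = Matrix.diagonal (fun i => (hH.eigenvalues i : ℂ)) := by
    have h := hH.conjStarAlgAut_star_eigenvectorUnitary
    rw [Unitary.conjStarAlgAut_star_apply] at h
    exact h
  have hA' : (Uᴴ * A * U).PosSemidef := hA.conjTranspose_mul_mul_same U
  have hB' : (Uᴴ * B * U).PosSemidef := hB.conjTranspose_mul_mul_same U
  have hmul : ∀ (C : Matrix n n ℂ) (N : Matrix n m ℂ), C * C = N * Nᴴ →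
      (Uᴴ * C * U) * (Uᴴ * C * U) = (Uᴴ * N) * (Uᴴ * N)ᴴ := by
    intro C N h
    have e1 : (Uᴴ * C * U) * (Uᴴ * C * U) = Uᴴ * C * (U * Uᴴ) * C * U := by
      simp only [Matrix.mul_assoc]
    have e2 : (Uᴴ * N) * (Uᴴ * N)ᴴ = Uᴴ * (N * Nᴴ) * U := by
      rw [Matrix.conjTranspose_mul, Matrix.conjTranspose_conjTranspose]
      simp only [Matrix.mul_assoc]
    rw [e1, e2, hU, Matrix.mul_one, ← h]
    simp only [Matrix.mul_assoc]
  have hdif : Uᴴ * A * U - Uᴴ * B * U = Uᴴ * (A - B) * U := by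
    rw [Matrix.mul_sub, Matrix.sub_mul]
  have key := pst_diag (Uᴴ * A * U) (Uᴴ * B * U) hA' hB' (Uᴴ * K) (Uᴴ * L) (hmul A K h1)
    (hmul B L h2) hH.eigenvalues (by rw [hdif, hsp])
  rw [hdif, pst_right U hU, pst_left U hU, pst_left U hU, pst_left U hU, ← Matrix.mul_sub,
    pst_left U hU] at key
  exact key

/-- A positive semidefinite matrix has a positive semidefinite square root.

Proof. Use `CFC.sqrt` (with the scoped instances of `ComplexOrder` and `MatrixOrder`) or the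
spectral theorem `Matrix.IsHermitian.spectral_theorem` directly. -/
theorem exists_psd_sqrt {n : Type} [Fintype n] [DecidableEq n] (A : Matrix n n ℂ)
    (hA : A.PosSemidef) : ∃ S : Matrix n n ℂ, S.PosSemidef ∧ S * S = A := by
  open scoped MatrixOrder in
  exact ⟨CFC.sqrt A, Matrix.nonneg_iff_posSemidef.1 (CFC.sqrt_nonneg A),
    CFC.sqrt_mul_sqrt_self A (Matrix.nonneg_iff_posSemidef.2 hA)⟩

end Pool.Agent.MPfe8e9bW
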