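import Mathlib
import Pool.Agent.Lib.MP_fe8e9b_al_W.Defs
import Pool.Agent.Lib.MP_fe8e9b_al_W.Fr
import Pool.Agent.Lib.MP_fe8e9b_al_W.PSt

/-!
# MP_fe8e9b_al, wreath towers: the square root of a vector state
-/

set_option autoImplicit false

open scoped BigOperators Matrix ComplexOrder

namespace Pool.Agent.MPfe8e9bW

open Pool.Agent.MPfe8e9b Pool.Agent.MPfe8e9bA

section

variable {G : Type} [Group G] [Fintype G]
  {V : Type} [NormedAddCommGroup V] [InnerProductSpace ℂ V] [FiniteDimensional ℂ V]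

/-- The matrix of a vector. -/
private noncomputable def dma_K (ρ : G →* (V ≃ₗᵢ[ℂ] V)) (w : V) :
    Matrix G (Fin (Module.finrank ℂ V)) ℂ :=
  Matrix.of fun a u => (((Real.sqrt (Fintype.card G : ℝ))⁻¹ : ℝ) : ℂ) *
    inner ℂ (stdOrthonormalBasis ℂ V u) (ρ a w)

private theorem dma_K_apply (ρ : G →* (V ≃ₗᵢ[ℂ] V)) (w : V) (a : G)
    (u : Fin (Module.finrank ℂ V)) :
    dma_K ρ w a u = (((Real.sqrt (Fintype.card G : ℝ))⁻¹ : ℝ) : ℂ) *
      inner ℂ (stdOrthonormalBasis ℂ V u) (ρ a w) := rfl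

private theorem dma_card : (0 : ℝ) < (Fintype.card G : ℝ) := by
  exact_mod_cast Fintype.card_pos

omit [Group G] in
private theorem dma_sq :
    (Real.sqrt (Fintype.card G : ℝ))⁻¹ * (Real.sqrt (Fintype.card G : ℝ))⁻¹ =
      ((Fintype.card G : ℝ))⁻¹ := by
  rw [← mul_inv, Real.mul_self_sqrt (Nat.cast_nonneg _)]

private theorem dma_KK (ρ : G →* (V ≃ₗᵢ[ℂ] V)) (w : V) (a a' : G) :
    (dma_K ρ w * (dma_K ρ w)ᴴ) a a' = ((Fintype.card G : ℂ))⁻¹ * inner ℂ (ρ a' w) (ρ a w) := by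
  rw [Matrix.mul_apply, ← (stdOrthonormalBasis ℂ V).sum_inner_mul_inner (ρ a' w) (ρ a w),
    Finset.mul_sum]
  refine Finset.sum_congr rfl (fun u _ => ?_)
  rw [Matrix.conjTranspose_apply, dma_K_apply, dma_K_apply]
  have h1 : star ((((Real.sqrt (Fintype.card G : ℝ))⁻¹ : ℝ) : ℂ) *
      inner ℂ (stdOrthonormalBasis ℂ V u) (ρ a' w)) =
      (((Real.sqrt (Fintype.card G : ℝ))⁻¹ : ℝ) : ℂ) *
      inner ℂ (ρ a' w) (stdOrthonormalBasis ℂ V u) := by
    rw [star_mul', ← inner_conj_symm (ρ a' w)]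
    congr 1
    exact Complex.conj_ofReal _
  rw [h1]
  have h2 : ((Fintype.card G : ℂ))⁻¹ = (((Real.sqrt (Fintype.card G : ℝ))⁻¹ : ℝ) : ℂ) *
      (((Real.sqrt (Fintype.card G : ℝ))⁻¹ : ℝ) : ℂ) := by
    rw [← Complex.ofReal_mul, dma_sq]
    push_cast
    rfl
  rw [h2]
  ring

private theorem dma_hs (ρ : G →* (V ≃ₗᵢ[ℂ] V)) (w : V) : hs (dma_K ρ w) = ‖w‖ ^ 2 := by
  have h1 : ∀ a : G, ∑ u, ‖dma_K ρ w a u‖ ^ 2 = ((Fintype.card G : ℝ))⁻¹ * ‖w‖ ^ 2 := by
    intro a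
    have h2 := (stdOrthonormalBasis ℂ V).sum_sq_norm_inner_right (ρ a w)
    rw [LinearIsometryEquiv.norm_map] at h2
    rw [← h2, Finset.mul_sum]
    refine Finset.sum_congr rfl (fun u _ => ?_)
    rw [dma_K_apply, norm_mul, mul_pow, Complex.norm_real, Real.norm_eq_abs, sq_abs, pow_two,
      dma_sq]
  rw [hs, Finset.sum_congr rfl (fun a _ => h1 a), Finset.sum_const, Finset.card_univ,
    nsmul_eq_mul, ← mul_assoc, mul_inv_cancel₀ (ne_of_gt dma_card), one_mul]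

private theorem dma_sub (ρ : G →* (V ≃ₗᵢ[ℂ] V)) (w w' : V) :
    dma_K ρ w - dma_K ρ w' = dma_K ρ (w - w') := by
  ext a u
  rw [Matrix.sub_apply, dma_K_apply, dma_K_apply, dma_K_apply, map_sub, inner_sub_right]
  ring

end

/-- The square root of a vector state.

Proof. Let `n = card G`, `b` an orthonormal basis of `V` (`stdOrthonormalBasis ℂ V`, indexed by
`Fin (finrank ℂ V)`) and `K w : Matrix G (Fin _) ℂ`, `K w a u = inner ℂ (b u) (ρ a w) / √n`, for
`w ∈ V`. Then `(K w * (K w)ᴴ) a a' = inner ℂ (ρ a' w) (ρ a w) / n`,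
`hs (K w) = ‖w‖ ^ 2`, `K w - K w' = K (w - w')`. `D = K v * (K v)ᴴ` is positive semidefinite
(`Matrix.posSemidef_self_mul_conjTranspose`), `S` its square root (`exists_psd_sqrt`),
`x (a, a') = S a a'`.
* `inner ℂ x (lm G c x) = ∑ a, a', conj (S a a') * S (a c) a' = ∑ a, (S * Sᴴ) (a c) a =
  ∑ a, D (a c) a = (1/n) ∑ a, inner ℂ (ρ a v) (ρ a (ρ c v)) = inner ℂ v (ρ c v)`; with `c = 1`
  this gives the norm.
* `ad G h x` belongs to the matrix `A a a' = S (a h) (a' h)` (`Matrix.PosSemidef.submatrix`),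
  `A * A = K (ρ h v) * (K (ρ h v))ᴴ` and `S * S = K v * (K v)ᴴ = K (T v) * (K (T v))ᴴ` because `T`
  is unitary and commutes with `ρ`. `powers_stormer` gives
  `‖ad G h x - x‖ ^ 2 = hs (A - S) ≤ 2 ‖v‖ * ‖ρ h v - T v‖`.
* If `av ρ v = 0` then `∑ a, ρ a v = 0`, so for `e = (1, …, 1)`:
  `‖S e‖ ^ 2 = ⟨e, D e⟩ = ‖∑ a, ρ a v‖ ^ 2 / n = 0`, and
  `∑ a, S a a' = conj ((S e) a') = 0` because `S` is hermitian. -/
theorem dm_vec {G : Type} [Group G] [Fintype G]
    {V : Type} [NormedAddCommGroup V] [InnerProductSpace ℂ V] [FiniteDimensional ℂ V]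
    (ρ : G →* (V ≃ₗᵢ[ℂ] V)) (v : V) :
    ∃ x : EuclideanSpace ℂ (G × G), ‖x‖ = ‖v‖ ∧
      (∀ c, inner ℂ x (lm G c x) = inner ℂ v (ρ c v)) ∧
      (∀ (h : G) (T : V ≃ₗᵢ[ℂ] V), (∀ g u, T (ρ g u) = ρ g (T u)) →
        ‖ad G h x - x‖ ^ 2 ≤ 2 * ‖v‖ * ‖ρ h v - T v‖) ∧
      (av ρ v = 0 → ∀ b, ∑ a, x (a, b) = 0) := by
  classical
  have hn : (0 : ℝ) < (Fintype.card G : ℝ) := dma_card
  have hnC : ((Fintype.card G : ℂ)) ≠ 0 := by
    exact_mod_cast Fintype.card_ne_zero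
  obtain ⟨S, hS, hSS⟩ := exists_psd_sqrt (dma_K ρ v * (dma_K ρ v)ᴴ)
    (Matrix.posSemidef_self_mul_conjTranspose _)
  have hSh : Sᴴ = S := hS.1
  have hmul : ∀ (a c : G) (w : V), ρ (a * c) w = ρ a (ρ c w) := by
    intro a c w
    rw [map_mul]
    rfl
  have hinner : ∀ c, inner ℂ (WithLp.toLp 2 (fun p : G × G => S p.1 p.2) :
      EuclideanSpace ℂ (G × G)) (lm G c (WithLp.toLp 2 (fun p : G × G => S p.1 p.2))) =
      inner ℂ v (ρ c v) := by
    intro c
    rw [PiLp.inner_apply, Fintype.sum_prod_type]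
    have h1 : ∀ a : G, ∑ a' : G, inner ℂ ((WithLp.toLp 2 (fun p : G × G => S p.1 p.2) :
        EuclideanSpace ℂ (G × G)) (a, a'))
        ((lm G c (WithLp.toLp 2 (fun p : G × G => S p.1 p.2)) : EuclideanSpace ℂ (G × G))
          (a, a')) = ((Fintype.card G : ℂ))⁻¹ * inner ℂ v (ρ c v) := by
      intro a
      have h2 : (S * Sᴴ) (a * c) a = ((Fintype.card G : ℂ))⁻¹ * inner ℂ v (ρ c v) := by
        rw [hSh, hSS, dma_KK, hmul, LinearIsometryEquiv.inner_map_map]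
      rw [← h2, Matrix.mul_apply]
      refine Finset.sum_congr rfl (fun a' _ => ?_)
      rw [lm_apply, Matrix.conjTranspose_apply, RCLike.inner_apply]
      rfl
    rw [Finset.sum_congr rfl (fun a _ => h1 a), Finset.sum_const, Finset.card_univ,
      nsmul_eq_mul, ← mul_assoc, mul_inv_cancel₀ hnC, one_mul]
  refine ⟨WithLp.toLp 2 (fun p : G × G => S p.1 p.2), ?_, hinner, ?_, ?_⟩
  · have h1 := hinner 1
    have h2 : lm G 1 (WithLp.toLp 2 (fun p : G × G => S p.1 p.2) : EuclideanSpace ℂ (G × G)) =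
        WithLp.toLp 2 (fun p : G × G => S p.1 p.2) := by
      rw [map_one]
      rfl
    have h3 : ρ 1 v = v := by
      rw [map_one]
      rfl
    rw [h2, h3, inner_self_eq_norm_sq_to_K, inner_self_eq_norm_sq_to_K] at h1
    have h4 : ‖(WithLp.toLp 2 (fun p : G × G => S p.1 p.2) : EuclideanSpace ℂ (G × G))‖ ^ 2 =
        ‖v‖ ^ 2 := by
      exact_mod_cast h1
    exact (sq_eq_sq₀ (norm_nonneg _) (norm_nonneg _)).mp h4
  · intro h T hT
    have hA : (S.submatrix (Equiv.mulRight h) (Equiv.mulRight h)).PosSemidef :=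
      hS.submatrix _
    have h1 : S.submatrix (Equiv.mulRight h) (Equiv.mulRight h) *
        S.submatrix (Equiv.mulRight h) (Equiv.mulRight h) =
        dma_K ρ (ρ h v) * (dma_K ρ (ρ h v))ᴴ := by
      rw [Matrix.submatrix_mul_equiv, hSS]
      ext a a'
      rw [Matrix.submatrix_apply, dma_KK, dma_KK, Equiv.coe_mulRight, hmul, hmul]
    have h2 : S * S = dma_K ρ (T v) * (dma_K ρ (T v))ᴴ := by
      rw [hSS]
      ext a a'
      rw [dma_KK, dma_KK, ← hT, ← hT, LinearIsometryEquiv.inner_map_map]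
    have h3 := powers_stormer _ S hA hS (dma_K ρ (ρ h v)) (dma_K ρ (T v)) h1 h2
    rw [dma_sub, dma_hs, dma_hs, dma_hs, Real.sqrt_sq (norm_nonneg _),
      Real.sqrt_sq (norm_nonneg _), Real.sqrt_sq (norm_nonneg _), LinearIsometryEquiv.norm_map,
      LinearIsometryEquiv.norm_map, ← two_mul] at h3
    refine le_trans (le_of_eq ?_) h3
    rw [EuclideanSpace.norm_sq_eq, Fintype.sum_prod_type, hs]
    refine Finset.sum_congr rfl (fun a _ => Finset.sum_congr rfl (fun a' _ => ?_))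
    rw [PiLp.sub_apply, ad_apply]
    rfl
  · intro hav b
    have h1 : ∑ a, ρ a v = 0 := by
      rw [av_apply] at hav
      exact (smul_eq_zero.mp hav).resolve_left (inv_ne_zero hnC)
    have h2 : (Sᴴ * S) *ᵥ (fun _ => (1 : ℂ)) = 0 := by
      rw [hSh, hSS]
      ext a
      rw [Matrix.mulVec, dotProduct]
      simp only [mul_one]
      rw [Finset.sum_congr rfl (fun a' _ => dma_KK ρ v a a'), ← Finset.mul_sum, ← sum_inner, h1,
        inner_zero_left, mul_zero]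
      rfl
    rw [Matrix.conjTranspose_mul_self_mulVec_eq_zero] at h2
    have h3 : ∑ a, S b a = 0 := by
      have h4 := congrFun h2 b
      rw [Matrix.mulVec, dotProduct] at h4
      simpa using h4
    have h5 : ∀ a, S a b = star (S b a) := by
      intro a
      rw [← Matrix.conjTranspose_apply, hSh]
    show ∑ a, S a b = 0
    rw [Finset.sum_congr rfl (fun a _ => h5 a), ← star_sum, h3, star_zero]

end Pool.Agent.MPfe8e9bW
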