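import Mathlib
import Pool.Agent.Lib.MP_fe8e9b_al_W.Defs
import Pool.Agent.Lib.MP_fe8e9b_al_W.Fr
import Pool.Agent.Lib.MP_fe8e9b_al.Comm

/-!
# MP_fe8e9b_al, wreath towers: commutators of the elements of a list
-/

set_option autoImplicit false

open scoped BigOperators

namespace Pool.Agent.MPfe8e9bW

open Pool.Agent.MPfe8e9b Pool.Agent.MPfe8e9bA

private theorem dmb_orth {G : Type} [Group G] [Fintype G] {V : Type} [NormedAddCommGroup V]
    [InnerProductSpace ℂ V] (ρ : G →* (V ≃ₗᵢ[ℂ] V)) (x : V) :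
    inner ℂ (av ρ x) (x - av ρ x) = 0 := by
  have h := av_symm ρ x (x - av ρ x)
  rw [h, map_sub, av_idem, sub_self, inner_zero_right]

private theorem dmb_norm {G : Type} [Group G] [Fintype G] {V : Type} [NormedAddCommGroup V]
    [InnerProductSpace ℂ V] (ρ : G →* (V ≃ₗᵢ[ℂ] V)) (x : V) : ‖x - av ρ x‖ ≤ ‖x‖ := by
  have h0 := dmb_orth ρ x
  have h1 : inner ℂ x (x - av ρ x) = inner ℂ (x - av ρ x) (x - av ρ x) := by
    rw [inner_sub_left, h0, sub_zero]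
  have h3 : ‖x - av ρ x‖ ^ 2 = (inner ℂ (x - av ρ x) (x - av ρ x)).re := by
    rw [inner_self_eq_norm_sq_to_K]
    norm_cast
  have h2 : ‖x - av ρ x‖ ^ 2 ≤ ‖x‖ * ‖x - av ρ x‖ := by
    rw [h3, ← h1]
    exact (Complex.re_le_norm _).trans (norm_inner_le_norm _ _)
  by_contra h
  push Not at h
  have h4 := norm_nonneg x
  nlinarith

private theorem dmb_re_av {G : Type} [Group G] [Fintype G] {V : Type} [NormedAddCommGroup V]
    [InnerProductSpace ℂ V] (ρ : G →* (V ≃ₗᵢ[ℂ] V)) (x : V) :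
    (inner ℂ x (av ρ x)).re = ((Fintype.card G : ℝ))⁻¹ * ∑ g, (inner ℂ x (ρ g x)).re := by
  have e : ((Fintype.card G : ℂ))⁻¹ = ((((Fintype.card G : ℝ))⁻¹ : ℝ) : ℂ) := by
    push_cast
    rfl
  rw [av_apply, inner_smul_right, inner_sum, e, Complex.re_ofReal_mul, Complex.re_sum]

/-- The average over a list is close to the average over the group: for every vector `x`,
`re ⟨x, average over the list of ρ (y j) x⟩ ≤ re ⟨x, av ρ x⟩ + η ‖x‖ ^ 2`.

Proof. `x = av ρ x + (x - av ρ x)`; the `ρ (y j)` fix `av ρ x`, `av ρ (x - av ρ x) = 0`, use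
`Mix`, `‖x - av ρ x‖ ≤ ‖x‖` and the inequality of Cauchy and Schwarz. -/
theorem mix_re {G : Type} [Group G] [Fintype G] {J : Type} [Fintype J] [Nonempty J] {y : J → G}
    {η : ℝ} (hη : 0 ≤ η) (hy : Mix y η)
    {V : Type} [NormedAddCommGroup V] [InnerProductSpace ℂ V] [FiniteDimensional ℂ V]
    (ρ : G →* (V ≃ₗᵢ[ℂ] V)) (x : V) :
    ∑ j, (inner ℂ x (ρ (y j) x)).re ≤
      (Fintype.card J : ℝ) * (((Fintype.card G : ℝ))⁻¹ * (∑ g, (inner ℂ x (ρ g x)).re) +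
        η * ‖x‖ ^ 2) := by
  have hn0 : (0 : ℝ) < (Fintype.card J : ℝ) := by exact_mod_cast Fintype.card_pos
  have h0 : av ρ (x - av ρ x) = 0 := by rw [map_sub, av_idem, sub_self]
  have h1 : ∀ j, (inner ℂ x (ρ (y j) x)).re =
      (inner ℂ x (av ρ x)).re + (inner ℂ x (ρ (y j) (x - av ρ x))).re := by
    intro j
    rw [map_sub, rho_av, inner_sub_right, Complex.sub_re]
    ring
  have e : ((Fintype.card J : ℂ))⁻¹ = ((((Fintype.card J : ℝ))⁻¹ : ℝ) : ℂ) := by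
    push_cast
    rfl
  have h2 : ∑ j, (inner ℂ x (ρ (y j) (x - av ρ x))).re = (Fintype.card J : ℝ) *
      (inner ℂ x (((Fintype.card J : ℂ))⁻¹ • ∑ j, ρ (y j) (x - av ρ x))).re := by
    rw [inner_smul_right, inner_sum, e, Complex.re_ofReal_mul, Complex.re_sum, ← mul_assoc,
      mul_inv_cancel₀ hn0.ne', one_mul]
  have h3 : (inner ℂ x (((Fintype.card J : ℂ))⁻¹ • ∑ j, ρ (y j) (x - av ρ x))).re ≤
      η * ‖x‖ ^ 2 := by
    calc (inner ℂ x (((Fintype.card J : ℂ))⁻¹ • ∑ j, ρ (y j) (x - av ρ x))).re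
        ≤ ‖inner ℂ x (((Fintype.card J : ℂ))⁻¹ • ∑ j, ρ (y j) (x - av ρ x))‖ :=
          Complex.re_le_norm _
      _ ≤ ‖x‖ * ‖((Fintype.card J : ℂ))⁻¹ • ∑ j, ρ (y j) (x - av ρ x)‖ :=
          norm_inner_le_norm _ _
      _ ≤ ‖x‖ * (η * ‖x - av ρ x‖) :=
          mul_le_mul_of_nonneg_left (hy V ρ _ h0) (norm_nonneg _)
      _ ≤ ‖x‖ * (η * ‖x‖) := by
          refine mul_le_mul_of_nonneg_left ?_ (norm_nonneg _)
          exact mul_le_mul_of_nonneg_left (dmb_norm ρ x) hη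
      _ = η * ‖x‖ ^ 2 := by ring
  rw [Finset.sum_congr rfl (fun j _ => h1 j), Finset.sum_add_distrib, Finset.sum_const,
    Finset.card_univ, nsmul_eq_mul, h2, dmb_re_av, ← mul_add]
  refine mul_le_mul_of_nonneg_left ?_ hn0.le
  linarith

private theorem dmb_ad_lm {G : Type} [Group G] [Fintype G] {x : EuclideanSpace ℂ (G × G)}
    (hx : ∀ h, ad G h x = x) (h a : G) : ad G h (lm G a x) = lm G (h * a * h⁻¹) x := by
  ext ⟨u, w⟩
  rw [ad_apply, lm_apply, lm_apply]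
  have h1 : ad G h⁻¹ x (u * h * a, w * h) = x (u * h * a, w * h) := by rw [hx]
  rw [ad_apply] at h1
  have e1 : u * h * a * h⁻¹ = u * (h * a * h⁻¹) := by group
  have e2 : w * h * h⁻¹ = w := by group
  rw [← h1, e1, e2]

private theorem dmb_conj {G : Type} [Group G] [Fintype G] {x : EuclideanSpace ℂ (G × G)}
    (hx : ∀ h, ad G h x = x) (g c : G) :
    inner ℂ x (lm G (g * c * g⁻¹) x) = inner ℂ x (lm G c x) := by
  rw [← dmb_ad_lm hx g c]
  calc inner ℂ x (ad G g (lm G c x)) = inner ℂ (ad G g x) (ad G g (lm G c x)) := by rw [hx g]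
    _ = inner ℂ x (lm G c x) := LinearIsometryEquiv.inner_map_map _ _ _

private theorem dmb_re_inv {G : Type} [Group G] [Fintype G] {V : Type} [NormedAddCommGroup V]
    [InnerProductSpace ℂ V] (ρ : G →* (V ≃ₗᵢ[ℂ] V)) (b : G) (v : V) :
    (inner ℂ v (ρ b⁻¹ v)).re = (inner ℂ v (ρ b v)).re := by
  rw [← av_inner_rho ρ b v v, ← inner_conj_symm, Complex.conj_re]

private theorem dmb_phi1 {G : Type} [Group G] [Fintype G] {x : EuclideanSpace ℂ (G × G)}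
    (hx : ∀ h, ad G h x = x) (a b : G) :
    (inner ℂ x (lm G (a⁻¹ * b⁻¹ * a * b) x)).re =
      (inner ℂ (lm G a x) (ad G b (lm G a x))).re := by
  rw [← dmb_re_inv (ad G) b, dmb_ad_lm hx, av_inner_rho (lm G) a x]
  have h1 : a⁻¹ * b⁻¹ * a * b = a⁻¹ * (b⁻¹ * a * b⁻¹⁻¹) := by group
  rw [h1, map_mul]
  rfl

private theorem dmb_phi2 {G : Type} [Group G] [Fintype G] {x : EuclideanSpace ℂ (G × G)}
    (hx : ∀ h, ad G h x = x) (a b : G) :
    (inner ℂ x (lm G (a⁻¹ * b⁻¹ * a * b) x)).re =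
      (inner ℂ (lm G b x) (ad G a (lm G b x))).re := by
  rw [dmb_ad_lm hx, av_inner_rho (lm G) b x, ← dmb_conj hx a (a⁻¹ * b⁻¹ * a * b)]
  have h1 : a * (a⁻¹ * b⁻¹ * a * b) * a⁻¹ = b⁻¹ * (a * b * a⁻¹) := by group
  rw [h1, map_mul]
  rfl

private theorem dmb_inner {G : Type} [Group G] [Fintype G] (x : EuclideanSpace ℂ (G × G))
    (c : G) : inner ℂ x (lm G c x) =
      ∑ w, ip (fun u => x (u, w)) (rt c (fun u => x (u, w))) := by
  rw [PiLp.inner_apply, Fintype.sum_prod_type_right]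
  refine Finset.sum_congr rfl (fun w _ => Finset.sum_congr rfl (fun u _ => ?_))
  rw [lm_apply, RCLike.inner_apply]
  exact mul_comm _ _

private theorem dmb_comm {G : Type} [Group G] [Fintype G] (hG : commutator G = ⊤)
    (x : EuclideanSpace ℂ (G × G)) (h0 : ∀ b, ∑ a, x (a, b) = 0) :
    ∑ g, ∑ h, (inner ℂ x (lm G (h⁻¹ * g⁻¹ * h * g) x)).re ≤
      1 / 4 * (Fintype.card G : ℝ) ^ 2 * ‖x‖ ^ 2 := by
  have e1 : ∑ g, ∑ h, (inner ℂ x (lm G (h⁻¹ * g⁻¹ * h * g) x)).re =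
      ∑ w, (∑ s : G, ∑ t : G, ip (fun u => x (u, w))
        (rt (s * t * s⁻¹ * t⁻¹) (fun u => x (u, w)))).re := by
    have e2 : ∑ g, ∑ h, (inner ℂ x (lm G (h⁻¹ * g⁻¹ * h * g) x)).re =
        ∑ s : G, ∑ t : G, (inner ℂ x (lm G (s * t * s⁻¹ * t⁻¹) x)).re := by
      rw [Finset.sum_comm]
      refine Fintype.sum_equiv (Equiv.inv G) _ _ (fun h => ?_)
      refine Fintype.sum_equiv (Equiv.inv G) _ _ (fun g => ?_)
      simp
    rw [e2]
    simp_rw [dmb_inner, Complex.re_sum]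
    rw [Finset.sum_comm_cycle]
  have e3 : ‖x‖ ^ 2 = ∑ w, sq (fun u => x (u, w)) := by
    rw [EuclideanSpace.norm_sq_eq, Fintype.sum_prod_type_right]
    rfl
  rw [e1, e3, Finset.mul_sum]
  exact Finset.sum_le_sum (fun w _ => comm_bound hG (fun u => x (u, w)) (h0 w))

/-- Commutators of the elements of a list, in an `ad`-invariant vector with columns of sum zero.

Proof. Let `F c = inner ℂ x (lm G c x)`, `X a = lm G a x` and
`Φ a b = F (a⁻¹ * b⁻¹ * a * b)`. Since `ad G h = lm G h` composed with the translation of the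
second index and `ad G h x = x`: `ad G h (lm G a x) = lm G (h * a * h⁻¹) x` (evaluate at a point:
`(ad G h (lm G a x)) (u, w) = x (u h a, w h)` and `x (u h a, w h) = x (u h a h⁻¹, w)` by
invariance). In the same way `F (g c g⁻¹) = F c`. Hence
`Φ a b = inner ℂ (X a) (ad G b⁻¹ (X a))` (`lm G a⁻¹` is unitary) and
`Φ a b = inner ℂ (X b) (ad G a (X b))` (`F (b⁻¹ a b a⁻¹) = F (a⁻¹ b⁻¹ a b)`).
By `mix_re` for `ad G` (for the list of the inverses use
`re ⟨X, ad b⁻¹ X⟩ = re ⟨X, ad b X⟩`), for every `i`: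
`∑ j, re Φ (y i) (y j) ≤ n * ((card G)⁻¹ * ∑ g, re Φ (y i) g + η ‖x‖ ^ 2)`, `n = card J`; sum over
`i` and use `mix_re` again for every `g`:
`∑ i, re Φ (y i) g ≤ n * ((card G)⁻¹ * ∑ h, re Φ h g + η ‖x‖ ^ 2)`. Finally
`∑ g, ∑ h, re Φ h g ≤ (1/4) (card G) ^ 2 ‖x‖ ^ 2` by `comm_bound` (file `MP_fe8e9b_al/Comm.lean`)
for the columns `f u = x (u, w)`, summed over `w`
(`s = h⁻¹`, `t = g⁻¹`: `s t s⁻¹ t⁻¹ = h⁻¹ g⁻¹ h g`, `ip f (rt c f) = ∑ u, conj (f u) * f (u c)`). -/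
theorem inv_comm {G : Type} [Group G] [Fintype G] (hG : commutator G = ⊤) {J : Type} [Fintype J]
    [Nonempty J] {y : J → G} {η : ℝ} (hη : 0 ≤ η) (hy : Mix y η) (x : EuclideanSpace ℂ (G × G))
    (hx : ∀ h, ad G h x = x) (h0 : ∀ b, ∑ a, x (a, b) = 0) :
    ∑ i, ∑ j, (inner ℂ x (lm G ((y i)⁻¹ * (y j)⁻¹ * y i * y j) x)).re ≤
      (1 / 4 + 2 * η) * (Fintype.card J : ℝ) ^ 2 * ‖x‖ ^ 2 := by
  have hn0 : (0 : ℝ) < (Fintype.card J : ℝ) := by exact_mod_cast Fintype.card_pos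
  have hc0 : (0 : ℝ) < (Fintype.card G : ℝ) := by exact_mod_cast Fintype.card_pos
  set n : ℝ := (Fintype.card J : ℝ) with hn
  set c : ℝ := (Fintype.card G : ℝ) with hc
  let P : G → G → ℝ := fun a b => (inner ℂ x (lm G (a⁻¹ * b⁻¹ * a * b) x)).re
  have m1 : ∀ a, ∑ j, P a (y j) ≤ n * (c⁻¹ * (∑ g, P a g) + η * ‖x‖ ^ 2) := by
    intro a
    have h := mix_re hη hy (ad G) (lm G a x)
    rw [LinearIsometryEquiv.norm_map] at h
    simp_rw [← dmb_phi1 hx] at h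
    exact h
  have m2 : ∀ g, ∑ i, P (y i) g ≤ n * (c⁻¹ * (∑ h, P h g) + η * ‖x‖ ^ 2) := by
    intro g
    have h := mix_re hη hy (ad G) (lm G g x)
    rw [LinearIsometryEquiv.norm_map] at h
    simp_rw [← dmb_phi2 hx] at h
    exact h
  have m3 : ∑ g, ∑ h, P h g ≤ 1 / 4 * c ^ 2 * ‖x‖ ^ 2 := dmb_comm hG x h0
  have k1 : ∑ i, ∑ j, P (y i) (y j) ≤
      n * (c⁻¹ * (∑ g, ∑ i, P (y i) g) + n * (η * ‖x‖ ^ 2)) := by
    refine (Finset.sum_le_sum (fun i _ => m1 (y i))).trans (le_of_eq ?_)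
    rw [← Finset.mul_sum, Finset.sum_add_distrib, ← Finset.mul_sum, Finset.sum_const,
      Finset.card_univ, nsmul_eq_mul, Finset.sum_comm]
  have k2 : ∑ g, ∑ i, P (y i) g ≤
      n * (c⁻¹ * (∑ g, ∑ h, P h g) + c * (η * ‖x‖ ^ 2)) := by
    refine (Finset.sum_le_sum (fun g _ => m2 g)).trans (le_of_eq ?_)
    rw [← Finset.mul_sum, Finset.sum_add_distrib, ← Finset.mul_sum, Finset.sum_const,
      Finset.card_univ, nsmul_eq_mul]
  have hci : 0 < c⁻¹ := inv_pos.2 hc0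
  have k3 : ∑ g, ∑ i, P (y i) g ≤ n * (c * ((1 / 4 + η) * ‖x‖ ^ 2)) := by
    refine k2.trans (mul_le_mul_of_nonneg_left ?_ hn0.le)
    have h := mul_le_mul_of_nonneg_left m3 hci.le
    have e : c⁻¹ * (1 / 4 * c ^ 2 * ‖x‖ ^ 2) = 1 / 4 * c * ‖x‖ ^ 2 := by
      field_simp
    rw [e] at h
    linarith
  refine k1.trans ?_
  have h := mul_le_mul_of_nonneg_left k3 hci.le
  have e : c⁻¹ * (n * (c * ((1 / 4 + η) * ‖x‖ ^ 2))) = n * ((1 / 4 + η) * ‖x‖ ^ 2) := by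
    field_simp
  rw [e] at h
  calc n * (c⁻¹ * (∑ g, ∑ i, P (y i) g) + n * (η * ‖x‖ ^ 2))
      ≤ n * (n * ((1 / 4 + η) * ‖x‖ ^ 2) + n * (η * ‖x‖ ^ 2)) := by
        refine mul_le_mul_of_nonneg_left ?_ hn0.le
        linarith
    _ = (1 / 4 + 2 * η) * n ^ 2 * ‖x‖ ^ 2 := by ring

end Pool.Agent.MPfe8e9bW
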