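import Mathlib
import Pool.Agent.Lib.MP_fe8e9b_al_W.Defs

/-!
# MP_fe8e9b_al, wreath towers: almost commuting elements
-/

set_option autoImplicit false

open scoped BigOperators

namespace Pool.Agent.MPfe8e9bW

/-- Almost commuting elements.

Proof. Let `a i = ‖ρ (y i) v - R i v‖`, `b j = ‖ρ (y j) v - R' j v‖`. Then
`‖ρ (y i) (ρ (y j) v) - R' j (R i v)‖ ≤ b j + a i` (replace `ρ (y j) v` by `R' j v`, commute,
replace `ρ (y i) v` by `R i v`) and `‖ρ (y j) (ρ (y i) v) - R i (R' j v)‖ ≤ a i + b j`. So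
`‖ρ (y i * y j) v - ρ (y j * y i) v‖ ^ 2 ≤ (2 a i + 2 b j) ^ 2 ≤ 8 (a i) ^ 2 + 8 (b j) ^ 2`, and
`re ⟨v, ρ (y i⁻¹ * y j⁻¹ * y i * y j) v⟩ = re ⟨ρ (y j * y i) v, ρ (y i * y j) v⟩ =
‖v‖ ^ 2 - (1/2) ‖ρ (y i * y j) v - ρ (y j * y i) v‖ ^ 2`. Sum over `i` and `j`. -/
theorem dm_comm {G : Type} [Group G] {J : Type} [Fintype J] (y : J → G)
    {V : Type} [NormedAddCommGroup V] [InnerProductSpace ℂ V]
    (ρ : G →* (V ≃ₗᵢ[ℂ] V)) (R R' : J → (V ≃ₗᵢ[ℂ] V))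
    (hR : ∀ j g u, R j (ρ g u) = ρ g (R j u)) (hR' : ∀ j g u, R' j (ρ g u) = ρ g (R' j u))
    (hRR : ∀ i j u, R i (R' j u) = R' j (R i u)) (v : V)
    (h1 : ∑ j, ‖ρ (y j) v - R j v‖ ^ 2 ≤ (Fintype.card J : ℝ) * ‖v‖ ^ 2 / 1024)
    (h2 : ∑ j, ‖ρ (y j) v - R' j v‖ ^ 2 ≤ (Fintype.card J : ℝ) * ‖v‖ ^ 2 / 1024) :
    (1 - 1 / 128) * (Fintype.card J : ℝ) ^ 2 * ‖v‖ ^ 2 ≤
      ∑ i, ∑ j, (inner ℂ v (ρ ((y i)⁻¹ * (y j)⁻¹ * y i * y j) v)).re := by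
  have hmul : ∀ g h u, ρ (g * h) u = ρ g (ρ h u) := fun g h u => by
    rw [map_mul]
    rfl
  have key : ∀ i j : J, ‖v‖ ^ 2 - 4 * ‖ρ (y i) v - R i v‖ ^ 2 - 4 * ‖ρ (y j) v - R' j v‖ ^ 2 ≤
      (inner ℂ v (ρ ((y i)⁻¹ * (y j)⁻¹ * y i * y j) v)).re := by
    intro i j
    set a := ‖ρ (y i) v - R i v‖ with ha
    set b := ‖ρ (y j) v - R' j v‖ with hb
    have e1 : ‖ρ (y i) (ρ (y j) v) - R' j (R i v)‖ ≤ a + b := by
      have : ρ (y i) (ρ (y j) v) - R' j (R i v) =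
          ρ (y i) (ρ (y j) v - R' j v) + R' j (ρ (y i) v - R i v) := by
        rw [map_sub, map_sub, hR']
        abel
      rw [this]
      refine (norm_add_le _ _).trans ?_
      rw [LinearIsometryEquiv.norm_map, LinearIsometryEquiv.norm_map, add_comm]
    have e2 : ‖ρ (y j) (ρ (y i) v) - R' j (R i v)‖ ≤ a + b := by
      have : ρ (y j) (ρ (y i) v) - R' j (R i v) =
          ρ (y j) (ρ (y i) v - R i v) + R i (ρ (y j) v - R' j v) := by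
        rw [map_sub, map_sub, hR, hRR]
        abel
      rw [this]
      refine (norm_add_le _ _).trans ?_
      rw [LinearIsometryEquiv.norm_map, LinearIsometryEquiv.norm_map]
    have e3 : ‖ρ (y j) (ρ (y i) v) - ρ (y i) (ρ (y j) v)‖ ≤ 2 * (a + b) := by
      have : ρ (y j) (ρ (y i) v) - ρ (y i) (ρ (y j) v) =
          (ρ (y j) (ρ (y i) v) - R' j (R i v)) - (ρ (y i) (ρ (y j) v) - R' j (R i v)) := by
        abel
      rw [this]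
      refine (norm_sub_le _ _).trans ?_
      linarith
    have e4 : ‖ρ (y j) (ρ (y i) v) - ρ (y i) (ρ (y j) v)‖ ^ 2 ≤ 8 * a ^ 2 + 8 * b ^ 2 := by
      have h0 := norm_nonneg (ρ (y j) (ρ (y i) v) - ρ (y i) (ρ (y j) v))
      have h3 : ‖ρ (y j) (ρ (y i) v) - ρ (y i) (ρ (y j) v)‖ ^ 2 ≤ (2 * (a + b)) ^ 2 :=
        pow_le_pow_left₀ h0 e3 2
      nlinarith [sq_nonneg (a - b)]
    have e5 := @norm_sub_sq ℂ V _ _ _ (ρ (y j) (ρ (y i) v)) (ρ (y i) (ρ (y j) v))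
    rw [LinearIsometryEquiv.norm_map, LinearIsometryEquiv.norm_map,
      LinearIsometryEquiv.norm_map, LinearIsometryEquiv.norm_map] at e5
    have e6 : inner ℂ (ρ (y j) (ρ (y i) v)) (ρ (y i) (ρ (y j) v)) =
        inner ℂ v (ρ ((y i)⁻¹ * (y j)⁻¹ * y i * y j) v) := by
      have h3 : ρ (y i) (ρ (y j) v) =
          ρ (y j) (ρ (y i) (ρ ((y i)⁻¹ * (y j)⁻¹ * y i * y j) v)) := by
        rw [← hmul, ← hmul, ← hmul]
        congr 2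
        group
      rw [h3, LinearIsometryEquiv.inner_map_map, LinearIsometryEquiv.inner_map_map]
    rw [e6] at e5
    have e7 : RCLike.re (inner ℂ v (ρ ((y i)⁻¹ * (y j)⁻¹ * y i * y j) v)) =
        (inner ℂ v (ρ ((y i)⁻¹ * (y j)⁻¹ * y i * y j) v)).re := rfl
    rw [e7] at e5
    nlinarith
  have h3 : ∑ i : J, ∑ j : J, (‖v‖ ^ 2 - 4 * ‖ρ (y i) v - R i v‖ ^ 2 -
      4 * ‖ρ (y j) v - R' j v‖ ^ 2) ≤
      ∑ i, ∑ j, (inner ℂ v (ρ ((y i)⁻¹ * (y j)⁻¹ * y i * y j) v)).re :=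
    Finset.sum_le_sum fun i _ => Finset.sum_le_sum fun j _ => key i j
  refine le_trans ?_ h3
  have h4 : ∑ i : J, ∑ j : J, (‖v‖ ^ 2 - 4 * ‖ρ (y i) v - R i v‖ ^ 2 -
      4 * ‖ρ (y j) v - R' j v‖ ^ 2) = (Fintype.card J : ℝ) ^ 2 * ‖v‖ ^ 2 -
      4 * ((Fintype.card J : ℝ) * ∑ j, ‖ρ (y j) v - R j v‖ ^ 2) -
      4 * ((Fintype.card J : ℝ) * ∑ j, ‖ρ (y j) v - R' j v‖ ^ 2) := by
    simp only [Finset.sum_sub_distrib, Finset.sum_const, Finset.card_univ, nsmul_eq_mul,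
      ← Finset.mul_sum]
    ring
  rw [h4]
  have hN : (0 : ℝ) ≤ Fintype.card J := Nat.cast_nonneg _
  have h5 := mul_le_mul_of_nonneg_left h1 hN
  have h6 := mul_le_mul_of_nonneg_left h2 hN
  nlinarith

end Pool.Agent.MPfe8e9bW
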