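import Mathlib
import Pool.Agent.Lib.MP_fe8e9b_al_W.Defs
import Pool.Agent.Lib.MP_fe8e9b_al_W.Fr
import Pool.Agent.Lib.MP_fe8e9b_al_W.DMa
import Pool.Agent.Lib.MP_fe8e9b_al_W.DMb
import Pool.Agent.Lib.MP_fe8e9b_al_W.DMc

/-!
# MP_fe8e9b_al, wreath towers: the key lemma
-/

set_option autoImplicit false

open scoped BigOperators

namespace Pool.Agent.MPfe8e9bW

open Pool.Agent.MPfe8e9b Pool.Agent.MPfe8e9bA

theorem dm_cs {J : Type} [Fintype J] (f : J → ℝ) :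
    (∑ j, f j) ^ 2 ≤ (Fintype.card J : ℝ) * ∑ j, f j ^ 2 := by
  have h := sq_sum_le_card_mul_sum_sq (s := (Finset.univ : Finset J)) (f := f)
  simpa using h

theorem dm_av_norm {H : Type} [Group H] [Fintype H] {V : Type} [NormedAddCommGroup V]
    [InnerProductSpace ℂ V] (ρ : H →* (V ≃ₗᵢ[ℂ] V)) (x : V) : ‖av ρ x‖ ≤ ‖x‖ := by
  have hc : (0 : ℝ) < (Fintype.card H : ℝ) := by exact_mod_cast Fintype.card_pos
  rw [av_apply, norm_smul, norm_inv, Complex.norm_natCast]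
  have h1 : ‖∑ h, ρ h x‖ ≤ (Fintype.card H : ℝ) * ‖x‖ := by
    calc ‖∑ h, ρ h x‖ ≤ ∑ h : H, ‖ρ h x‖ := norm_sum_le _ _
      _ = ∑ _h : H, ‖x‖ := Finset.sum_congr rfl fun h _ => (ρ h).norm_map x
      _ = (Fintype.card H : ℝ) * ‖x‖ := by
        rw [Finset.sum_const, Finset.card_univ, nsmul_eq_mul]
  calc ((Fintype.card H : ℝ))⁻¹ * ‖∑ h, ρ h x‖
      ≤ ((Fintype.card H : ℝ))⁻¹ * ((Fintype.card H : ℝ) * ‖x‖) :=
        mul_le_mul_of_nonneg_left h1 (inv_nonneg.2 hc.le)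
    _ = ‖x‖ := by rw [← mul_assoc, inv_mul_cancel₀ hc.ne', one_mul]

theorem dm_cols {G : Type} [Group G] [Fintype G] (x : EuclideanSpace ℂ (G × G))
    (h0 : ∀ b, ∑ a, x (a, b) = 0) (b : G) : ∑ a, (av (ad G) x) (a, b) = 0 := by
  have h1 : ∀ a, (av (ad G) x) (a, b) =
      ((Fintype.card G : ℂ))⁻¹ * ∑ h : G, x (a * h, b * h) := by
    intro a
    rw [av_apply, PiLp.smul_apply, smul_eq_mul]
    congr 1
    rw [show (∑ h, (ad G) h x) (a, b) = ∑ h, ((ad G) h x) (a, b) from by simp]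
    exact Finset.sum_congr rfl fun h _ => ad_apply G h x a b
  rw [Finset.sum_congr rfl fun a _ => h1 a, ← Finset.mul_sum, Finset.sum_comm]
  have h2 : ∀ h : G, ∑ a : G, x (a * h, b * h) = 0 := by
    intro h
    rw [← h0 (b * h)]
    exact Fintype.sum_equiv (Equiv.mulRight h) _ _ fun a => rfl
  rw [Finset.sum_congr rfl fun h _ => h2 h]
  simp

theorem dm_near {V : Type} [NormedAddCommGroup V] [InnerProductSpace ℂ V] (U : V ≃ₗᵢ[ℂ] V)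
    (x x₀ : V) (h : ‖x₀‖ ≤ ‖x‖) :
    (inner ℂ x (U x)).re ≤ (inner ℂ x₀ (U x₀)).re + 2 * ‖x‖ * ‖x - x₀‖ := by
  have h1 : inner ℂ x (U x) = inner ℂ x₀ (U x₀) + inner ℂ (x - x₀) (U x) +
      inner ℂ x₀ (U (x - x₀)) := by
    rw [map_sub, inner_sub_left, inner_sub_right]
    ring
  rw [h1, Complex.add_re, Complex.add_re]
  have h2 : (inner ℂ (x - x₀) (U x)).re ≤ ‖x - x₀‖ * ‖x‖ := by
    have := re_inner_le_norm (𝕜 := ℂ) (x - x₀) (U x)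
    rw [(U).norm_map] at this
    exact this
  have h3 : (inner ℂ x₀ (U (x - x₀))).re ≤ ‖x₀‖ * ‖x - x₀‖ := by
    have := re_inner_le_norm (𝕜 := ℂ) x₀ (U (x - x₀))
    rw [(U).norm_map] at this
    exact this
  nlinarith [norm_nonneg (x - x₀)]

/-- The key lemma.

Proof. Suppose `v ≠ 0`; let `x` be as in `dm_vec` and `x₀ = av (ad G) x`; the columns of `x₀` have
sum zero, `ad G h x₀ = x₀` (`rho_av`), `‖x₀‖ ≤ ‖x‖ = ‖v‖`. With `z = x - x₀`, `av (ad G) z = 0`,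
`ad G (y j) z - z = ad G (y j) x - x`, so by `Mix` (`η = 1/100`, `n = card J`)
`‖z‖ ≤ (1/100) ‖z‖ + (1/n) ∑ j, ‖ad G (y j) x - x‖` and
`(1/n) ∑ j, ‖ad G (y j) x - x‖ ≤ ((1/n) ∑ j, ‖ad G (y j) x - x‖ ^ 2) ^ (1/2) ≤
((1/n) ∑ j, 2 ‖v‖ ‖ρ (y j) v - R j v‖) ^ (1/2) ≤ (2 ‖v‖ * ‖v‖ / 32) ^ (1/2) = ‖v‖ / 4`, hence
`‖z‖ ≤ (25/99) ‖v‖`. For every `c`: `re ⟨x, lm c x⟩ ≤ re ⟨x₀, lm c x₀⟩ + 2 ‖v‖ ‖z‖`. By `dm_comm`,
the formula `inner ℂ x (lm G c x) = inner ℂ v (ρ c v)` and `inv_comm` for `x₀`: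
`(1 - 1/128) n ^ 2 ‖v‖ ^ 2 ≤ (1/4 + 2/100) n ^ 2 ‖v‖ ^ 2 + 2 (25/99) n ^ 2 ‖v‖ ^ 2`, a
contradiction. -/
theorem dm {G : Type} [Group G] [Fintype G] (hG : commutator G = ⊤) {J : Type} [Fintype J]
    [Nonempty J] {y : J → G} (hy : Mix y (1 / 100))
    {V : Type} [NormedAddCommGroup V] [InnerProductSpace ℂ V] [FiniteDimensional ℂ V]
    (ρ : G →* (V ≃ₗᵢ[ℂ] V)) (R R' : J → (V ≃ₗᵢ[ℂ] V))
    (hR : ∀ j g u, R j (ρ g u) = ρ g (R j u)) (hR' : ∀ j g u, R' j (ρ g u) = ρ g (R' j u))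
    (hRR : ∀ i j u, R i (R' j u) = R' j (R i u)) (v : V) (hv : av ρ v = 0)
    (h1 : ∑ j, ‖ρ (y j) v - R j v‖ ^ 2 ≤ (Fintype.card J : ℝ) * ‖v‖ ^ 2 / 1024)
    (h2 : ∑ j, ‖ρ (y j) v - R' j v‖ ^ 2 ≤ (Fintype.card J : ℝ) * ‖v‖ ^ 2 / 1024) : v = 0 := by
  by_contra hv0
  have hvp : 0 < ‖v‖ := norm_pos_iff.2 hv0
  obtain ⟨x, hx1, hx2, hx3, hx4⟩ := dm_vec ρ v
  have hn : (0 : ℝ) < (Fintype.card J : ℝ) := by exact_mod_cast Fintype.card_pos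
  set n : ℝ := (Fintype.card J : ℝ) with hnd
  set x₀ := av (ad G) x with hx0
  have hfix : ∀ h, ad G h x₀ = x₀ := fun h => rho_av (ad G) h x
  have hx0n : ‖x₀‖ ≤ ‖x‖ := dm_av_norm (ad G) x
  have hz : av (ad G) (x - x₀) = 0 := by
    rw [map_sub, hx0, av_idem, sub_self]
  have hmix := hy (EuclideanSpace ℂ (G × G)) (ad G) (x - x₀) hz
  -- the displacement
  have hA : ∑ j, ‖ρ (y j) v - R j v‖ ≤ n * ‖v‖ / 32 := by
    have h := dm_cs fun j => ‖ρ (y j) v - R j v‖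
    have h' : (∑ j, ‖ρ (y j) v - R j v‖) ^ 2 ≤ (n * ‖v‖ / 32) ^ 2 := by
      calc (∑ j, ‖ρ (y j) v - R j v‖) ^ 2 ≤ n * ∑ j, ‖ρ (y j) v - R j v‖ ^ 2 := h
        _ ≤ n * (n * ‖v‖ ^ 2 / 1024) := mul_le_mul_of_nonneg_left h1 hn.le
        _ = (n * ‖v‖ / 32) ^ 2 := by ring
    exact (abs_le_of_sq_le_sq' h' (by positivity)).2
  have hB : ∑ j, ‖ad G (y j) x - x‖ ≤ n * ‖v‖ / 4 := by
    have h := dm_cs fun j => ‖ad G (y j) x - x‖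
    have h' : (∑ j, ‖ad G (y j) x - x‖) ^ 2 ≤ (n * ‖v‖ / 4) ^ 2 := by
      calc (∑ j, ‖ad G (y j) x - x‖) ^ 2 ≤ n * ∑ j, ‖ad G (y j) x - x‖ ^ 2 := h
        _ ≤ n * ∑ j, 2 * ‖v‖ * ‖ρ (y j) v - R j v‖ := by
          refine mul_le_mul_of_nonneg_left (Finset.sum_le_sum fun j _ => ?_) hn.le
          exact hx3 (y j) (R j) (hR j)
        _ = n * (2 * ‖v‖) * ∑ j, ‖ρ (y j) v - R j v‖ := by
          rw [← Finset.mul_sum]
          ring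
        _ ≤ n * (2 * ‖v‖) * (n * ‖v‖ / 32) :=
          mul_le_mul_of_nonneg_left hA (by positivity)
        _ = (n * ‖v‖ / 4) ^ 2 := by ring
    exact (abs_le_of_sq_le_sq' h' (by positivity)).2
  have hzn : ‖x - x₀‖ ≤ 25 / 99 * ‖v‖ := by
    have hnC : (Fintype.card J : ℂ) ≠ 0 := by
      have : (Fintype.card J : ℕ) ≠ 0 := Fintype.card_ne_zero
      exact_mod_cast this
    have e1 : x - x₀ = ((Fintype.card J : ℂ))⁻¹ • (∑ j, ad G (y j) (x - x₀)) -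
        ((Fintype.card J : ℂ))⁻¹ • ∑ j, (ad G (y j) x - x) := by
      rw [← smul_sub, ← Finset.sum_sub_distrib]
      have e2 : ∀ j, ad G (y j) (x - x₀) - (ad G (y j) x - x) = x - x₀ := by
        intro j
        rw [map_sub, hfix]
        abel
      rw [Finset.sum_congr rfl fun j _ => e2 j, Finset.sum_const, Finset.card_univ,
        ← Nat.cast_smul_eq_nsmul ℂ, smul_smul, inv_mul_cancel₀ hnC, one_smul]
    have e3 : ‖((Fintype.card J : ℂ))⁻¹ • ∑ j, (ad G (y j) x - x)‖ ≤ ‖v‖ / 4 := by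
      rw [norm_smul, norm_inv, Complex.norm_natCast]
      have e4 : ‖∑ j, (ad G (y j) x - x)‖ ≤ n * ‖v‖ / 4 := le_trans (norm_sum_le _ _) hB
      calc (n)⁻¹ * ‖∑ j, (ad G (y j) x - x)‖ ≤ n⁻¹ * (n * ‖v‖ / 4) :=
            mul_le_mul_of_nonneg_left e4 (inv_nonneg.2 hn.le)
        _ = ‖v‖ / 4 := by
          field_simp
    have e5 : ‖x - x₀‖ ≤ 1 / 100 * ‖x - x₀‖ + ‖v‖ / 4 := by
      calc ‖x - x₀‖ = ‖((Fintype.card J : ℂ))⁻¹ • (∑ j, ad G (y j) (x - x₀)) -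
            ((Fintype.card J : ℂ))⁻¹ • ∑ j, (ad G (y j) x - x)‖ := by rw [← e1]
        _ ≤ _ := le_trans (norm_sub_le _ _) (add_le_add hmix e3)
    linarith
  have hcom := dm_comm y ρ R R' hR hR' hRR v h1 h2
  have hinv := inv_comm hG (by norm_num : (0 : ℝ) ≤ 1 / 100) hy x₀ hfix (dm_cols x (hx4 hv))
  have hsum : ∑ i, ∑ j, (inner ℂ v (ρ ((y i)⁻¹ * (y j)⁻¹ * y i * y j) v)).re ≤
      (∑ i, ∑ j, (inner ℂ x₀ (lm G ((y i)⁻¹ * (y j)⁻¹ * y i * y j) x₀)).re) +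
        n ^ 2 * (2 * ‖v‖ * ‖x - x₀‖) := by
    have e1 : ∀ i j, (inner ℂ v (ρ ((y i)⁻¹ * (y j)⁻¹ * y i * y j) v)).re ≤
        (inner ℂ x₀ (lm G ((y i)⁻¹ * (y j)⁻¹ * y i * y j) x₀)).re +
          2 * ‖v‖ * ‖x - x₀‖ := by
      intro i j
      rw [← hx2, ← hx1]
      exact dm_near _ x x₀ hx0n
    calc ∑ i, ∑ j, (inner ℂ v (ρ ((y i)⁻¹ * (y j)⁻¹ * y i * y j) v)).re
        ≤ ∑ i : J, ∑ j : J, ((inner ℂ x₀ (lm G ((y i)⁻¹ * (y j)⁻¹ * y i * y j) x₀)).re +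
          2 * ‖v‖ * ‖x - x₀‖) :=
          Finset.sum_le_sum fun i _ => Finset.sum_le_sum fun j _ => e1 i j
      _ = _ := by
        simp only [Finset.sum_add_distrib, Finset.sum_const, Finset.card_univ, nsmul_eq_mul]
        rw [hnd]
        ring
  have hn2 : 0 < n ^ 2 := by positivity
  have hx0v : ‖x₀‖ ^ 2 ≤ ‖v‖ ^ 2 := by
    rw [← hx1]
    exact pow_le_pow_left₀ (norm_nonneg _) hx0n 2
  have hfin : (1 - 1 / 128) * n ^ 2 * ‖v‖ ^ 2 ≤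
      (1 / 4 + 2 * (1 / 100)) * n ^ 2 * ‖v‖ ^ 2 + n ^ 2 * (2 * ‖v‖ * (25 / 99 * ‖v‖)) := by
    refine le_trans hcom (le_trans hsum (add_le_add (le_trans hinv ?_) ?_))
    · exact mul_le_mul_of_nonneg_left hx0v (by positivity)
    · refine mul_le_mul_of_nonneg_left ?_ hn2.le
      exact mul_le_mul_of_nonneg_left hzn (by positivity)
  have hpos : 0 < n ^ 2 * ‖v‖ ^ 2 := by positivity
  nlinarith

end Pool.Agent.MPfe8e9bW
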