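import Mathlib
import Pool.Agent.Lib.MP_fe8e9b_al_W.Defs

/-!
# MP_fe8e9b_al, wreath towers: operations with lists
-/

set_option autoImplicit false

open scoped BigOperators

namespace Pool.Agent.MPfe8e9bW

open Pool.Agent.MPfe8e9b Pool.Agent.MPfe8e9bA

theorem mixops_av_rho {H : Type} [Group H] [Fintype H] {V : Type} [NormedAddCommGroup V]
    [InnerProductSpace ℂ V] (ρ : H →* (V ≃ₗᵢ[ℂ] V)) (g : H) (v : V) :
    av ρ (ρ g v) = av ρ v := by
  rw [av_apply, av_apply]
  congr 1
  exact Fintype.sum_equiv (Equiv.mulRight g) _ _ (fun x => by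
    simp only [Equiv.coe_mulRight, map_mul]
    rfl)

theorem Mix.mono {G : Type} [Group G] [Fintype G] {J : Type} [Fintype J] {y : J → G} {η η' : ℝ}
    (h : Mix y η) (hη : η ≤ η') : Mix y η' := by
  intro V _ _ _ ρ v hv
  exact (h V ρ v hv).trans (mul_le_mul_of_nonneg_right hη (norm_nonneg v))

/-- The number of indices may be replaced by the type `Fin q`.

Proof. `Fintype.equivFin`, `Fintype.sum_equiv`. -/
theorem Mix.fin {G : Type} [Group G] [Fintype G] {J : Type} [Fintype J] {y : J → G} {η : ℝ}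
    (h : Mix y η) : ∃ z : Fin (Fintype.card J) → G, Mix z η := by
  refine ⟨fun k => y ((Fintype.equivFin J).symm k), ?_⟩
  intro V _ _ _ ρ v hv
  have h1 := h V ρ v hv
  have h2 : (∑ k : Fin (Fintype.card J), ρ (y ((Fintype.equivFin J).symm k)) v)
      = ∑ j, ρ (y j) v :=
    Fintype.sum_equiv (Fintype.equivFin J).symm _ _ (fun k => rfl)
  rw [h2, Fintype.card_fin]
  exact h1

/-- Repetition of a list. -/
theorem Mix.rep {G : Type} [Group G] [Fintype G] {J L : Type} [Fintype J] [Fintype L] [Nonempty L]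
    {y : J → G} {η : ℝ} (h : Mix y η) : Mix (fun p : J × L => y p.1) η := by
  intro V _ _ _ ρ v hv
  have h1 := h V ρ v hv
  have hL : (Fintype.card L : ℂ) ≠ 0 := by
    exact_mod_cast Fintype.card_ne_zero
  have h2 : (∑ p : J × L, ρ (y p.1) v) = (Fintype.card L : ℂ) • ∑ j, ρ (y j) v := by
    rw [Fintype.sum_prod_type, Finset.smul_sum]
    refine Finset.sum_congr rfl (fun j _ => ?_)
    change (∑ _l : L, ρ (y j) v) = _
    rw [Finset.sum_const, Finset.card_univ, ← Nat.cast_smul_eq_nsmul ℂ]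
  rw [h2, Fintype.card_prod, smul_smul, Nat.cast_mul, mul_inv, mul_assoc,
    inv_mul_cancel₀ hL, mul_one]
  exact h1

/-- Products of two lists.

Proof. The average of `ρ (y j * z l) v` is `A_y (A_z v)` where `A_y`, `A_z` denote the averages
over the lists, and the average over the group of `A_z v` is zero
(`av ρ (ρ g v) = av ρ v`, translate the sum). -/
theorem Mix.mul {G : Type} [Group G] [Fintype G] {J L : Type} [Fintype J] [Fintype L]
    {y : J → G} {z : L → G} {η η' : ℝ} (hη : 0 ≤ η) (h : Mix y η) (h' : Mix z η') :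
    Mix (fun p : J × L => y p.1 * z p.2) (η * η') := by
  intro V _ _ _ ρ v hv
  have h1 := h' V ρ v hv
  set w : V := ((Fintype.card L : ℂ))⁻¹ • ∑ l, ρ (z l) v with hw
  have hw0 : av ρ w = 0 := by
    rw [hw, map_smul, map_sum]
    rw [Finset.sum_eq_zero (fun l _ => ?_), smul_zero]
    rw [mixops_av_rho, hv]
  have h2 := h V ρ w hw0
  have h3 : ((Fintype.card (J × L) : ℂ))⁻¹ • ∑ p : J × L, ρ (y p.1 * z p.2) v
      = ((Fintype.card J : ℂ))⁻¹ • ∑ j, ρ (y j) w := by
    rw [Fintype.sum_prod_type, Fintype.card_prod, Nat.cast_mul, mul_inv, ← smul_smul,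
      Finset.smul_sum]
    congr 1
    refine Finset.sum_congr rfl (fun j _ => ?_)
    rw [hw, map_smul, map_sum]
    congr 1
    refine Finset.sum_congr rfl (fun l _ => ?_)
    rw [map_mul]
    rfl
  rw [h3]
  calc ‖((Fintype.card J : ℂ))⁻¹ • ∑ j, ρ (y j) w‖ ≤ η * ‖w‖ := h2
    _ ≤ η * (η' * ‖v‖) := mul_le_mul_of_nonneg_left h1 hη
    _ = η * η' * ‖v‖ := by ring

/-- Powers of a list.

Proof. Induction on `n` with `Mix.mul`; for `n = 0` take `J' = Unit` and the element `1`. -/
theorem Mix.pow {G : Type} [Group G] [Fintype G] {J : Type} [Fintype J]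
    {y : J → G} {η : ℝ} (hη : 0 ≤ η) (h : Mix y η) (n : ℕ) :
    ∃ (J' : Type) (_ : Fintype J') (z : J' → G), Fintype.card J' = Fintype.card J ^ n ∧
      Mix z (η ^ n) := by
  induction n with
  | zero =>
    refine ⟨Unit, inferInstance, fun _ => 1, by simp, ?_⟩
    intro V _ _ _ ρ v hv
    simp
  | succ n ih =>
    obtain ⟨J', inst, z, hz, hm⟩ := ih
    refine ⟨J' × J, inferInstance, fun p => z p.1 * y p.2, ?_, ?_⟩
    · rw [Fintype.card_prod, hz, pow_succ]
    · rw [pow_succ]
      exact Mix.mul (pow_nonneg hη n) hm h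

/-- Transport along an isomorphism.

Proof. For a representation `ρ` of `H` use `ρ.comp e.toMonoidHom`. -/
theorem Mix.equiv {G H : Type} [Group G] [Fintype G] [Group H] [Fintype H] {J : Type} [Fintype J]
    {y : J → G} {η : ℝ} (h : Mix y η) (e : G ≃* H) : Mix (fun j => e (y j)) η := by
  intro V _ _ _ ρ v hv
  refine h V (ρ.comp e.toMonoidHom) v ?_
  have h1 : (∑ g : G, (ρ.comp e.toMonoidHom) g v) = ∑ x : H, ρ x v :=
    Fintype.sum_equiv e.toEquiv _ _ (fun g => rfl)
  have h2 : Fintype.card G = Fintype.card H := Fintype.card_congr e.toEquiv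
  rw [av_apply] at hv ⊢
  rw [h1, h2]
  exact hv

end Pool.Agent.MPfe8e9bW
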