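import Mathlib
import Pool.Agent.Lib.MP_fe8e9b_al_W.Defs
import Pool.Agent.Lib.MP_fe8e9b_al_A.KzE

/-!
# MP_fe8e9b_al, wreath towers: spectral gap in all representations
-/

set_option autoImplicit false

open scoped BigOperators

namespace Pool.Agent.MPfe8e9bW

open Pool.Agent.MPfe8e9b Pool.Agent.MPfe8e9bA

theorem rep1_sum {G : Type} [Group G] [Fintype G] {V : Type} [NormedAddCommGroup V]
    [InnerProductSpace ℂ V] {ι : Type*} [Fintype ι] (b : OrthonormalBasis ι ℂ V)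
    (ρ : G →* (V ≃ₗᵢ[ℂ] V)) (w : V) :
    ∑ u, MPfe8e9b.sq (fun g => inner ℂ (b u) (ρ g w)) = (Fintype.card G : ℝ) * ‖w‖ ^ 2 := by
  unfold MPfe8e9b.sq
  rw [Finset.sum_comm]
  have h1 : ∀ g : G, ∑ u, ‖inner ℂ (b u) (ρ g w)‖ ^ 2 = ‖w‖ ^ 2 := by
    intro g
    rw [b.sum_sq_norm_inner_right, LinearIsometryEquiv.norm_map]
  rw [Finset.sum_congr rfl fun g _ => h1 g, Finset.sum_const, Finset.card_univ, nsmul_eq_mul]

theorem rep1_rt {G : Type} [Group G] {V : Type} [NormedAddCommGroup V]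
    [InnerProductSpace ℂ V] (ρ : G →* (V ≃ₗᵢ[ℂ] V)) (u v : V) (t : G) :
    rt t (fun g => inner ℂ u (ρ g v)) - (fun g => inner ℂ u (ρ g v)) =
      fun g => inner ℂ u (ρ g (ρ t v - v)) := by
  funext g
  rw [Pi.sub_apply, map_sub, inner_sub_right]
  congr 1
  change inner ℂ u (ρ (g * t) v) = inner ℂ u (ρ g (ρ t v))
  rw [map_mul]
  rfl

/-- A spectral gap in the functions on `G` gives a spectral gap in all representations.

Proof. Let `b` be an orthonormal basis of `V` (`stdOrthonormalBasis ℂ V`), `n = card G`. For every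
basis vector `u` let `f u g = inner ℂ (b u) (ρ g v)`. Then
`∑ g, f u g = inner ℂ (b u) (n • av ρ v) = 0`, `rt s (f u) g = inner ℂ (b u) (ρ g (ρ s v))`,
`∑ u, sq (f u) = ∑ g, ‖ρ g v‖ ^ 2 = n * ‖v‖ ^ 2` and
`∑ u, sq (rt s (f u) - f u) = ∑ g, ‖ρ g (ρ s v - v)‖ ^ 2 = n * ‖ρ s v - v‖ ^ 2`. Sum the
inequalities `h (f u)` over `u` and divide by `n`. -/
theorem gap_rep {G : Type} [Group G] [Fintype G] {k : ℕ} {s : Fin k → G} {κ : ℝ} (h : Gap s κ)
    {V : Type} [NormedAddCommGroup V] [InnerProductSpace ℂ V] [FiniteDimensional ℂ V]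
    (ρ : G →* (V ≃ₗᵢ[ℂ] V)) (v : V) (hv : av ρ v = 0) :
    κ * ‖v‖ ^ 2 ≤ ∑ i, ‖ρ (s i) v - v‖ ^ 2 := by
  have hn : (0 : ℝ) < Fintype.card G := by exact_mod_cast Fintype.card_pos
  have hnc : ((Fintype.card G : ℂ))⁻¹ ≠ 0 := by
    refine inv_ne_zero ?_
    exact_mod_cast Fintype.card_ne_zero
  have h0 : ∑ g, ρ g v = 0 := by
    rw [av_apply] at hv
    exact (smul_eq_zero.1 hv).resolve_left hnc
  have h1 : ∀ u, κ * MPfe8e9b.sq (fun g => inner ℂ (stdOrthonormalBasis ℂ V u) (ρ g v)) ≤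
      ∑ i, MPfe8e9b.sq (rt (s i) (fun g => inner ℂ (stdOrthonormalBasis ℂ V u) (ρ g v)) -
        fun g => inner ℂ (stdOrthonormalBasis ℂ V u) (ρ g v)) := by
    intro u
    refine h _ ?_
    rw [← inner_sum, h0, inner_zero_right]
  have h2 := Finset.sum_le_sum fun u (_ : u ∈ Finset.univ) => h1 u
  rw [← Finset.mul_sum, rep1_sum, Finset.sum_comm] at h2
  simp only [rep1_rt, rep1_sum] at h2
  rw [← Finset.mul_sum] at h2
  refine le_of_mul_le_mul_left ?_ hn
  linarith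

/-- Conversely, a spectral gap in all representations gives a spectral gap in the functions.

Proof. Apply `h` to the regular representation `kze_rho G` on `EuclideanSpace ℂ G` (file
`MP_fe8e9b_al_A/KzE.lean`, `kze_rho_apply`), as in the proof of `kz_expd` there; the average of
`f` is zero because `∑ g, f g = 0`. -/
theorem gap_of_rep {G : Type} [Group G] [Fintype G] {k : ℕ} {s : Fin k → G} {κ : ℝ}
    (h : ∀ (V : Type) [NormedAddCommGroup V] [InnerProductSpace ℂ V] [FiniteDimensional ℂ V]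
      (ρ : G →* (V ≃ₗᵢ[ℂ] V)) (v : V), av ρ v = 0 → κ * ‖v‖ ^ 2 ≤ ∑ i, ‖ρ (s i) v - v‖ ^ 2) :
    Gap s κ := by
  intro f hf
  have h1 := h (EuclideanSpace ℂ G) (kze_rho G) (WithLp.toLp 2 f) (by
    rw [av_apply]
    ext x
    have h2 : (∑ g, kze_rho G g (WithLp.toLp 2 f) : EuclideanSpace ℂ G) x = 0 := by
      rw [WithLp.ofLp_sum, Finset.sum_apply]
      have h3 : ∀ g : G, (kze_rho G g (WithLp.toLp 2 f) : EuclideanSpace ℂ G) x = f (x * g) :=
        fun g => kze_rho_apply G g _ x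
      rw [Finset.sum_congr rfl fun g _ => h3 g, ← hf]
      exact Fintype.sum_equiv (Equiv.mulLeft x) _ _ fun g => rfl
    rw [PiLp.smul_apply, h2, smul_zero]
    rfl)
  have h2 : ‖(WithLp.toLp 2 f : EuclideanSpace ℂ G)‖ ^ 2 = MPfe8e9b.sq f := by
    rw [EuclideanSpace.norm_sq_eq]
    rfl
  rw [h2] at h1
  refine h1.trans_eq (Finset.sum_congr rfl fun i _ => ?_)
  rw [kze_dsp, SLn.dsp, SLn.nrm_sq]

end Pool.Agent.MPfe8e9bW
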