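import Mathlib
import Pool.Agent.Lib.MP_fe8e9b_al_W.Defs

/-!
# MP_fe8e9b_al, wreath towers: perfectness, congruence
-/

set_option autoImplicit false

open scoped BigOperators

namespace Pool.Agent.MPfe8e9bW

private theorem perf_mem {G H : Type} [Group G] [Group H] (f : G →* H) (h : commutator G = ⊤)
    (g : G) : f g ∈ commutator H := by
  have h1 : g ∈ commutator G := by
    rw [h]
    exact Subgroup.mem_top g
  have h2 : f g ∈ (commutator G).map f := Subgroup.mem_map_of_mem f h1
  rw [_root_.commutator_def, Subgroup.map_commutator] at h2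
  rw [_root_.commutator_def]
  exact Subgroup.commutator_mono le_top le_top h2

/-- A finite product of perfect groups is perfect.

Proof. For a finite index set every element is a product of elements supported at one coordinate
(or: `commutator (∀ i, G i)` is the product of the `commutator (G i)`,
`Subgroup.commutator_pi_pi_of_finite`). -/
theorem pi_perfect {I : Type} [Finite I] (G : I → Type) [∀ i, Group (G i)]
    (hG : ∀ i, commutator (G i) = ⊤) : commutator (∀ i, G i) = ⊤ := by
  have h := Subgroup.commutator_pi_pi_of_finite (fun i => (⊤ : Subgroup (G i)))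
    (fun i => (⊤ : Subgroup (G i)))
  rw [Subgroup.pi_top] at h
  rw [_root_.commutator_def, h]
  have h1 : (fun i => ⁅(⊤ : Subgroup (G i)), (⊤ : Subgroup (G i))⁆) = fun i => ⊤ := by
    funext i
    exact hG i
  rw [h1, Subgroup.pi_top]

/-- The wreath product of perfect groups is perfect.

Proof. `commutator (Wr α G)` contains the images of `commutator (∀ i, X i → G i) = ⊤` under `inl`
and of `commutator P = ⊤` under `inr` (`map_commutator_eq`, `Subgroup.map_commutator`), and
`w = inl w.left * inr w.right`. -/
theorem wr_perfect {P I : Type} [Group P] [Finite I] {X : I → Type} [∀ i, Finite (X i)]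
    (α : ∀ i, P →* Equiv.Perm (X i)) (G : I → Type) [∀ i, Group (G i)]
    (hP : commutator P = ⊤) (hG : ∀ i, commutator (G i) = ⊤) : commutator (Wr α G) = ⊤ := by
  rw [eq_top_iff]
  intro w _
  have h1 : commutator (∀ i, X i → G i) = ⊤ :=
    pi_perfect (fun i => X i → G i) (fun i => pi_perfect (fun _ : X i => G i) (fun _ => hG i))
  have h2 := perf_mem (SemidirectProduct.inl (φ := wrAct α G)) h1 w.left
  have h3 := perf_mem (SemidirectProduct.inr (φ := wrAct α G)) hP w.right
  have h4 := mul_mem h2 h3
  rwa [SemidirectProduct.inl_left_mul_inr_right] at h4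

/-- Perfectness is invariant under isomorphisms. -/
theorem perfect_iso {G H : Type} [Group G] [Group H] (e : G ≃* H) (h : commutator G = ⊤) :
    commutator H = ⊤ := by
  rw [eq_top_iff]
  intro x _
  have h1 := perf_mem e.toMonoidHom h (e.symm x)
  simpa using h1

/-- Isomorphic groups `G i` give isomorphic wreath products.

Proof. `SemidirectProduct.congr` or by hand with `MonoidHom.mk'`/`MulEquiv.mk'`. -/
theorem wr_congr {P I : Type} [Group P] {X : I → Type} (α : ∀ i, P →* Equiv.Perm (X i))
    (G H : I → Type) [∀ i, Group (G i)] [∀ i, Group (H i)] (e : ∀ i, G i ≃* H i) :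
    Nonempty (Wr α G ≃* Wr α H) := by
  refine ⟨SemidirectProduct.congr
    (MulEquiv.piCongrRight fun i => MulEquiv.piCongrRight fun _ : X i => e i)
    (MulEquiv.refl P) (fun p => ?_)⟩
  ext f i x
  rfl

/-- A wreath product over an empty index set.

Proof. `w ↦ w.right`. -/
theorem wr_empty {P : Type} [Group P] {X : PEmpty.{1} → Type}
    (α : ∀ i, P →* Equiv.Perm (X i)) (G : PEmpty.{1} → Type) [∀ i, Group (G i)] :
    Nonempty (P ≃* Wr α G) := by
  refine ⟨MulEquiv.ofBijective (SemidirectProduct.inr (φ := wrAct α G))
    ⟨SemidirectProduct.inr_injective, fun w => ⟨w.right, ?_⟩⟩⟩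
  refine SemidirectProduct.ext ?_ ?_
  · funext i
    exact i.elim
  · simp

end Pool.Agent.MPfe8e9bW
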