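import Mathlib
import Pool.Agent.Lib.MP_fe8e9b_al.Final

/-!
# MP_fe8e9b_al, wreath towers: from vertex expansion to a spectral gap
-/

set_option autoImplicit false

open scoped BigOperators Pointwise

namespace Pool.Agent.MPfe8e9bW

open Pool.Agent.MPfe8e9b

/-- Vertex expansion `ε` for a set of at most `k` elements. -/
def VExp (k : ℕ) (ε : ℝ) (G : Type) [Group G] : Prop :=
  ∃ (_ : Fintype G) (_ : DecidableEq G) (S : Finset G), S.card ≤ k ∧
    ∀ A : Finset G, 2 * A.card ≤ Fintype.card G →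
      (1 + ε) * (A.card : ℝ) ≤ ((A ∪ S * A).card : ℝ)

/-- Indicator function. -/
private def cheegI {G : Type} [DecidableEq G] (A : Finset G) (x : G) : ℝ := if x ∈ A then 1 else 0

/-- Total variation. -/
private def cheegL {G : Type} [Group G] [Fintype G] (S : Finset G) (f : G → ℝ) : ℝ :=
  ∑ s ∈ S, ∑ x, |f (s⁻¹ * x) - f x|

private theorem cheeg_ind {G : Type} [Group G] [Fintype G] [DecidableEq G] (S : Finset G) (ε : ℝ)
    (h : ∀ A : Finset G, 2 * A.card ≤ Fintype.card G →
      (1 + ε) * (A.card : ℝ) ≤ ((A ∪ S * A).card : ℝ)) (A : Finset G)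
    (hA : 2 * A.card ≤ Fintype.card G) : ε * (A.card : ℝ) ≤ cheegL S (cheegI A) := by
  have h1 := h A hA
  have hsub : A ∪ S * A ⊆ A ∪ S.biUnion fun s =>
      Finset.univ.filter fun x => s⁻¹ * x ∈ A ∧ x ∉ A := by
    intro x hx
    rw [Finset.mem_union] at hx ⊢
    by_cases hxA : x ∈ A
    · exact Or.inl hxA
    · right
      obtain ⟨s, hs, a, ha, rfl⟩ := Finset.mem_mul.1 (hx.resolve_left hxA)
      rw [Finset.mem_biUnion]
      refine ⟨s, hs, ?_⟩
      rw [Finset.mem_filter]
      exact ⟨Finset.mem_univ _, by rwa [inv_mul_cancel_left], hxA⟩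
  have h2 : (A ∪ S * A).card ≤ A.card + ∑ s ∈ S,
      (Finset.univ.filter fun x => s⁻¹ * x ∈ A ∧ x ∉ A).card :=
    (Finset.card_le_card hsub).trans ((Finset.card_union_le _ _).trans
      (Nat.add_le_add_left Finset.card_biUnion_le _))
  have h3 : ((A ∪ S * A).card : ℝ) ≤ A.card + ∑ s ∈ S,
      ((Finset.univ.filter fun x => s⁻¹ * x ∈ A ∧ x ∉ A).card : ℝ) := by exact_mod_cast h2
  have h4 : ∑ s ∈ S, ((Finset.univ.filter fun x => s⁻¹ * x ∈ A ∧ x ∉ A).card : ℝ) ≤
      cheegL S (cheegI A) := by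
    unfold cheegL
    refine Finset.sum_le_sum fun s _ => ?_
    rw [Finset.card_filter]
    push_cast
    refine Finset.sum_le_sum fun x _ => ?_
    unfold cheegI
    by_cases a1 : s⁻¹ * x ∈ A <;> by_cases a2 : x ∈ A <;> simp [a1, a2]
  linarith

private theorem cheegL_nonneg {G : Type} [Group G] [Fintype G] (S : Finset G) (f : G → ℝ) :
    0 ≤ cheegL S f :=
  Finset.sum_nonneg fun _ _ => Finset.sum_nonneg fun _ _ => abs_nonneg _

private theorem cheeg_coarea {G : Type} [Group G] [Fintype G] [DecidableEq G] (S : Finset G)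
    (ε : ℝ) (h : ∀ A : Finset G, 2 * A.card ≤ Fintype.card G →
      (1 + ε) * (A.card : ℝ) ≤ ((A ∪ S * A).card : ℝ)) :
    ∀ (k : ℕ) (f : G → ℝ), (∀ x, 0 ≤ f x) → (Finset.univ.filter (fun x => 0 < f x)).card = k →
      2 * k ≤ Fintype.card G → ε * ∑ x, f x ≤ cheegL S f := by
  intro k
  induction k using Nat.strong_induction_on with
  | _ k ih =>
    intro f hf hk hn
    obtain ⟨T, hT⟩ : ∃ T, T = Finset.univ.filter (fun x => 0 < f x) := ⟨_, rfl⟩
    have hTm : ∀ x, x ∈ T ↔ 0 < f x := by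
      intro x
      rw [hT]
      simp
    have hTS : ∀ x, x ∉ T → f x = 0 := by
      intro x hx
      rw [hTm] at hx
      exact le_antisymm (not_lt.1 hx) (hf x)
    rw [← hT] at hk
    by_cases hT0 : T = ∅
    · have hz : ∀ x, f x = 0 := fun x => hTS x (by rw [hT0]; simp)
      have : ∑ x, f x = 0 := Finset.sum_eq_zero fun x _ => hz x
      rw [this, mul_zero]
      exact cheegL_nonneg S f
    · have hne : T.Nonempty := Finset.nonempty_iff_ne_empty.2 hT0
      obtain ⟨x0, hx0S, hx0⟩ := Finset.exists_min_image T f hne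
      obtain ⟨m, hm⟩ : ∃ m, m = f x0 := ⟨_, rfl⟩
      rw [← hm] at hx0
      have hm0 : 0 < m := by
        rw [hm]
        exact (hTm x0).1 hx0S
      obtain ⟨g, hg⟩ : ∃ g : G → ℝ, g = fun x => f x - m * cheegI T x := ⟨_, rfl⟩
      have hgx : ∀ x, g x = f x - m * cheegI T x := fun x => by rw [hg]
      have hin : ∀ x, x ∈ T → cheegI T x = 1 := fun x hx => if_pos hx
      have hout : ∀ x, x ∉ T → cheegI T x = 0 := fun x hx => if_neg hx
      have hg0 : ∀ x, 0 ≤ g x := by
        intro x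
        rw [hgx]
        by_cases hx : x ∈ T
        · rw [hin x hx]
          linarith [hx0 x hx]
        · rw [hout x hx]
          linarith [hf x]
      have hsub : Finset.univ.filter (fun x => 0 < g x) ⊆ T.erase x0 := by
        intro x hx
        simp only [Finset.mem_filter, Finset.mem_univ, true_and] at hx
        rw [hgx] at hx
        rw [Finset.mem_erase]
        constructor
        · rintro rfl
          rw [hin x hx0S, ← hm] at hx
          linarith
        · by_contra hxT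
          rw [hout x hxT, hTS x hxT] at hx
          linarith
      have hcard : (Finset.univ.filter (fun x => 0 < g x)).card < k := by
        calc _ ≤ (T.erase x0).card := Finset.card_le_card hsub
          _ < T.card := Finset.card_erase_lt_of_mem hx0S
          _ = k := hk
      have h1 := ih _ hcard g hg0 rfl (by omega)
      have h2 := cheeg_ind S ε h T (by omega)
      have hdec : ∀ x y, |f x - f y| = m * |cheegI T x - cheegI T y| + |g x - g y| := by
        intro x y
        rw [hgx, hgx]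
        by_cases hx : x ∈ T <;> by_cases hy : y ∈ T
        · rw [hin x hx, hin y hy]
          simp
        · rw [hin x hx, hout y hy, hTS y hy]
          have e1 : |f x - 0| = f x := by rw [sub_zero, abs_of_nonneg (hf x)]
          have e2 : |(1 : ℝ) - 0| = 1 := by norm_num
          have e3 : |f x - m * 1 - (0 - m * 0)| = f x - m := by
            rw [show f x - m * 1 - (0 - m * 0) = f x - m by ring,
              abs_of_nonneg (by linarith [hx0 x hx])]
          rw [e1, e2, e3]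
          ring
        · rw [hout x hx, hin y hy, hTS x hx]
          have e1 : |0 - f y| = f y := by rw [zero_sub, abs_neg, abs_of_nonneg (hf y)]
          have e2 : |(0 : ℝ) - 1| = 1 := by norm_num
          have e3 : |0 - m * 0 - (f y - m * 1)| = f y - m := by
            rw [show 0 - m * 0 - (f y - m * 1) = -(f y - m) by ring, abs_neg,
              abs_of_nonneg (by linarith [hx0 y hy])]
          rw [e1, e2, e3]
          ring
        · rw [hout x hx, hout y hy]
          simp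
      have hL : cheegL S f = m * cheegL S (cheegI T) + cheegL S g := by
        unfold cheegL
        simp only [hdec, Finset.sum_add_distrib, Finset.mul_sum]
      have hsum : ∑ x, f x = m * (T.card : ℝ) + ∑ x, g x := by
        have e1 : ∑ x, cheegI T x = (T.card : ℝ) := by
          unfold cheegI
          rw [Finset.sum_ite_mem, Finset.univ_inter, Finset.sum_const, nsmul_eq_mul, mul_one]
        rw [← e1, Finset.mul_sum, ← Finset.sum_add_distrib]
        exact Finset.sum_congr rfl fun x _ => by rw [hgx]; ring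
      rw [hL, hsum]
      have h3 := mul_le_mul_of_nonneg_left h2 hm0.le
      linarith

/-- Functions which vanish on at least half of the group.

Proof. Coarea: for `t ≥ 0` let `A t = {g | t < φ g ^ 2}`; `2 * card (A t) ≤ card G`, every
`x ∈ S * A t` outside `A t` satisfies `φ x ^ 2 ≤ t < φ (s⁻¹ * x) ^ 2` for some `s ∈ S`, so
`ε * card (A t) ≤ ∑ s ∈ S, card {x | φ x ^ 2 ≤ t < φ (s⁻¹ * x) ^ 2}`. Integrate over `t` from `0` to
`∞` (or use the finitely many values of `φ ^ 2`):
`ε * ∑ φ x ^ 2 ≤ ∑ s ∈ S, ∑ x, max (φ (s⁻¹ * x) ^ 2 - φ x ^ 2) 0 ≤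
∑ s ∈ S, ∑ x, |φ (s⁻¹ * x) - φ x| * (φ (s⁻¹ * x) + φ x)`. Cauchy-Schwarz and
`∑ s ∈ S, ∑ x, (φ (s⁻¹ * x) + φ x) ^ 2 ≤ 4 * k * ∑ φ x ^ 2`. (The file
`MP_5acf79_pr/Cheeger.lean`, `cheeger_nonneg`, does this for graphs on `ZMod n`.) -/
theorem cheeg_nonneg {G : Type} [Group G] [Fintype G] [DecidableEq G] (S : Finset G) (k : ℕ)
    (hS : S.card ≤ k) (ε : ℝ) (hε : 0 ≤ ε)
    (h : ∀ A : Finset G, 2 * A.card ≤ Fintype.card G →
      (1 + ε) * (A.card : ℝ) ≤ ((A ∪ S * A).card : ℝ))
    (φ : G → ℝ) (h0 : ∀ x, 0 ≤ φ x)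
    (hs : 2 * (Finset.univ.filter (fun x => 0 < φ x)).card ≤ Fintype.card G) :
    ε ^ 2 * ∑ x, φ x ^ 2 ≤ 4 * (k : ℝ) * ∑ s ∈ S, ∑ x, (φ (s⁻¹ * x) - φ x) ^ 2 := by
  obtain ⟨X, hX⟩ : ∃ X, X = ∑ x, φ x ^ 2 := ⟨_, rfl⟩
  have hX0 : 0 ≤ X := by
    rw [hX]
    exact Finset.sum_nonneg fun x _ => sq_nonneg _
  have hfil : (Finset.univ.filter (fun x => 0 < φ x ^ 2)) =
      Finset.univ.filter (fun x => 0 < φ x) := by
    ext x
    simp only [Finset.mem_filter, Finset.mem_univ, true_and]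
    constructor
    · intro h1
      rcases (h0 x).lt_or_eq with h' | h'
      · exact h'
      · rw [← h'] at h1
        norm_num at h1
    · intro h1
      positivity
  have hco : ε * X ≤ cheegL S (fun x => φ x ^ 2) := by
    rw [hX]
    exact cheeg_coarea S ε h _ (fun x => φ x ^ 2) (fun x => sq_nonneg _) rfl
      (by rw [hfil]; exact hs)
  obtain ⟨En, hEn⟩ : ∃ En, En = ∑ s ∈ S, ∑ x, (φ (s⁻¹ * x) - φ x) ^ 2 := ⟨_, rfl⟩
  obtain ⟨R, hR⟩ : ∃ R, R = ∑ s ∈ S, ∑ x, (φ (s⁻¹ * x) + φ x) ^ 2 := ⟨_, rfl⟩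
  have hE0 : 0 ≤ En := by
    rw [hEn]
    exact Finset.sum_nonneg fun _ _ => Finset.sum_nonneg fun _ _ => sq_nonneg _
  have hRle : R ≤ 4 * k * X := by
    have h1 : ∀ s ∈ S, ∑ x, (φ (s⁻¹ * x) + φ x) ^ 2 ≤ 4 * X := by
      intro s _
      have h2 : ∑ x, φ (s⁻¹ * x) ^ 2 = X := by
        rw [hX]
        exact Fintype.sum_equiv (Equiv.mulLeft s⁻¹) _ _ fun x => rfl
      have h3 : ∑ x, (φ (s⁻¹ * x) + φ x) ^ 2 ≤ ∑ x, (2 * φ (s⁻¹ * x) ^ 2 + 2 * φ x ^ 2) :=
        Finset.sum_le_sum fun x _ => by nlinarith [sq_nonneg (φ (s⁻¹ * x) - φ x)]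
      rw [Finset.sum_add_distrib, ← Finset.mul_sum, ← Finset.mul_sum, h2, ← hX] at h3
      linarith
    have h2 := Finset.sum_le_sum h1
    rw [Finset.sum_const, nsmul_eq_mul, ← hR] at h2
    have h3 : (S.card : ℝ) ≤ k := by exact_mod_cast hS
    nlinarith
  have hcs : cheegL S (fun x => φ x ^ 2) ^ 2 ≤ En * R := by
    have h1 := Finset.sum_mul_sq_le_sq_mul_sq (S ×ˢ (Finset.univ : Finset G))
      (fun p => |φ (p.1⁻¹ * p.2) - φ p.2|) (fun p => φ (p.1⁻¹ * p.2) + φ p.2)
    rw [Finset.sum_product, Finset.sum_product, Finset.sum_product] at h1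
    simp only [sq_abs] at h1
    rw [← hEn, ← hR] at h1
    refine le_trans (le_of_eq ?_) h1
    congr 1
    unfold cheegL
    refine Finset.sum_congr rfl fun s _ => Finset.sum_congr rfl fun x _ => ?_
    rw [show φ (s⁻¹ * x) ^ 2 - φ x ^ 2 = (φ (s⁻¹ * x) - φ x) * (φ (s⁻¹ * x) + φ x) by ring,
      abs_mul, abs_of_nonneg (add_nonneg (h0 _) (h0 _))]
  have h1 : (ε * X) ^ 2 ≤ En * (4 * k * X) := by
    calc (ε * X) ^ 2 ≤ cheegL S (fun x => φ x ^ 2) ^ 2 :=
          pow_le_pow_left₀ (by positivity) hco 2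
      _ ≤ En * R := hcs
      _ ≤ _ := mul_le_mul_of_nonneg_left hRle hE0
  rw [← hX, ← hEn]
  rcases hX0.lt_or_eq with hpos | h0'
  · have h2 : X * (ε ^ 2 * X) ≤ X * (4 * k * En) := by nlinarith
    exact le_of_mul_le_mul_left h2 hpos
  · rw [← h0', mul_zero]
    positivity

private theorem cheeg_median {G : Type} [Fintype G] [DecidableEq G] [Nonempty G] (f : G → ℝ) :
    ∃ x0 : G, 2 * (Finset.univ.filter (fun x => f x0 < f x)).card ≤ Fintype.card G ∧
      2 * (Finset.univ.filter (fun x => f x < f x0)).card ≤ Fintype.card G := by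
  classical
  obtain ⟨T, hT⟩ : ∃ T, T = Finset.univ.filter
    (fun x0 => 2 * (Finset.univ.filter (fun x => f x < f x0)).card ≤ Fintype.card G) := ⟨_, rfl⟩
  have hTm : ∀ x0, x0 ∈ T ↔
      2 * (Finset.univ.filter (fun x => f x < f x0)).card ≤ Fintype.card G := by
    intro x0
    rw [hT]
    simp
  have hTne : T.Nonempty := by
    obtain ⟨x0, _, hx0⟩ := Finset.exists_min_image (Finset.univ : Finset G) f
      Finset.univ_nonempty
    refine ⟨x0, ?_⟩
    rw [hTm]
    have : (Finset.univ.filter (fun x => f x < f x0)) = ∅ := by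
      ext x
      simp only [Finset.mem_filter, Finset.mem_univ, true_and, Finset.notMem_empty, iff_false,
        not_lt]
      exact hx0 x (Finset.mem_univ _)
    rw [this]
    simp
  obtain ⟨x0, hx0T, hx0⟩ := Finset.exists_max_image T f hTne
  refine ⟨x0, ?_, (hTm x0).1 hx0T⟩
  by_contra hcon
  push Not at hcon
  obtain ⟨U, hU⟩ : ∃ U, U = Finset.univ.filter (fun x => f x0 < f x) := ⟨_, rfl⟩
  rw [← hU] at hcon
  have hUm : ∀ x, x ∈ U ↔ f x0 < f x := by
    intro x
    rw [hU]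
    simp
  have hUne : U.Nonempty := by
    rw [← Finset.card_pos]
    omega
  obtain ⟨x1, hx1U, hx1⟩ := Finset.exists_min_image U f hUne
  have hx1T : x1 ∈ T := by
    rw [hTm]
    have hdisj : Disjoint (Finset.univ.filter (fun x => f x < f x1)) U := by
      rw [Finset.disjoint_left]
      intro x hx hxU
      have h1 := hx1 x hxU
      simp only [Finset.mem_filter, Finset.mem_univ, true_and] at hx
      linarith
    have h2 : (Finset.univ.filter (fun x => f x < f x1)).card + U.card ≤ Fintype.card G := by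
      rw [← Finset.card_union_of_disjoint hdisj]
      exact Finset.card_le_univ _
    omega
  have h3 := hx0 x1 hx1T
  have h4 := (hUm x1).1 hx1U
  linarith

private theorem cheeg_split (a b m : ℝ) :
    (max (a - m) 0 - max (b - m) 0) ^ 2 + (max (m - a) 0 - max (m - b) 0) ^ 2 ≤
      (a - b) ^ 2 := by
  rcases le_total a m with ha | ha <;> rcases le_total b m with hb | hb
  · rw [max_eq_right (by linarith), max_eq_right (by linarith), max_eq_left (by linarith),
      max_eq_left (by linarith)]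
    nlinarith
  · rw [max_eq_right (by linarith), max_eq_left (by linarith), max_eq_left (by linarith),
      max_eq_right (by linarith)]
    nlinarith
  · rw [max_eq_left (by linarith), max_eq_right (by linarith), max_eq_right (by linarith),
      max_eq_left (by linarith)]
    nlinarith
  · rw [max_eq_left (by linarith), max_eq_left (by linarith), max_eq_right (by linarith),
      max_eq_right (by linarith)]
    nlinarith

private theorem cheeg_real {G : Type} [Group G] [Fintype G] [DecidableEq G] (S : Finset G)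
    (k : ℕ) (hS : S.card ≤ k) (ε : ℝ) (hε : 0 ≤ ε)
    (h : ∀ A : Finset G, 2 * A.card ≤ Fintype.card G →
      (1 + ε) * (A.card : ℝ) ≤ ((A ∪ S * A).card : ℝ))
    (u : G → ℝ) (hu : ∑ x, u x = 0) :
    ε ^ 2 * ∑ x, u x ^ 2 ≤ 4 * (k : ℝ) * ∑ s ∈ S, ∑ x, (u (s⁻¹ * x) - u x) ^ 2 := by
  obtain ⟨x0, hx1, hx2⟩ := cheeg_median u
  have h1 := cheeg_nonneg S k hS ε hε h (fun x => max (u x - u x0) 0)
    (fun x => le_max_right _ _) (by
      refine le_trans ?_ hx1
      refine Nat.mul_le_mul_left 2 (Finset.card_le_card ?_)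
      intro x hx
      simp only [Finset.mem_filter, Finset.mem_univ, true_and, lt_max_iff, lt_irrefl,
        or_false] at hx ⊢
      linarith)
  have h2 := cheeg_nonneg S k hS ε hε h (fun x => max (u x0 - u x) 0)
    (fun x => le_max_right _ _) (by
      refine le_trans ?_ hx2
      refine Nat.mul_le_mul_left 2 (Finset.card_le_card ?_)
      intro x hx
      simp only [Finset.mem_filter, Finset.mem_univ, true_and, lt_max_iff, lt_irrefl,
        or_false] at hx ⊢
      linarith)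
  have h3 : ∑ s ∈ S, ∑ x, (max (u (s⁻¹ * x) - u x0) 0 - max (u x - u x0) 0) ^ 2 +
      ∑ s ∈ S, ∑ x, (max (u x0 - u (s⁻¹ * x)) 0 - max (u x0 - u x) 0) ^ 2 ≤
        ∑ s ∈ S, ∑ x, (u (s⁻¹ * x) - u x) ^ 2 := by
    rw [← Finset.sum_add_distrib]
    refine Finset.sum_le_sum fun s _ => ?_
    rw [← Finset.sum_add_distrib]
    exact Finset.sum_le_sum fun x _ => cheeg_split _ _ _
  have h4 : ∑ x, u x ^ 2 ≤
      ∑ x, (max (u x - u x0) 0) ^ 2 + ∑ x, (max (u x0 - u x) 0) ^ 2 := by
    have e1 : ∑ x, (max (u x - u x0) 0) ^ 2 + ∑ x, (max (u x0 - u x) 0) ^ 2 =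
        ∑ x, (u x - u x0) ^ 2 := by
      rw [← Finset.sum_add_distrib]
      refine Finset.sum_congr rfl fun x _ => ?_
      rcases le_total (u x) (u x0) with h | h
      · rw [max_eq_right (by linarith), max_eq_left (by linarith)]
        ring
      · rw [max_eq_left (by linarith), max_eq_right (by linarith)]
        ring
    have e2 : ∑ x, (u x - u x0) ^ 2 = ∑ x, u x ^ 2 - 2 * u x0 * ∑ x, u x +
        (Fintype.card G : ℝ) * u x0 ^ 2 := by
      rw [Finset.mul_sum, ← Finset.sum_sub_distrib]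
      have e3 : (Fintype.card G : ℝ) * u x0 ^ 2 = ∑ _x : G, u x0 ^ 2 := by
        rw [Finset.sum_const, Finset.card_univ, nsmul_eq_mul]
      rw [e3, ← Finset.sum_add_distrib]
      exact Finset.sum_congr rfl fun x _ => by ring
    rw [e1, e2, hu]
    have : 0 ≤ (Fintype.card G : ℝ) * u x0 ^ 2 := by positivity
    linarith
  have h5 : 0 ≤ ε ^ 2 := sq_nonneg _
  have h6 := mul_le_mul_of_nonneg_left h4 h5
  have h7 : (0 : ℝ) ≤ 4 * k := by positivity
  have h8 := mul_le_mul_of_nonneg_left h3 h7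
  rw [mul_add] at h6 h8
  linarith

/-- Vertex expansion gives a spectral gap.

Proof. Real functions `f` with sum zero: let `c` be a median, `φ₁ = max (f - c) 0`,
`φ₂ = max (c - f) 0`; both have support of at most half of the group (median: at most half of the
points have `f > c`, at most half `f < c`), `(f x - f y) ^ 2 ≥ (φ₁ x - φ₁ y) ^ 2 +
(φ₂ x - φ₂ y) ^ 2` and `∑ φ₁ ^ 2 + ∑ φ₂ ^ 2 = ∑ (f - c) ^ 2 ≥ ∑ f ^ 2`. Apply this to the real and
imaginary parts of `g ↦ f g⁻¹`: `∑ x, ‖f ((s⁻¹ * x)⁻¹) - f x⁻¹‖ ^ 2 = ∑ x, ‖f (x * s) - f x‖ ^ 2 =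
sq (rt s f - f)`. The tuple `Fin k → G` enumerates `S` (the remaining entries are `1`). -/
theorem vexp_fexpd {k : ℕ} {ε : ℝ} (hε : 0 < ε) {G : Type} [Group G] (h : VExp k ε G) :
    FExpd G k (ε ^ 2 / (4 * ((k : ℝ) + 1))) := by
  obtain ⟨instF, instD, S, hS, h⟩ := h
  refine ⟨instF, ?_⟩
  have hcard : Fintype.card S ≤ Fintype.card (Fin k) := by
    rw [Fintype.card_coe, Fintype.card_fin]
    exact hS
  obtain ⟨j⟩ := Function.Embedding.nonempty_of_card_le hcard
  refine ⟨Function.extend j Subtype.val (fun _ => 1), ?_⟩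
  intro f hf
  -- the energy
  have hE : ∑ s ∈ S, MPfe8e9b.sq (rt s f - f) ≤
      ∑ i, MPfe8e9b.sq (rt (Function.extend j Subtype.val (fun _ => 1) i) f - f) := by
    have hnn : ∀ i : Fin k,
        0 ≤ MPfe8e9b.sq (rt (Function.extend j Subtype.val (fun _ => 1) i) f - f) :=
      fun i => Finset.sum_nonneg fun _ _ => sq_nonneg _
    calc ∑ s ∈ S, MPfe8e9b.sq (rt s f - f) = ∑ a : S, MPfe8e9b.sq (rt a.1 f - f) :=
          (Finset.sum_coe_sort S (fun s => MPfe8e9b.sq (rt s f - f))).symm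
      _ = ∑ a : S, MPfe8e9b.sq (rt (Function.extend j Subtype.val (fun _ => 1) (j a)) f - f) := by
          refine Finset.sum_congr rfl fun a _ => ?_
          rw [j.injective.extend_apply]
      _ = ∑ i ∈ Finset.univ.map j,
          MPfe8e9b.sq (rt (Function.extend j Subtype.val (fun _ => 1) i) f - f) := by
          rw [Finset.sum_map]
      _ ≤ _ := Finset.sum_le_sum_of_subset_of_nonneg (Finset.subset_univ _)
          fun i _ _ => hnn i
  -- real and imaginary parts
  have hinv : ∀ F : G → ℝ, ∑ x, F x⁻¹ = ∑ x, F x := fun F =>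
    Fintype.sum_equiv (Equiv.inv G) _ _ fun x => rfl
  have hre0 : ∑ x, (f x⁻¹).re = 0 := by
    rw [hinv (fun x => (f x).re), ← Complex.re_sum, hf, Complex.zero_re]
  have him0 : ∑ x, (f x⁻¹).im = 0 := by
    rw [hinv (fun x => (f x).im), ← Complex.im_sum, hf, Complex.zero_im]
  have h1 := cheeg_real S k hS ε hε.le h (fun x => (f x⁻¹).re) hre0
  have h2 := cheeg_real S k hS ε hε.le h (fun x => (f x⁻¹).im) him0
  have hn : ∀ z : ℂ, ‖z‖ ^ 2 = z.re ^ 2 + z.im ^ 2 := by
    intro z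
    rw [← Complex.normSq_eq_norm_sq, Complex.normSq_apply]
    ring
  have h3 : ∑ x, (f x⁻¹).re ^ 2 + ∑ x, (f x⁻¹).im ^ 2 = MPfe8e9b.sq f := by
    rw [hinv (fun x => (f x).re ^ 2), hinv (fun x => (f x).im ^ 2), ← Finset.sum_add_distrib]
    unfold MPfe8e9b.sq
    exact Finset.sum_congr rfl fun x _ => (hn _).symm
  have h4 : ∑ s ∈ S, ∑ x, ((f (s⁻¹ * x)⁻¹).re - (f x⁻¹).re) ^ 2 +
      ∑ s ∈ S, ∑ x, ((f (s⁻¹ * x)⁻¹).im - (f x⁻¹).im) ^ 2 = ∑ s ∈ S, MPfe8e9b.sq (rt s f - f) := by
    rw [← Finset.sum_add_distrib]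
    refine Finset.sum_congr rfl fun s _ => ?_
    have e1 : ∀ x : G, (s⁻¹ * x)⁻¹ = x⁻¹ * s := fun x => by rw [mul_inv_rev, inv_inv]
    simp only [e1]
    rw [hinv (fun x => ((f (x * s)).re - (f x).re) ^ 2),
      hinv (fun x => ((f (x * s)).im - (f x).im) ^ 2), ← Finset.sum_add_distrib]
    unfold MPfe8e9b.sq
    refine Finset.sum_congr rfl fun x _ => ?_
    rw [hn]
    simp only [Pi.sub_apply, rt, Complex.sub_re, Complex.sub_im]
  have hE0 : 0 ≤ ∑ s ∈ S, MPfe8e9b.sq (rt s f - f) :=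
    Finset.sum_nonneg fun s _ => Finset.sum_nonneg fun _ _ => sq_nonneg _
  have h5 : ε ^ 2 * MPfe8e9b.sq f ≤ 4 * (k : ℝ) * ∑ s ∈ S, MPfe8e9b.sq (rt s f - f) := by
    rw [← h3, ← h4, mul_add, mul_add]
    exact add_le_add h1 h2
  refine le_trans ?_ hE
  have hk : (0 : ℝ) < 4 * ((k : ℝ) + 1) := by positivity
  rw [div_mul_eq_mul_div, div_le_iff₀ hk]
  linarith

end Pool.Agent.MPfe8e9bW
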