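import Mathlib
import Pool.Agent.Lib.MP_fe8e9b_al_W.Defs
import Pool.Agent.Lib.MP_fe8e9b_al_W.Rep1

/-!
# MP_fe8e9b_al, wreath towers: the first list
-/

set_option autoImplicit false

open scoped BigOperators

namespace Pool.Agent.MPfe8e9bW

open Pool.Agent.MPfe8e9b Pool.Agent.MPfe8e9bA

/-- A tuple with spectral gap `κ`, together with `1`, is a list.

Proof. Let `h : Gap s κ`, `y none = 1`, `y (some i) = s i`, `n = k + 1 = card (Option (Fin k))`,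
`v` with average zero and `z j = ρ (y j) v`. From `‖z i - z j‖ ^ 2 = 2 ‖v‖ ^ 2 - 2 re ⟨z i, z j⟩`:
`‖(1/n) ∑ j, z j‖ ^ 2 = ‖v‖ ^ 2 - (1/(2 n^2)) ∑ i, ∑ j, ‖z i - z j‖ ^ 2`. The terms with `i = none`
or `j = none` give at least `2 ∑ i, ‖ρ (s i) v - v‖ ^ 2 ≥ 2 κ ‖v‖ ^ 2` by `gap_rep`, so
`‖(1/n) ∑ j, z j‖ ^ 2 ≤ (1 - κ/n^2) ‖v‖ ^ 2 ≤ (1 - κ/(2 n^2)) ^ 2 ‖v‖ ^ 2`, and
`1 - κ/(2 n^2) ≥ 0` since `κ ≤ 1`. -/
theorem mix_zero {G : Type} [Group G] [Fintype G] {k : ℕ} {κ : ℝ} (hκ : 0 ≤ κ) (hκ1 : κ ≤ 1)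
    (h : Expd G k κ) :
    ∃ y : Option (Fin k) → G, Mix y (1 - κ / (2 * ((k : ℝ) + 1) ^ 2)) := by
  obtain ⟨s, hs⟩ := h
  refine ⟨fun o => o.elim 1 s, ?_⟩
  intro V _ _ _ ρ v hv
  have hQ := gap_rep hs ρ v hv
  obtain ⟨w, hw⟩ : ∃ w : Fin k → V, ∀ i, w i = ρ (s i) v - v := ⟨_, fun _ => rfl⟩
  obtain ⟨W, hW⟩ : ∃ W : V, W = ∑ i, w i := ⟨_, rfl⟩
  have hS : ∑ j : Option (Fin k), ρ (j.elim 1 s) v = ((k : ℂ) + 1) • v + W := by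
    rw [Fintype.sum_option, hW]
    simp only [Option.elim_none, Option.elim_some, map_one]
    have e : ∑ i, w i = ∑ i, ρ (s i) v - (k : ℂ) • v := by
      simp only [hw]
      rw [Finset.sum_sub_distrib, Finset.sum_const, Finset.card_univ, Fintype.card_fin,
        Nat.cast_smul_eq_nsmul]
    rw [e, add_smul, one_smul]
    change v + _ = _
    abel
  have hQ2 : κ * ‖v‖ ^ 2 ≤ ∑ i, ‖w i‖ ^ 2 := by
    simpa only [hw] using hQ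
  have h1 : ∀ i, 2 * RCLike.re (inner ℂ v (w i)) = - ‖w i‖ ^ 2 := by
    intro i
    have e1 : v + w i = ρ (s i) v := by
      rw [hw]
      abel
    have e2 := norm_add_sq (𝕜 := ℂ) v (w i)
    rw [e1, LinearIsometryEquiv.norm_map] at e2
    linarith
  have h2 : 2 * RCLike.re (inner ℂ v W) = - ∑ i, ‖w i‖ ^ 2 := by
    rw [hW, inner_sum, map_sum, Finset.mul_sum, ← Finset.sum_neg_distrib]
    exact Finset.sum_congr rfl fun i _ => h1 i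
  have h3 : ‖W‖ ^ 2 ≤ k * ∑ i, ‖w i‖ ^ 2 := by
    have e1 : ‖W‖ ≤ ∑ i, ‖w i‖ := by
      rw [hW]
      exact norm_sum_le _ _
    have e2 : (∑ i, ‖w i‖) ^ 2 ≤ k * ∑ i, ‖w i‖ ^ 2 := by
      have := sq_sum_le_card_mul_sum_sq (s := (Finset.univ : Finset (Fin k)))
        (f := fun i => ‖w i‖)
      simpa using this
    exact (pow_le_pow_left₀ (norm_nonneg _) e1 2).trans e2
  have hn : ‖((k : ℂ) + 1)‖ = (k : ℝ) + 1 := by
    have : ((k : ℂ) + 1) = ((k + 1 : ℕ) : ℂ) := by push_cast; rfl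
    rw [this, Complex.norm_natCast]
    push_cast
    rfl
  have h4 : ‖((k : ℂ) + 1) • v + W‖ ^ 2 ≤ (((k : ℝ) + 1) ^ 2 - κ) * ‖v‖ ^ 2 := by
    rw [norm_add_sq (𝕜 := ℂ), norm_smul, hn, inner_smul_left]
    have e1 : (starRingEnd ℂ) ((k : ℂ) + 1) = (((k : ℝ) + 1 : ℝ) : ℂ) := by
      simp
    have e2 : RCLike.re ((starRingEnd ℂ) ((k : ℂ) + 1) * inner ℂ v W) =
        ((k : ℝ) + 1) * RCLike.re (inner ℂ v W) := by
      rw [e1]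
      exact Complex.re_ofReal_mul _ _
    rw [e2]
    have hk : (0 : ℝ) ≤ k := Nat.cast_nonneg k
    nlinarith [h2, h3, hQ2]
  rw [hS, Fintype.card_option, Fintype.card_fin, norm_smul, norm_inv, Complex.norm_natCast]
  push_cast
  have hk : (0 : ℝ) < (k : ℝ) + 1 := by positivity
  rw [inv_mul_le_iff₀ hk]
  have h5 : κ / (2 * ((k : ℝ) + 1) ^ 2) ≤ 1 := by
    rw [div_le_one (by positivity)]
    have : (1 : ℝ) ≤ ((k : ℝ) + 1) ^ 2 := by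
      have : (0 : ℝ) ≤ k := Nat.cast_nonneg k
      nlinarith
    linarith
  have h6 : 0 ≤ ((k : ℝ) + 1) * ((1 - κ / (2 * ((k : ℝ) + 1) ^ 2)) * ‖v‖) :=
    mul_nonneg hk.le (mul_nonneg (by linarith) (norm_nonneg _))
  refine le_of_sq_le_sq ?_ h6
  refine h4.trans ?_
  have e : (((k : ℝ) + 1) * ((1 - κ / (2 * ((k : ℝ) + 1) ^ 2)) * ‖v‖)) ^ 2 =
      (((k : ℝ) + 1) ^ 2 - κ) * ‖v‖ ^ 2 + (κ / (2 * ((k : ℝ) + 1))) ^ 2 * ‖v‖ ^ 2 := by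
    field_simp
    ring
  rw [e]
  have : 0 ≤ (κ / (2 * ((k : ℝ) + 1))) ^ 2 * ‖v‖ ^ 2 := by positivity
  linarith

end Pool.Agent.MPfe8e9bW
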