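import Mathlib
import Pool.Agent.Lib.MP_fe8e9b_al_W.Defs
import Pool.Agent.Lib.MP_fe8e9b_al_W.MixOps
import Pool.Agent.Lib.MP_fe8e9b_al_W.Mix0

/-!
# MP_fe8e9b_al, wreath towers: bounded lists in the alternating groups
-/

set_option autoImplicit false

open scoped BigOperators

namespace Pool.Agent.MPfe8e9bW

open Pool.Agent.MPfe8e9b Pool.Agent.MPfe8e9bA

theorem altmix_product {N : ℕ} (hN : 5 ≤ N) : AltProduct 1 (alternatingGroup (Fin N)) := by
  refine ⟨Unit, inferInstance, fun _ => N, fun _ => hN, fun m => ?_,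
    ⟨(MulEquiv.piUnique (fun _ : Unit => alternatingGroup (Fin N))).symm⟩⟩
  rw [pow_one]
  refine le_trans ?_ (Nat.factorial_pos m)
  exact Finite.card_le_one_iff_subsingleton.2 inferInstance

theorem altmix_lam {k : ℕ} {κ : ℝ} (hκ : 0 < κ) (hκ1 : κ ≤ 1) :
    0 ≤ 1 - κ / (2 * ((k : ℝ) + 1) ^ 2) ∧ 1 - κ / (2 * ((k : ℝ) + 1) ^ 2) < 1 := by
  have hk : (1 : ℝ) ≤ ((k : ℝ) + 1) ^ 2 := by
    have : (0 : ℝ) ≤ k := Nat.cast_nonneg k
    nlinarith
  have hd : (0 : ℝ) < 2 * ((k : ℝ) + 1) ^ 2 := by linarith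
  constructor
  · rw [sub_nonneg, div_le_one hd]
    linarith
  · have := div_pos hκ hd
    linarith

/-- All alternating groups have lists with the same number of elements.

Proof. `alt_expd 1` gives `k`, `κ > 0` (replace `κ` by `min κ 1`, `expd_mono`) with
`FExpd (alternatingGroup (Fin n)) k κ` for `5 ≤ n` (take `ι = Unit` in `AltProduct`, so
`card {i // n i = m} ≤ 1 ≤ (m !) ^ 1`; the isomorphism of `alternatingGroup (Fin n)` with the
functions on `Unit` is `MulEquiv.piUnique` or by hand). `mix_zero` gives a list with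
`lam = 1 - κ / (2 (k+1)^2) < 1` indexed by `Option (Fin k)`, `Mix.pow` with `lam ^ n ≤ 1/10`
(`exists_pow_lt_of_lt_one`) a list with `D₀ = (k+1) ^ n` elements, `Mix.fin` the index type
`Fin D₀`. Transport to `alternatingGroup J` along `Fintype.equivFin J`
(`Equiv.altCongrHom`, `Mix.equiv`). -/
theorem alt_mix : ∃ D₀ : ℕ, 0 < D₀ ∧ ∀ (J : Type) [Fintype J] [DecidableEq J],
    5 ≤ Fintype.card J → ∃ π : Fin D₀ → alternatingGroup J, Mix π (1 / 10) := by
  obtain ⟨k, κ, hκ, h⟩ := alt_expd 1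
  have hκ0 : 0 < min κ 1 := lt_min hκ one_pos
  have hκ1 : min κ 1 ≤ 1 := min_le_right κ 1
  obtain ⟨hl0, hl1⟩ := altmix_lam (k := k) hκ0 hκ1
  obtain ⟨n, hn⟩ := exists_pow_lt_of_lt_one (show (0 : ℝ) < 1 / 10 by norm_num) hl1
  refine ⟨(k + 1) ^ n, by positivity, ?_⟩
  intro J _ _ hJ
  have hE : Expd (alternatingGroup (Fin (Fintype.card J))) k (min κ 1) :=
    ((h _ (altmix_product hJ)).mono le_rfl (min_le_left κ 1)).expd
  obtain ⟨y, hy⟩ := mix_zero hκ0.le hκ1 hE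
  obtain ⟨J', hJ', z, hz1, hz2⟩ := hy.pow hl0 n
  rw [Fintype.card_option, Fintype.card_fin] at hz1
  obtain ⟨w, hw⟩ : ∃ w : Fin ((k + 1) ^ n) → alternatingGroup (Fin (Fintype.card J)),
      Mix w ((1 - min κ 1 / (2 * ((k : ℝ) + 1) ^ 2)) ^ n) := by
    rw [← hz1]
    exact hz2.fin
  exact ⟨fun j => Equiv.altCongrHom (Fintype.equivFin J).symm (w j),
    (hw.mono hn.le).equiv (Equiv.altCongrHom (Fintype.equivFin J).symm)⟩

end Pool.Agent.MPfe8e9bW
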