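import Mathlib
import Pool.Agent.Lib.MP_fe8e9b_al_W.Defs
import Pool.Agent.Lib.MP_fe8e9b_al_W.MixOps

/-!
# MP_fe8e9b_al, wreath towers: derandomized squaring
-/

set_option autoImplicit false

open scoped BigOperators

namespace Pool.Agent.MPfe8e9bW

open Pool.Agent.MPfe8e9b Pool.Agent.MPfe8e9bA

theorem dsq_pyth {J : Type} [Fintype J] {V : Type} [NormedAddCommGroup V]
    [InnerProductSpace ℂ V] (m : V) (a : J → V) (h : ∑ j, a j = 0) :
    ∑ j, ‖m + a j‖ ^ 2 = (Fintype.card J : ℝ) * ‖m‖ ^ 2 + ∑ j, ‖a j‖ ^ 2 := by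
  have h1 : ∀ j, ‖m + a j‖ ^ 2 =
      ‖m‖ ^ 2 + 2 * RCLike.re (inner ℂ m (a j)) + ‖a j‖ ^ 2 := fun j => norm_add_sq m (a j)
  have h2 : ∑ j, RCLike.re (inner ℂ m (a j)) = 0 := by
    rw [← map_sum, ← inner_sum, h, inner_zero_right, map_zero]
  rw [Finset.sum_congr rfl fun j _ => h1 j, Finset.sum_add_distrib, Finset.sum_add_distrib,
    ← Finset.mul_sum, h2, mul_zero, add_zero, Finset.sum_const, Finset.card_univ, nsmul_eq_mul]

/-- The permutation representation. -/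
noncomputable def dsq_rho (J : Type) [Fintype J] [DecidableEq J] (V : Type)
    [NormedAddCommGroup V] [InnerProductSpace ℂ V] :
    alternatingGroup J →* (PiLp 2 (fun _ : J => V) ≃ₗᵢ[ℂ] PiLp 2 (fun _ : J => V)) where
  toFun σ := LinearIsometryEquiv.piLpCongrLeft 2 ℂ V σ.1
  map_one' := by
    ext f x
    rfl
  map_mul' a b := by
    ext f x
    rfl

theorem dsq_rho_apply (J : Type) [Fintype J] [DecidableEq J] (V : Type)
    [NormedAddCommGroup V] [InnerProductSpace ℂ V] (σ : alternatingGroup J)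
    (f : PiLp 2 (fun _ : J => V)) (j : J) : dsq_rho J V σ f j = f ((σ⁻¹).1 j) := rfl

/-- The components of averages. -/
theorem dsq_avg (J : Type) [Fintype J] {L : Type} [Fintype L] {V : Type}
    [NormedAddCommGroup V] [InnerProductSpace ℂ V] (c : ℂ)
    (f : L → PiLp 2 (fun _ : J => V)) (j : J) : (c • ∑ l, f l) j = c • ∑ l, f l j := by
  rw [PiLp.smul_apply]
  congr 1
  have : (∑ l, f l).ofLp = ∑ l, (f l).ofLp := map_sum (WithLp.linearEquiv 2 ℂ (J → V)) f _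
  rw [this, Finset.sum_apply]

theorem dsq_av {J : Type} [Fintype J] [DecidableEq J] (hJ : 3 ≤ Fintype.card J) {V : Type}
    [NormedAddCommGroup V] [InnerProductSpace ℂ V] (f : PiLp 2 (fun _ : J => V))
    (hf : ∑ j, f j = 0) : av (dsq_rho J V) f = 0 := by
  have htr : MulAction.IsPretransitive (alternatingGroup J) J :=
    alternatingGroup.isPretransitive_of_three_le_card J (by rw [Nat.card_eq_fintype_card]; exact hJ)
  have h1 : ∀ j, (av (dsq_rho J V) f) j =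
      ((Fintype.card (alternatingGroup J) : ℂ))⁻¹ • ∑ σ : alternatingGroup J, f ((σ⁻¹).1 j) := by
    intro j
    rw [av_apply, dsq_avg]
    rfl
  have h2 : ∀ (τ : alternatingGroup J) (j : J), ∑ σ : alternatingGroup J, f ((σ⁻¹).1 (τ.1 j)) =
      ∑ σ : alternatingGroup J, f ((σ⁻¹).1 j) := by
    intro τ j
    refine Fintype.sum_equiv (Equiv.mulLeft τ⁻¹) _ _ fun σ => ?_
    have h7 : ((Equiv.mulLeft τ⁻¹ σ)⁻¹).1 j = (σ⁻¹).1 (τ.1 j) := by
      rw [Equiv.coe_mulLeft, mul_inv_rev, inv_inv]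
      rfl
    rw [h7]
  have h3 : ∀ i j : J, ∑ σ : alternatingGroup J, f ((σ⁻¹).1 i) =
      ∑ σ : alternatingGroup J, f ((σ⁻¹).1 j) := by
    intro i j
    obtain ⟨τ, hτ⟩ := MulAction.exists_smul_eq (alternatingGroup J) j i
    have : i = τ.1 j := hτ.symm
    rw [this]
    exact h2 τ j
  have h4 : ∑ j : J, ∑ σ : alternatingGroup J, f ((σ⁻¹).1 j) = 0 := by
    rw [Finset.sum_comm]
    refine Finset.sum_eq_zero fun σ _ => ?_
    rw [← hf]
    exact Fintype.sum_equiv (σ⁻¹).1 _ _ fun _ => rfl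
  have h5 : ∀ j : J, ∑ σ : alternatingGroup J, f ((σ⁻¹).1 j) = 0 := by
    intro j
    have h6 : ∑ i : J, ∑ σ : alternatingGroup J, f ((σ⁻¹).1 i) =
        ∑ _i : J, ∑ σ : alternatingGroup J, f ((σ⁻¹).1 j) :=
      Finset.sum_congr rfl fun i _ => h3 i j
    rw [h4, Finset.sum_const, Finset.card_univ, ← Nat.cast_smul_eq_nsmul ℂ] at h6
    rcases smul_eq_zero.mp h6.symm with h7 | h7
    · have : Fintype.card J = 0 := by exact_mod_cast h7
      omega
    · exact h7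
  ext j
  rw [h1, h5, smul_zero]
  rfl

/-- Averages over a list of even permutations: if `π` is a list of elements of the alternating
group of `J` with `Mix π mu`, then for every function `F : J → V` with values in a finite
dimensional space the averages `HF j` of `F` along the list satisfy
`∑ j, ‖HF j - m‖ ^ 2 ≤ mu ^ 2 * ∑ j, ‖F j - m‖ ^ 2`, `m` the mean of `F`.

Proof. Apply `hπ` to the representation of `alternatingGroup J` on `PiLp 2 (fun _ : J => V)`,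
`(σ F) j = F (σ⁻¹ j)` (`LinearIsometryEquiv.piLpCongrLeft`, as in `kze_rho`), and to the vector
`F - m`. Its average over the group is zero because the group is transitive on `J`
(`3 ≤ card J`; `alternatingGroup.isPretransitive` or 3-cycles): the average of `F (σ⁻¹ j)` over
the group does not depend on `j`, hence is the mean. -/
theorem perm_mix {J L : Type} [Fintype J] [DecidableEq J] [Fintype L] [Nonempty L]
    (π : L → alternatingGroup J) {mu : ℝ} (hπ : Mix π mu) (hmu : 0 ≤ mu)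
    (hJ : 3 ≤ Fintype.card J)
    {V : Type} [NormedAddCommGroup V] [InnerProductSpace ℂ V] [FiniteDimensional ℂ V]
    (F : J → V) (m : V) (hm : m = ((Fintype.card J : ℂ))⁻¹ • ∑ j, F j) :
    ∑ j, ‖((Fintype.card L : ℂ))⁻¹ • (∑ l, F (((π l)⁻¹).1 j)) - m‖ ^ 2 ≤
      mu ^ 2 * ∑ j, ‖F j - m‖ ^ 2 := by
  have hJ0 : (Fintype.card J : ℂ) ≠ 0 := by
    have : Fintype.card J ≠ 0 := by omega
    exact_mod_cast this
  have hL0 : (Fintype.card L : ℂ) ≠ 0 := by
    exact_mod_cast Fintype.card_ne_zero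
  obtain ⟨f, hf⟩ : ∃ f : PiLp 2 (fun _ : J => V), f = WithLp.toLp 2 (fun j => F j - m) :=
    ⟨_, rfl⟩
  have hfj : ∀ j, f j = F j - m := fun j => by rw [hf]
  have h0 : ∑ j, f j = 0 := by
    rw [Finset.sum_congr rfl fun j _ => hfj j, Finset.sum_sub_distrib, Finset.sum_const,
      Finset.card_univ, ← Nat.cast_smul_eq_nsmul ℂ, hm, smul_smul, mul_inv_cancel₀ hJ0, one_smul,
      sub_self]
  have h1 := hπ (PiLp 2 (fun _ : J => V)) (dsq_rho J V) f (dsq_av hJ f h0)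
  have h2 := pow_le_pow_left₀ (norm_nonneg _) h1 2
  rw [mul_pow, PiLp.norm_sq_eq_of_L2, PiLp.norm_sq_eq_of_L2] at h2
  refine le_trans (le_of_eq ?_) (h2.trans (le_of_eq ?_))
  · refine Finset.sum_congr rfl fun j _ => ?_
    rw [dsq_avg]
    congr 2
    have h3 : ∀ l, dsq_rho J V (π l) f j = F (((π l)⁻¹).1 j) - m := fun l => by
      rw [dsq_rho_apply, hfj]
    rw [Finset.sum_congr rfl fun l _ => h3 l, Finset.sum_sub_distrib, smul_sub,
      Finset.sum_const, Finset.card_univ, ← Nat.cast_smul_eq_nsmul ℂ, smul_smul,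
      inv_mul_cancel₀ hL0, one_smul]
  · congr 1
    exact Finset.sum_congr rfl fun j _ => by rw [hfj]

theorem dsq_av_rho {G : Type} [Group G] [Fintype G] {V : Type} [NormedAddCommGroup V]
    [InnerProductSpace ℂ V] (ρ : G →* (V ≃ₗᵢ[ℂ] V)) (g : G) (v : V) :
    av ρ (ρ g v) = av ρ v := by
  rw [av_apply, av_apply]
  congr 1
  exact Fintype.sum_equiv (Equiv.mulRight g) _ _ (fun x => by
    rw [Equiv.coe_mulRight, map_mul]
    rfl)

theorem dsq_cs {J : Type} [Fintype J] [Nonempty J] {V : Type} [NormedAddCommGroup V]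
    [InnerProductSpace ℂ V] (c : J → V) {r : ℝ} (hr : 0 ≤ r)
    (h : ∑ j, ‖c j‖ ^ 2 ≤ (Fintype.card J : ℝ) * r ^ 2) :
    ‖((Fintype.card J : ℂ))⁻¹ • ∑ j, c j‖ ≤ r := by
  have hJ : (0 : ℝ) < (Fintype.card J : ℝ) := by exact_mod_cast Fintype.card_pos
  rw [norm_smul, norm_inv, Complex.norm_natCast, inv_mul_le_iff₀ hJ]
  have h1 : ‖∑ j, c j‖ ≤ ∑ j, ‖c j‖ := norm_sum_le _ _
  refine h1.trans (abs_le_of_sq_le_sq' ?_ (by positivity)).2
  have h2 := sq_sum_le_card_mul_sum_sq (s := (Finset.univ : Finset J)) (f := fun j => ‖c j‖)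
  rw [Finset.card_univ] at h2
  refine h2.trans ?_
  rw [mul_pow, pow_two (Fintype.card J : ℝ), mul_assoc]
  exact mul_le_mul_of_nonneg_left h hJ.le

/-- Derandomized squaring.

Proof. Let `A u` be the average of the `ρ (y j) u`, `F j = ρ (y j) v`, `m = A v` the mean of `F`
and `HF j` as in `perm_mix`. The average over `(j, l)` is the average over `j` of
`ρ (y j) (HF j)`. Put `C j = m + mu⁻¹ • (HF j - m)`, so `HF j = (1 - mu) • m + mu • C j` and the
average is `(1 - mu) • A (A v) + mu • (average of ρ (y j) (C j))`. Here `‖A (A v)‖ ≤ lam ^ 2 ‖v‖`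
(the average over the group of `A v` is zero) and `∑ j, ‖C j‖ ^ 2 = card J * ‖m‖ ^ 2 +
mu⁻¹ ^ 2 * ∑ j, ‖HF j - m‖ ^ 2` (the mean of `HF` is `m`: reindex the sum over `j` by
`(π l)⁻¹`) `≤ card J * ‖m‖ ^ 2 + ∑ j, ‖F j - m‖ ^ 2 = ∑ j, ‖F j‖ ^ 2 = card J * ‖v‖ ^ 2`, so the
norm of the average of the `ρ (y j) (C j)` is at most `‖v‖` (Cauchy-Schwarz). -/
theorem mix_dsq {G : Type} [Group G] [Fintype G] {J L : Type} [Fintype J] [DecidableEq J]
    [Fintype L] [Nonempty L] {y : J → G} {lam mu : ℝ} (hlam : 0 ≤ lam) (hy : Mix y lam)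
    (hmu : 0 < mu) (hmu1 : mu ≤ 1) (π : L → alternatingGroup J) (hπ : Mix π mu)
    (hJ : 3 ≤ Fintype.card J) :
    Mix (fun p : J × L => y p.1 * y (((π p.2)⁻¹).1 p.1)) ((1 - mu) * lam ^ 2 + mu) := by
  intro V _ _ _ ρ v hv
  have hJ0 : Fintype.card J ≠ 0 := by omega
  have hJ1 : (Fintype.card J : ℂ) ≠ 0 := by exact_mod_cast hJ0
  have hL1 : (Fintype.card L : ℂ) ≠ 0 := by exact_mod_cast Fintype.card_ne_zero
  have : Nonempty J := Fintype.card_pos_iff.mp (Nat.pos_of_ne_zero hJ0)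
  obtain ⟨F, hF⟩ : ∃ F : J → V, F = fun j => ρ (y j) v := ⟨_, rfl⟩
  obtain ⟨m, hm⟩ : ∃ m : V, m = ((Fintype.card J : ℂ))⁻¹ • ∑ j, F j := ⟨_, rfl⟩
  obtain ⟨H, hH⟩ : ∃ H : J → V,
      H = fun j => ((Fintype.card L : ℂ))⁻¹ • ∑ l, F (((π l)⁻¹).1 j) := ⟨_, rfl⟩
  have hFn : ∀ j, ‖F j‖ = ‖v‖ := fun j => by
    rw [hF]
    exact LinearIsometryEquiv.norm_map _ _
  have hsF : ∑ j, F j = (Fintype.card J : ℂ) • m := by
    rw [hm, smul_smul, mul_inv_cancel₀ hJ1, one_smul]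
  have hsH : ∑ j, H j = (Fintype.card J : ℂ) • m := by
    rw [hH, ← Finset.smul_sum, Finset.sum_comm]
    have h1 : ∀ l : L, ∑ j, F (((π l)⁻¹).1 j) = (Fintype.card J : ℂ) • m := fun l => by
      rw [← hsF]
      exact Fintype.sum_equiv ((π l)⁻¹).1 _ _ fun _ => rfl
    rw [Finset.sum_congr rfl fun l _ => h1 l, Finset.sum_const, Finset.card_univ,
      ← Nat.cast_smul_eq_nsmul ℂ, smul_smul, inv_mul_cancel₀ hL1, one_smul]
  have hsub : ∀ K : J → V, ∑ j, K j = (Fintype.card J : ℂ) • m → ∑ j, (K j - m) = 0 := by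
    intro K hK
    rw [Finset.sum_sub_distrib, hK, Finset.sum_const, Finset.card_univ,
      ← Nat.cast_smul_eq_nsmul ℂ, sub_self]
  have hPF := dsq_pyth m (fun j => F j - m) (hsub F hsF)
  have hPF' : ∑ j, ‖m + (F j - m)‖ ^ 2 = (Fintype.card J : ℝ) * ‖v‖ ^ 2 := by
    have h1 : ∀ j, ‖m + (F j - m)‖ ^ 2 = ‖v‖ ^ 2 := fun j => by
      rw [add_sub_cancel, hFn]
    rw [Finset.sum_congr rfl fun j _ => h1 j, Finset.sum_const, Finset.card_univ,
      nsmul_eq_mul]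
  rw [hPF'] at hPF
  have hmuc : (mu : ℂ) ≠ 0 := by exact_mod_cast hmu.ne'
  obtain ⟨C, hC⟩ : ∃ C : J → V, C = fun j => m + ((mu : ℂ))⁻¹ • (H j - m) := ⟨_, rfl⟩
  have hHC : ∀ j, H j = (((1 - mu : ℝ)) : ℂ) • m + (mu : ℂ) • C j := fun j => by
    rw [hC]
    change H j = (((1 - mu : ℝ)) : ℂ) • m + (mu : ℂ) • (m + ((mu : ℂ))⁻¹ • (H j - m))
    rw [smul_add, smul_smul, mul_inv_cancel₀ hmuc, one_smul, Complex.ofReal_sub,
      Complex.ofReal_one, sub_smul, one_smul]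
    abel
  have hPC := dsq_pyth m (fun j => ((mu : ℂ))⁻¹ • (H j - m)) (by
    rw [← Finset.smul_sum, hsub H hsH, smul_zero])
  have hmix := perm_mix π hπ hmu.le hJ F m hm
  have hCs : ∑ j, ‖C j‖ ^ 2 ≤ (Fintype.card J : ℝ) * ‖v‖ ^ 2 := by
    rw [hC, hPC, hPF]
    refine add_le_add le_rfl ?_
    have h1 : ∀ j, ‖((mu : ℂ))⁻¹ • (H j - m)‖ ^ 2 = (mu ^ 2)⁻¹ * ‖H j - m‖ ^ 2 := fun j => by
      rw [norm_smul, norm_inv, Complex.norm_real, Real.norm_of_nonneg hmu.le, mul_pow, inv_pow]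
    rw [Finset.sum_congr rfl fun j _ => h1 j, ← Finset.mul_sum,
      inv_mul_le_iff₀ (by positivity)]
    rw [hH]
    exact hmix
  have hCa : ‖((Fintype.card J : ℂ))⁻¹ • ∑ j, ρ (y j) (C j)‖ ≤ ‖v‖ := by
    refine dsq_cs _ (norm_nonneg _) (le_trans (le_of_eq ?_) hCs)
    exact Finset.sum_congr rfl fun j _ => by rw [LinearIsometryEquiv.norm_map]
  have hm1 : ‖m‖ ≤ lam * ‖v‖ := by
    have := hy V ρ v hv
    rw [hm, hF]
    exact this
  have hm0 : av ρ m = 0 := by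
    rw [hm, map_smul, map_sum]
    have h1 : ∀ j, av ρ (F j) = 0 := fun j => by
      rw [hF]
      change av ρ (ρ (y j) v) = 0
      rw [dsq_av_rho, hv]
    rw [Finset.sum_congr rfl fun j _ => h1 j, Finset.sum_const_zero, smul_zero]
  have hm2 : ‖((Fintype.card J : ℂ))⁻¹ • ∑ j, ρ (y j) m‖ ≤ lam * ‖m‖ := hy V ρ m hm0
  have hkey : ((Fintype.card (J × L) : ℂ))⁻¹ •
      ∑ p : J × L, ρ (y p.1 * y (((π p.2)⁻¹).1 p.1)) v =
      (((1 - mu : ℝ)) : ℂ) • (((Fintype.card J : ℂ))⁻¹ • ∑ j, ρ (y j) m) +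
        (mu : ℂ) • (((Fintype.card J : ℂ))⁻¹ • ∑ j, ρ (y j) (C j)) := by
    have h1 : ∀ j, ρ (y j) (H j) =
        ((Fintype.card L : ℂ))⁻¹ • ∑ l, ρ (y j * y (((π l)⁻¹).1 j)) v := by
      intro j
      rw [hH]
      change ρ (y j) (((Fintype.card L : ℂ))⁻¹ • ∑ l, F (((π l)⁻¹).1 j)) = _
      rw [map_smul, map_sum]
      congr 1
      refine Finset.sum_congr rfl fun l _ => ?_
      rw [hF, map_mul]
      rfl
    have h2 : ∀ j, ρ (y j) (H j) = (((1 - mu : ℝ)) : ℂ) • ρ (y j) m +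
        (mu : ℂ) • ρ (y j) (C j) := by
      intro j
      rw [hHC, map_add, map_smul, map_smul]
    have h3 : ((Fintype.card (J × L) : ℂ))⁻¹ •
        ∑ p : J × L, ρ (y p.1 * y (((π p.2)⁻¹).1 p.1)) v =
        ((Fintype.card J : ℂ))⁻¹ • ∑ j, ρ (y j) (H j) := by
      rw [Finset.sum_congr rfl fun j _ => h1 j, ← Finset.smul_sum, Fintype.sum_prod_type,
        Fintype.card_prod, Nat.cast_mul, mul_inv, mul_smul]
    rw [h3, Finset.sum_congr rfl fun j _ => h2 j, Finset.sum_add_distrib, ← Finset.smul_sum,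
      ← Finset.smul_sum, smul_add, smul_comm, smul_comm ((Fintype.card J : ℂ))⁻¹ (mu : ℂ)]
  rw [hkey]
  refine (norm_add_le _ _).trans ?_
  have e1 : ∀ (t : ℝ) (x : V), 0 ≤ t → ‖(t : ℂ) • x‖ = t * ‖x‖ := fun t x ht => by
    rw [norm_smul, Complex.norm_real, Real.norm_of_nonneg ht]
  rw [e1 _ _ (sub_nonneg.mpr hmu1), e1 _ _ hmu.le]
  have h5 : ‖((Fintype.card J : ℂ))⁻¹ • ∑ j, ρ (y j) m‖ ≤ lam ^ 2 * ‖v‖ := by
    refine hm2.trans ?_
    rw [pow_two, mul_assoc]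
    exact mul_le_mul_of_nonneg_left hm1 hlam
  have h6 := mul_le_mul_of_nonneg_left h5 (sub_nonneg.mpr hmu1)
  have h7 := mul_le_mul_of_nonneg_left hCa hmu.le
  linarith

end Pool.Agent.MPfe8e9bW
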