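import Mathlib
import Pool.Agent.Lib.MP_fe8e9b_al_W.Defs
import Pool.Agent.Lib.MP_fe8e9b_al_W.MixOps
import Pool.Agent.Lib.MP_fe8e9b_al_W.Mix0
import Pool.Agent.Lib.MP_fe8e9b_al_W.Dsq
import Pool.Agent.Lib.MP_fe8e9b_al_W.AltMix

/-!
# MP_fe8e9b_al, wreath towers: lists of polynomial length
-/

set_option autoImplicit false

open scoped BigOperators

namespace Pool.Agent.MPfe8e9bW

open Pool.Agent.MPfe8e9b Pool.Agent.MPfe8e9bA

/-- Repeated derandomized squaring.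

Proof. Induction on `n`. For `n = 0`: `mix_zero`, then `Mix.rep` with `L = Fin 5` (so that the
list has at least five elements) and `Mix.mono`
(`1 - κ / (2 (k+1)^2) ≤ 1 - min (1/2) (κ / (2 (k+1)^2))`). Step: let `g` be the gap at `n`,
`0 < g ≤ 1/2`. `alt_mix` gives `π : Fin D₀ → alternatingGroup J` with `Mix π (1/10)` and
`mix_dsq` (with `mu = 1/10`, `lam = 1 - g`) a list on `J × Fin D₀` with
`(9/10) (1 - g)^2 + 1/10 = 1 - (9/10) (2 g - g^2) ≤ 1 - (27/20) g`, and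
`min (1/2) (g₀ (27/20)^(n+1)) ≤ (27/20) min (1/2) (g₀ (27/20)^n)`. -/
theorem mix_iter {D₀ : ℕ} (hD₀ : 0 < D₀) (hπ : ∀ (J : Type) [Fintype J] [DecidableEq J],
      5 ≤ Fintype.card J → ∃ π : Fin D₀ → alternatingGroup J, Mix π (1 / 10))
    {G : Type} [Group G] [Fintype G] {k : ℕ} {κ : ℝ} (hκ : 0 < κ) (hκ1 : κ ≤ 1)
    (h : Expd G k κ) (n : ℕ) :
    ∃ (J : Type) (_ : Fintype J) (y : J → G), 5 ≤ Fintype.card J ∧
      Fintype.card J = (k + 1) * 5 * D₀ ^ n ∧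
      Mix y (1 - min (1 / 2) (κ / (2 * ((k : ℝ) + 1) ^ 2) * (27 / 20) ^ n)) := by
  induction n with
  | zero =>
    obtain ⟨y, hy⟩ := mix_zero hκ.le hκ1 h
    refine ⟨Option (Fin k) × Fin 5, inferInstance, fun p => y p.1, ?_, ?_, ?_⟩
    · simp only [Fintype.card_prod, Fintype.card_option, Fintype.card_fin]
      omega
    · simp only [Fintype.card_prod, Fintype.card_option, Fintype.card_fin, pow_zero, mul_one]
    · refine (Mix.rep (L := Fin 5) hy).mono ?_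
      have h1 : min (1 / 2) (κ / (2 * ((k : ℝ) + 1) ^ 2) * (27 / 20) ^ 0) ≤
          κ / (2 * ((k : ℝ) + 1) ^ 2) := by
        rw [pow_zero, mul_one]
        exact min_le_right _ _
      linarith
  | succ n ih =>
    classical
    obtain ⟨J, iJ, y, h5, hcard, hy⟩ := ih
    obtain ⟨π, hπ1⟩ := hπ J h5
    have hg0 : 0 < κ / (2 * ((k : ℝ) + 1) ^ 2) := by positivity
    generalize κ / (2 * ((k : ℝ) + 1) ^ 2) = g0 at hy hg0 ⊢
    have hx : 0 < g0 * (27 / 20) ^ n := by positivity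
    have hg1 : g0 * (27 / 20) ^ (n + 1) = 27 / 20 * (g0 * (27 / 20) ^ n) := by ring
    rw [hg1]
    generalize g0 * (27 / 20) ^ n = x at hy hx ⊢
    have hm1 : min (1 / 2) x ≤ 1 / 2 := min_le_left _ _
    have hm2 : 0 < min (1 / 2) x := lt_min (by norm_num) hx
    have hm3 : min (1 / 2) (27 / 20 * x) ≤ 27 / 20 * min (1 / 2) x := by
      rcases le_total (1 / 2) x with h1 | h1
      · rw [min_eq_left h1]
        exact (min_le_left _ _).trans (by norm_num)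
      · rw [min_eq_right h1]
        exact min_le_right _ _
    haveI : Nonempty (Fin D₀) := ⟨⟨0, hD₀⟩⟩
    have h2 := mix_dsq (L := Fin D₀) (lam := 1 - min (1 / 2) x) (mu := 1 / 10) (by linarith) hy
      (by norm_num) (by norm_num) π hπ1 (by omega)
    refine ⟨J × Fin D₀, inferInstance, _, ?_, ?_, h2.mono ?_⟩
    · rw [Fintype.card_prod, Fintype.card_fin]
      exact h5.trans (Nat.le_mul_of_pos_right _ hD₀)
    · rw [Fintype.card_prod, Fintype.card_fin, hcard, pow_succ]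
      ring
    · generalize min (1 / 2) x = g at hm1 hm2 hm3 ⊢
      nlinarith [mul_nonneg hm2.le (sub_nonneg.2 hm1)]

/-- Lists of polynomial length.

Proof. Let `k + 1 ≤ κ * 2 ^ c`, `κ ≤ 1`, so `k + 1 ≤ 2 ^ c` and
`κ / (2 (k+1)^2) ≥ 1 / (2 * 2 ^ c * 2 ^ c)`. Take `n = 6 c` in `mix_iter`: `(27/20)^3 ≥ 2`, so
`(27/20)^(6c) ≥ 4 ^ c` and the minimum is `1/2`: a list with `lam = 1/2` and at most
`2 ^ c * 5 * D₀ ^ (6 c)` elements. Its seventh power (`Mix.pow`) has `(1/2)^7 ≤ 1/100` and at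
most `(2 ^ c * 5 * D₀ ^ (6 c)) ^ 7 ≤ 2 ^ (7 (c + 3 + 6 c D₀)) ≤ 2 ^ (C (c + 1))` elements
(`D₀ ≤ 2 ^ D₀`), `C = 7 * (4 + 6 D₀)`. Finally `Mix.fin`. -/
theorem mix_cost : ∃ C : ℕ, ∀ (c : ℕ) (G : Type) [Group G] [Fintype G], Cost c G →
    ∃ (q : ℕ) (y : Fin q → G), 0 < q ∧ q ≤ 2 ^ (C * (c + 1)) ∧ Mix y (1 / 100) := by
  obtain ⟨D₀, hD₀, hπ⟩ := alt_mix
  refine ⟨7 * (4 + 6 * D₀), fun c G _ _ hc => ?_⟩
  obtain ⟨k, κ, hκ, hκ1, hk, hF⟩ := hc
  obtain ⟨J, iJ, y, h5, hcard, hy⟩ := mix_iter hD₀ hπ hκ hκ1 hF.expd (6 * c)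
  have h2c : (0 : ℝ) < 2 ^ c := by positivity
  have hk0 : (0 : ℝ) < (k : ℝ) + 1 := by positivity
  have hk1 : (k : ℝ) + 1 ≤ 2 ^ c := hk.trans (mul_le_of_le_one_left h2c.le hκ1)
  have hmin : min (1 / 2) (κ / (2 * ((k : ℝ) + 1) ^ 2) * (27 / 20) ^ (6 * c)) = 1 / 2 := by
    apply min_eq_left
    have h1 : (4 : ℝ) ^ c ≤ (27 / 20) ^ (6 * c) := by
      rw [pow_mul]
      exact pow_le_pow_left₀ (by norm_num) (by norm_num) c
    have h4 : (4 : ℝ) ^ c = 2 ^ c * 2 ^ c := by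
      rw [← mul_pow]
      norm_num
    have h3 : 1 / (2 * (4 : ℝ) ^ c) ≤ κ / (2 * ((k : ℝ) + 1) ^ 2) := by
      rw [div_le_div_iff₀ (by positivity) (by positivity), h4]
      have h5 : ((k : ℝ) + 1) * ((k : ℝ) + 1) ≤ (κ * 2 ^ c) * 2 ^ c :=
        mul_le_mul hk hk1 hk0.le (by positivity)
      nlinarith
    have h6 : 1 / (2 * (4 : ℝ) ^ c) * 4 ^ c = 1 / 2 := by
      field_simp
    calc (1 : ℝ) / 2 = 1 / (2 * (4 : ℝ) ^ c) * 4 ^ c := h6.symm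
      _ ≤ κ / (2 * ((k : ℝ) + 1) ^ 2) * (27 / 20) ^ (6 * c) :=
        mul_le_mul h3 h1 (by positivity) (by positivity)
  rw [hmin] at hy
  obtain ⟨J', iJ', z, hz1, hz2⟩ := Mix.pow (by norm_num) hy 7
  obtain ⟨w, hw⟩ := Mix.fin (hz2.mono (η' := 1 / 100) (by norm_num))
  refine ⟨Fintype.card J', w, ?_, ?_, hw⟩
  · rw [hz1]
    exact pow_pos (by omega) 7
  · have hkn : k + 1 ≤ 2 ^ c := by exact_mod_cast hk1
    have hD : D₀ ^ (6 * c) ≤ 2 ^ (D₀ * (6 * c)) := by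
      rw [pow_mul 2 D₀ (6 * c)]
      exact Nat.pow_le_pow_left (Nat.lt_two_pow_self).le _
    have hb : Fintype.card J ≤ 2 ^ c * 2 ^ 3 * 2 ^ (D₀ * (6 * c)) := by
      rw [hcard]
      exact Nat.mul_le_mul (Nat.mul_le_mul hkn (by norm_num)) hD
    rw [hz1]
    calc Fintype.card J ^ 7 ≤ (2 ^ c * 2 ^ 3 * 2 ^ (D₀ * (6 * c))) ^ 7 :=
          Nat.pow_le_pow_left hb 7
      _ = 2 ^ ((c + 3 + D₀ * (6 * c)) * 7) := by
          rw [← pow_add, ← pow_add, ← pow_mul]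
      _ ≤ 2 ^ (7 * (4 + 6 * D₀) * (c + 1)) := by
          apply Nat.pow_le_pow_right (by norm_num)
          nlinarith [Nat.zero_le (D₀ * c), Nat.zero_le D₀, Nat.zero_le c]

end Pool.Agent.MPfe8e9bW
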