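import Mathlib
import Pool.Agent.Lib.MP_fe8e9b_al_W.Defs

/-!
# MP_fe8e9b_al, wreath towers: decomposition along commuting normal subgroups
-/

set_option autoImplicit false

open scoped BigOperators

namespace Pool.Agent.MPfe8e9bW

open Pool.Agent.MPfe8e9b Pool.Agent.MPfe8e9bA

theorem dec_comm {M : Type} [Group M] {H : Type} [Group H] [Fintype H] (φ : H →* M)
    (hn : ∀ (m : M), ∃ e : H ≃ H, ∀ h, m * φ h = φ (e h) * m)
    {V : Type} [NormedAddCommGroup V] [InnerProductSpace ℂ V]
    (ρ : M →* (V ≃ₗᵢ[ℂ] V)) (m : M) (v : V) :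
    ρ m (av (ρ.comp φ) v) = av (ρ.comp φ) (ρ m v) := by
  obtain ⟨e, he⟩ := hn m
  refine av_comm (ρ.comp φ) (ρ m) e (fun h w => ?_) v
  have h1 : ρ (m * φ h) w = ρ (φ (e h) * m) w := by rw [he h]
  rw [map_mul, map_mul] at h1
  exact h1

theorem dec_comm2 {M : Type} [Group M] {H H' : Type} [Group H] [Fintype H] [Group H']
    [Fintype H'] (φ : H →* M) (φ' : H' →* M)
    (hn : ∀ (m : M), ∃ e : H ≃ H, ∀ h, m * φ h = φ (e h) * m)
    {V : Type} [NormedAddCommGroup V] [InnerProductSpace ℂ V]
    (ρ : M →* (V ≃ₗᵢ[ℂ] V)) (v : V) :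
    av (ρ.comp φ') (av (ρ.comp φ) v) = av (ρ.comp φ) (av (ρ.comp φ') v) := by
  rw [av_apply (ρ.comp φ'), av_apply (ρ.comp φ') v, map_smul, map_sum]
  congr 1
  exact Finset.sum_congr rfl (fun x _ => dec_comm φ hn ρ (φ' x) v)

theorem dec_pyth {H : Type} [Group H] [Fintype H]
    {V : Type} [NormedAddCommGroup V] [InnerProductSpace ℂ V]
    (ρ : H →* (V ≃ₗᵢ[ℂ] V)) (v : V) :
    ‖v‖ ^ 2 = ‖av ρ v‖ ^ 2 + ‖v - av ρ v‖ ^ 2 := by
  have h0 : inner ℂ (av ρ v) (v - av ρ v) = 0 := by
    rw [av_symm ρ v (v - av ρ v), map_sub, av_idem, sub_self, inner_zero_right]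
  have h1 := norm_add_sq_eq_norm_sq_add_norm_sq_of_inner_eq_zero (av ρ v) (v - av ρ v) h0
  rw [add_sub_cancel] at h1
  simpa only [_root_.sq] using h1

/-- An inequality for the vectors killed by one of the averages gives the inequality for all
vectors with average zero.

Proof. Let `E s = av (ρ.comp (φ s))`. By `hn` and `av_comm` every `E s` commutes with all `ρ m`,
hence with the other `E s'`; `E s` is symmetric and idempotent (`av_symm`, `av_idem`). Show by
induction on the finite set `S` of indices: every `v` with `av ρ v = 0` and `E s v = v` for all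
`s ∉ S` satisfies the inequality. For `S = ∅` the vector `v` is fixed by the images of all `φ s`,
hence by `M` (`hgen`), so `v = av ρ v = 0`. For `insert s S`: `v = a + b`, `a = E s v`,
`b = v - E s v`. The vector `a` satisfies the conditions for `S` (`av ρ a = av ρ v = 0`) and `b` is
killed by `E s`, so `h s b` applies. `‖v‖ ^ 2 = ‖a‖ ^ 2 + ‖b‖ ^ 2` and, for `m ∈ M`,
`ρ m a - a = E s (ρ m v - v)`, `ρ m b - b = (ρ m v - v) - E s (ρ m v - v)`, so
`‖ρ m v - v‖ ^ 2 = ‖ρ m a - a‖ ^ 2 + ‖ρ m b - b‖ ^ 2`. Finally `S = univ`. -/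
theorem dec {M : Type} [Group M] [Fintype M] {K : Type} [Finite K] (H : K → Type)
    [∀ s, Group (H s)] [∀ s, Fintype (H s)] (φ : ∀ s, H s →* M)
    (hn : ∀ s (m : M), ∃ e : H s ≃ H s, ∀ h, m * φ s h = φ s (e h) * m)
    (hgen : ∀ Q : Subgroup M, (∀ s h, φ s h ∈ Q) → Q = ⊤)
    {L : Type} [Fintype L] (m : L → M) (C : ℝ) (hC : 0 ≤ C)
    {V : Type} [NormedAddCommGroup V] [InnerProductSpace ℂ V] [FiniteDimensional ℂ V]
    (ρ : M →* (V ≃ₗᵢ[ℂ] V))
    (h : ∀ s v, av (ρ.comp (φ s)) v = 0 → ‖v‖ ^ 2 ≤ C * ∑ l, ‖ρ (m l) v - v‖ ^ 2)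
    (v : V) (hv : av ρ v = 0) : ‖v‖ ^ 2 ≤ C * ∑ l, ‖ρ (m l) v - v‖ ^ 2 := by
  classical
  have instK : Fintype K := Fintype.ofFinite K
  have key : ∀ (S : Finset K) (v : V), av ρ v = 0 →
      (∀ s, s ∉ S → av (ρ.comp (φ s)) v = v) →
      ‖v‖ ^ 2 ≤ C * ∑ l, ‖ρ (m l) v - v‖ ^ 2 := by
    intro S
    induction S using Finset.induction_on with
    | empty =>
      intro v hv hs
      have hfix : ∀ s x, ρ (φ s x) v = v := fun s x =>
        (av_eq_iff (ρ.comp (φ s))).1 (hs s (Finset.notMem_empty s)) x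
      let Q : Subgroup M :=
        { carrier := {g | ρ g v = v}
          mul_mem' := by
            intro a b ha hb
            change ρ (a * b) v = v
            rw [map_mul]
            change ρ a (ρ b v) = v
            rw [show ρ b v = v from hb]
            exact ha
          one_mem' := by
            change ρ 1 v = v
            rw [map_one]
            rfl
          inv_mem' := by
            intro a ha
            change ρ a⁻¹ v = v
            have h1 : ρ a v = v := ha
            have h2 : ρ a⁻¹ (ρ a v) = v := by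
              have h3 : ρ a⁻¹ (ρ a v) = ρ (a⁻¹ * a) v := by
                rw [map_mul]
                rfl
              rw [h3, inv_mul_cancel, map_one]
              rfl
            rw [h1] at h2
            exact h2 }
      have hQ : Q = ⊤ := hgen Q (fun s x => hfix s x)
      have hall : ∀ g, ρ g v = v := by
        intro g
        have hg : g ∈ Q := by
          rw [hQ]
          exact Subgroup.mem_top g
        exact hg
      have hv0 : v = 0 := by
        rw [← av_of_fix ρ hall]
        exact hv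
      have hnn : 0 ≤ C * ∑ l, ‖ρ (m l) v - v‖ ^ 2 :=
        mul_nonneg hC (Finset.sum_nonneg (fun l _ => sq_nonneg _))
      have hz : ‖v‖ ^ 2 = 0 := by
        rw [hv0, norm_zero]
        norm_num
      rw [hz]
      exact hnn
    | insert s S hsS ih =>
      intro v hv hs
      have hcm : ∀ (g : M) (w : V),
          ρ g (av (ρ.comp (φ s)) w) = av (ρ.comp (φ s)) (ρ g w) :=
        fun g w => dec_comm (φ s) (hn s) ρ g w
      have ha0 : av ρ (av (ρ.comp (φ s)) v) = 0 := by
        have h1 : av ρ (av (ρ.comp (φ s)) v) = av (ρ.comp (φ s)) (av ρ v) := by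
          rw [av_apply ρ, av_apply ρ v, map_smul, map_sum]
          congr 1
          exact Finset.sum_congr rfl (fun x _ => hcm x v)
        rw [h1, hv, map_zero]
      have haE : ∀ t, t ∉ S →
          av (ρ.comp (φ t)) (av (ρ.comp (φ s)) v) = av (ρ.comp (φ s)) v := by
        intro t ht
        by_cases hts : t = s
        · subst hts
          exact av_idem _ v
        · rw [dec_comm2 (φ s) (φ t) (hn s) ρ v, hs t (by
            rw [Finset.mem_insert, not_or]
            exact ⟨hts, ht⟩)]
      have hA := ih (av (ρ.comp (φ s)) v) ha0 haE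
      have hb0 : av (ρ.comp (φ s)) (v - av (ρ.comp (φ s)) v) = 0 := by
        rw [map_sub, av_idem, sub_self]
      have hB := h s (v - av (ρ.comp (φ s)) v) hb0
      have hsum : ∑ l, ‖ρ (m l) v - v‖ ^ 2 =
          ∑ l, ‖ρ (m l) (av (ρ.comp (φ s)) v) - av (ρ.comp (φ s)) v‖ ^ 2 +
          ∑ l, ‖ρ (m l) (v - av (ρ.comp (φ s)) v) - (v - av (ρ.comp (φ s)) v)‖ ^ 2 := by
        rw [← Finset.sum_add_distrib]
        refine Finset.sum_congr rfl (fun l _ => ?_)
        have h1 : ρ (m l) (av (ρ.comp (φ s)) v) - av (ρ.comp (φ s)) v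
            = av (ρ.comp (φ s)) (ρ (m l) v - v) := by
          rw [hcm, map_sub]
        have h2 : ρ (m l) (v - av (ρ.comp (φ s)) v) - (v - av (ρ.comp (φ s)) v)
            = (ρ (m l) v - v) - av (ρ.comp (φ s)) (ρ (m l) v - v) := by
          rw [map_sub (ρ (m l)), hcm, map_sub (av (ρ.comp (φ s)))]
          abel
        rw [h1, h2]
        exact dec_pyth (ρ.comp (φ s)) (ρ (m l) v - v)
      rw [dec_pyth (ρ.comp (φ s)) v, hsum, mul_add]
      exact add_le_add hA hB
  exact key Finset.univ v hv (fun s hs => absurd (Finset.mem_univ s) hs)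

/-- The hypotheses of `dec` for the coordinates of `∀ i, X i → G i`.

Proof. `m * sgl G i x a = sgl G i x (m i x * a * (m i x)⁻¹) * m`. -/
theorem sgl_normal {I : Type} {X : I → Type} (G : I → Type) [∀ i, Group (G i)] (i : I)
    (x : X i) (m : ∀ i, X i → G i) :
    ∃ e : G i ≃ G i, ∀ h, m * sgl G i x h = sgl G i x (e h) * m := by
  classical
  refine ⟨(MulAut.conj (m i x)).toEquiv, fun h => ?_⟩
  funext j y
  unfold sgl
  simp only [MonoidHom.comp_apply, MonoidHom.mulSingle_apply, Pi.mul_apply]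
  by_cases hj : j = i
  · subst hj
    rw [Pi.mulSingle_eq_same, Pi.mulSingle_eq_same]
    by_cases hy : y = x
    · subst hy
      rw [Pi.mulSingle_eq_same, Pi.mulSingle_eq_same]
      simp
    · rw [Pi.mulSingle_eq_of_ne hy, Pi.mulSingle_eq_of_ne hy, mul_one, one_mul]
  · rw [Pi.mulSingle_eq_of_ne hj, Pi.mulSingle_eq_of_ne hj, Pi.one_apply, mul_one, one_mul]

/-- The coordinates generate.

Proof. An element `m` is the product of the elements `sgl G i x (m i x)` over the finite set
`Σ i, X i`; for instance `Pi` version of `Subgroup.closure`/`noncommPiCoprod`, or induction on the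
number of coordinates where `m` is not `1`. -/
theorem sgl_gen {I : Type} [Finite I] {X : I → Type} [∀ i, Finite (X i)] (G : I → Type)
    [∀ i, Group (G i)] (Q : Subgroup (∀ i, X i → G i)) (hQ : ∀ i x a, sgl G i x a ∈ Q) :
    Q = ⊤ := by
  classical
  rw [eq_top_iff]
  intro f _
  refine Subgroup.pi_mem_of_mulSingle_mem f (fun i => ?_)
  have h1 : f i ∈ Q.comap (MonoidHom.mulSingle (fun i => X i → G i) i) := by
    refine Subgroup.pi_mem_of_mulSingle_mem (f i) (fun x => ?_)
    rw [Subgroup.mem_comap]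
    have h2 := hQ i x (f i x)
    unfold sgl at h2
    convert h2 using 1
    simp only [MonoidHom.comp_apply, MonoidHom.mulSingle_apply]
  rw [Subgroup.mem_comap] at h1
  exact h1

end Pool.Agent.MPfe8e9bW
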