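import Mathlib
import Pool.Agent.Lib.MP_fe8e9b_al_W.Defs
import Pool.Agent.Lib.MP_fe8e9b_al_W.Rep1

/-!
# MP_fe8e9b_al, wreath towers: spectral gap of a semidirect product
-/

set_option autoImplicit false

open scoped BigOperators

namespace Pool.Agent.MPfe8e9bW

open Pool.Agent.MPfe8e9b Pool.Agent.MPfe8e9bA

section

variable {H : Type} [Group H] [Fintype H] {V : Type} [NormedAddCommGroup V]
  [InnerProductSpace ℂ V]

/-- Pythagoras for the average. -/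
theorem gapw_pyth (ρ : H →* (V ≃ₗᵢ[ℂ] V)) (v : V) :
    ‖v‖ ^ 2 = ‖av ρ v‖ ^ 2 + ‖v - av ρ v‖ ^ 2 := by
  have h1 : inner ℂ (av ρ v) (v - av ρ v) = 0 := by
    rw [av_symm ρ v (v - av ρ v), map_sub, av_idem, sub_self, inner_zero_right]
  have h2 := norm_add_sq_eq_norm_sq_add_norm_sq_of_inner_eq_zero _ _ h1
  rw [add_sub_cancel] at h2
  rw [pow_two, pow_two, pow_two]
  exact h2

/-- Pythagoras for the displacement by an isometry which commutes with the average. -/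
theorem gapw_pyth_disp (ρ : H →* (V ≃ₗᵢ[ℂ] V)) (T : V ≃ₗᵢ[ℂ] V)
    (hT : ∀ v, T (av ρ v) = av ρ (T v)) (v : V) :
    ‖T v - v‖ ^ 2 = ‖T (av ρ v) - av ρ v‖ ^ 2 +
      ‖T (v - av ρ v) - (v - av ρ v)‖ ^ 2 := by
  rw [gapw_pyth ρ (T v - v), map_sub (av ρ), ← hT]
  congr 3
  rw [map_sub]
  abel

/-- The average absorbs translations. -/
theorem gapw_av_rho (ρ : H →* (V ≃ₗᵢ[ℂ] V)) (y : H) (v : V) : av ρ (ρ y v) = av ρ v := by
  rw [av_apply, av_apply]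
  congr 1
  exact Fintype.sum_equiv (Equiv.mulRight y) _ _ (fun x => by
    simp only [Equiv.coe_mulRight, map_mul]
    rfl)

end

section

variable {M P : Type} [Group M] [Fintype M] [Group P] [Fintype P] {φ : P →* MulAut M}
  {V : Type} [NormedAddCommGroup V] [InnerProductSpace ℂ V]

theorem gapw_comm (ρ : (M ⋊[φ] P) →* (V ≃ₗᵢ[ℂ] V)) (g : P) (v : V) :
    ρ (SemidirectProduct.inr g) (av (ρ.comp SemidirectProduct.inl) v) =
      av (ρ.comp SemidirectProduct.inl) (ρ (SemidirectProduct.inr g) v) := by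
  refine av_comm (ρ.comp SemidirectProduct.inl) (ρ (SemidirectProduct.inr g)) (φ g).toEquiv
    (fun m v => ?_) v
  have h1 : (SemidirectProduct.inr g : M ⋊[φ] P) * SemidirectProduct.inl m =
      SemidirectProduct.inl (φ g m) * SemidirectProduct.inr g := by
    rw [SemidirectProduct.inl_aut, mul_assoc, ← map_mul, inv_mul_cancel, map_one, mul_one]
  have h2 : ρ (SemidirectProduct.inr g) (ρ (SemidirectProduct.inl m) v) =
      ρ ((SemidirectProduct.inr g : M ⋊[φ] P) * SemidirectProduct.inl m) v := by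
    rw [map_mul]
    rfl
  have h3 : ρ (SemidirectProduct.inl (φ g m)) (ρ (SemidirectProduct.inr g) v) =
      ρ ((SemidirectProduct.inl (φ g m) : M ⋊[φ] P) * SemidirectProduct.inr g) v := by
    rw [map_mul]
    rfl
  show ρ (SemidirectProduct.inr g) (ρ (SemidirectProduct.inl m) v) =
    ρ (SemidirectProduct.inl (φ g m)) (ρ (SemidirectProduct.inr g) v)
  rw [h2, h3, h1]

theorem gapw_comm_av (ρ : (M ⋊[φ] P) →* (V ≃ₗᵢ[ℂ] V)) (v : V) :
    av (ρ.comp SemidirectProduct.inr) (av (ρ.comp SemidirectProduct.inl) v) =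
      av (ρ.comp SemidirectProduct.inl) (av (ρ.comp SemidirectProduct.inr) v) := by
  rw [av_apply (ρ.comp SemidirectProduct.inr) v, map_smul, map_sum, av_apply]
  congr 1
  exact Finset.sum_congr rfl (fun g _ => gapw_comm ρ g v)

theorem gapw_av_av [Fintype (M ⋊[φ] P)] (ρ : (M ⋊[φ] P) →* (V ≃ₗᵢ[ℂ] V)) (v : V) :
    av (ρ.comp SemidirectProduct.inl) (av (ρ.comp SemidirectProduct.inr) v) = av ρ v := by
  have h1 : Fintype.card (M ⋊[φ] P) = Fintype.card M * Fintype.card P := by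
    rw [Fintype.card_congr SemidirectProduct.equivProd, Fintype.card_prod]
  have h2 : ∑ w : M ⋊[φ] P, ρ w v =
      ∑ m : M, ∑ g : P, ρ (SemidirectProduct.inl m) (ρ (SemidirectProduct.inr g) v) := by
    rw [← Fintype.sum_prod_type']
    refine Fintype.sum_equiv SemidirectProduct.equivProd _ _ (fun w => ?_)
    show ρ w v = ρ (SemidirectProduct.inl w.left) (ρ (SemidirectProduct.inr w.right) v)
    have h3 : ρ (SemidirectProduct.inl w.left) (ρ (SemidirectProduct.inr w.right) v) =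
        ρ (SemidirectProduct.inl w.left * SemidirectProduct.inr w.right) v := by
      rw [map_mul]
      rfl
    rw [h3, SemidirectProduct.inl_left_mul_inr_right]
  rw [av_apply ρ, h2, h1, av_apply (ρ.comp SemidirectProduct.inr) v, map_smul, map_sum]
  simp only [av_apply]
  rw [← Finset.smul_sum, smul_smul, Finset.sum_comm]
  congr 1
  push_cast
  rw [mul_inv, mul_comm]

/-- The numerical part. -/
theorem gapw_arith {C κ a u w d b A : ℝ} (hC : 0 ≤ C) (hκ : 0 < κ) (hκ1 : κ ≤ 1)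
    (hb : 0 ≤ b) (hd : 0 ≤ d) (hA : κ * d ^ 2 ≤ A) (hu : u ^ 2 = w ^ 2 + d ^ 2)
    (hw : w ^ 2 ≤ C * (b + 2 * d) ^ 2) {A' : ℝ} (ha : κ * a ^ 2 ≤ A') :
    κ / (8 * C + 1) * (a ^ 2 + u ^ 2) ≤ b ^ 2 + (A' + A) := by
  have h0 : (0 : ℝ) < 8 * C + 1 := by linarith
  have h1 : (b + 2 * d) ^ 2 ≤ 2 * b ^ 2 + 8 * d ^ 2 := by nlinarith [sq_nonneg (b - 2 * d)]
  have h2 : u ^ 2 ≤ 2 * C * b ^ 2 + (8 * C + 1) * d ^ 2 := by
    rw [hu]
    nlinarith [mul_le_mul_of_nonneg_left h1 hC]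
  rw [div_mul_eq_mul_div, div_le_iff₀ h0]
  have h3 : κ * u ^ 2 ≤ (b ^ 2 + A) * (8 * C + 1) := by
    have h4 : κ * u ^ 2 ≤ 2 * C * b ^ 2 * κ + (8 * C + 1) * (κ * d ^ 2) := by
      nlinarith [mul_le_mul_of_nonneg_left h2 hκ.le]
    have h5 : 2 * C * b ^ 2 * κ ≤ 2 * C * b ^ 2 := by
      have : 0 ≤ 2 * C * b ^ 2 := by positivity
      nlinarith
    have h6 : (8 * C + 1) * (κ * d ^ 2) ≤ (8 * C + 1) * A :=
      mul_le_mul_of_nonneg_left hA h0.le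
    have h7 : 0 ≤ C * b ^ 2 := by positivity
    nlinarith [sq_nonneg b]
  have h8 : κ * a ^ 2 ≤ A' * (8 * C + 1) := by
    have h9 : 0 ≤ A' := le_trans (by positivity) ha
    nlinarith [mul_nonneg h9 hC]
  nlinarith

end

/-- One vector `y` is enough if the average over `P` of its translates is good.

Proof. Let `s : Fin k → P` have the gap `κ`. Generators of `M ⋊ P`: `inr (s i)` and `inl y`. By
`gap_of_rep` it suffices to show for a representation `ρ` of `M ⋊ P` and `v` with `av ρ v = 0`: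
`κ / (8 C + 1) * ‖v‖ ^ 2 ≤ ∑ i, ‖ρ (inr (s i)) v - v‖ ^ 2 + ‖ρ (inl y) v - v‖ ^ 2`.
Let `E = av (ρ.comp inl)`, which commutes with all `ρ w` (`inl` has normal image, `av_comm`), and
`F = av (ρ.comp inr)`; `v = a + u`, `a = E v`, `u = v - E v`, orthogonal, and
`‖ρ w v - v‖ ^ 2 = ‖ρ w a - a‖ ^ 2 + ‖ρ w u - u‖ ^ 2` for all `w`.
* `F a = F (E v)` is fixed by `inl M` (`F` commutes with `E`) and by `inr P`, hence by everything,
  and its average is `av ρ v = 0`: `F a = 0`. So `gap_rep` for `ρ.comp inr` gives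
  `κ ‖a‖ ^ 2 ≤ ∑ i, ‖ρ (inr (s i)) a - a‖ ^ 2`.
* Let `w = F u`. `F (u - w) = 0`, so `κ ‖u - w‖ ^ 2 ≤ ∑ i, ‖ρ (inr (s i)) u - u‖ ^ 2 =: A`
  (`w` is fixed by `inr P`). `E w = F (E u) = 0`, so by `h` for `ρ.comp inl`:
  `‖w‖ ^ 2 ≤ C * (card P)⁻¹ * ∑ g, ‖ρ (inl (φ g y)) w - w‖ ^ 2 = C ‖ρ (inl y) w - w‖ ^ 2`, because
  `inl (φ g y) = inr g * inl y * inr g⁻¹` (`SemidirectProduct.inl_aut`) and `w` is fixed by
  `inr P`. And `‖ρ (inl y) w - w‖ ≤ ‖ρ (inl y) u - u‖ + 2 ‖u - w‖`. Hence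
  `‖u‖ ^ 2 = ‖w‖ ^ 2 + ‖u - w‖ ^ 2 ≤ 2 C ‖ρ (inl y) u - u‖ ^ 2 + (8 C + 1) ‖u - w‖ ^ 2` and
  `κ / (8 C + 1) * ‖u‖ ^ 2 ≤ ‖ρ (inl y) u - u‖ ^ 2 + A`
  (`2 C κ ≤ 8 C + 1` since `κ ≤ 1`). -/
theorem gap_semi {M P : Type} [Group M] [Fintype M] [Group P] [Fintype P] (φ : P →* MulAut M)
    (y : M) (C : ℝ) (hC : 0 ≤ C)
    (h : ∀ (V : Type) [NormedAddCommGroup V] [InnerProductSpace ℂ V] [FiniteDimensional ℂ V]
      (ρ : M →* (V ≃ₗᵢ[ℂ] V)) (v : V), av ρ v = 0 →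
      ‖v‖ ^ 2 ≤ C * (((Fintype.card P : ℝ))⁻¹ * ∑ g : P, ‖ρ (φ g y) v - v‖ ^ 2))
    {k : ℕ} {κ : ℝ} (hκ : 0 < κ) (hκ1 : κ ≤ 1) (hP : Expd P k κ) :
    FExpd (M ⋊[φ] P) (k + 1) (κ / (8 * C + 1)) := by
  classical
  obtain ⟨s, hs⟩ := hP
  refine ⟨Fintype.ofEquiv (M × P) SemidirectProduct.equivProd.symm, ?_⟩
  letI : Fintype (M ⋊[φ] P) := Fintype.ofEquiv (M × P) SemidirectProduct.equivProd.symm
  refine ⟨Fin.cons (SemidirectProduct.inl y) (fun i => SemidirectProduct.inr (s i)), ?_⟩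
  refine gap_of_rep (fun V _ _ _ ρ v hv => ?_)
  rw [Fin.sum_univ_succ]
  simp only [Fin.cons_zero, Fin.cons_succ]
  obtain ⟨ρM, hρM⟩ : ∃ r : M →* (V ≃ₗᵢ[ℂ] V), r = ρ.comp SemidirectProduct.inl := ⟨_, rfl⟩
  obtain ⟨ρP, hρP⟩ : ∃ r : P →* (V ≃ₗᵢ[ℂ] V), r = ρ.comp SemidirectProduct.inr := ⟨_, rfl⟩
  have eM : ∀ m x, ρ (SemidirectProduct.inl m) x = ρM m x := by
    intro m x
    rw [hρM]
    rfl
  have eP : ∀ g x, ρ (SemidirectProduct.inr g) x = ρP g x := by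
    intro g x
    rw [hρP]
    rfl
  have cE : ∀ g x, ρP g (av ρM x) = av ρM (ρP g x) := by
    intro g x
    rw [← eP, ← eP, hρM]
    exact gapw_comm ρ g x
  have cF : ∀ x, av ρP (av ρM x) = av ρM (av ρP x) := by
    intro x
    rw [hρM, hρP]
    exact gapw_comm_av ρ x
  have cA : av ρM (av ρP v) = 0 := by
    rw [hρM, hρP, gapw_av_av ρ v]
    exact hv
  have cy : ∀ x, ρM y (av ρM x) = av ρM (ρM y x) := by
    intro x
    rw [rho_av, gapw_av_rho]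
  obtain ⟨a, ha⟩ : ∃ a, a = av ρM v := ⟨_, rfl⟩
  obtain ⟨u, hu⟩ : ∃ u, u = v - av ρM v := ⟨_, rfl⟩
  have Fa : av ρP a = 0 := by rw [ha, cF, cA]
  have Eu : av ρM u = 0 := by rw [hu, map_sub, av_idem, sub_self]
  obtain ⟨w, hw⟩ : ∃ w, w = av ρP u := ⟨_, rfl⟩
  have Fuw : av ρP (u - w) = 0 := by rw [map_sub, hw, av_idem, sub_self]
  have Ew : av ρM w = 0 := by rw [hw, ← cF, Eu, map_zero]
  have fw : ∀ g, ρP g w = w := by
    intro g
    rw [hw]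
    exact rho_av ρP g u
  have g1 := gap_rep hs ρP a Fa
  have g2 := gap_rep hs ρP (u - w) Fuw
  have g3 : ∀ i, ‖ρP (s i) (u - w) - (u - w)‖ ^ 2 = ‖ρP (s i) u - u‖ ^ 2 := by
    intro i
    rw [map_sub, fw]
    congr 2
    abel
  simp only [g3] at g2
  have g4 := h V ρM w Ew
  have g5 : ∀ g : P, ‖ρM (φ g y) w - w‖ ^ 2 = ‖ρM y w - w‖ ^ 2 := by
    intro g
    have i1 : ρM (φ g y) w = ρP g (ρM y w) := by
      have i2 : (SemidirectProduct.inl (φ g y) : M ⋊[φ] P) =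
          SemidirectProduct.inr g * SemidirectProduct.inl y * SemidirectProduct.inr g⁻¹ :=
        SemidirectProduct.inl_aut g y
      have i3 : ρ (SemidirectProduct.inr g * SemidirectProduct.inl y *
          SemidirectProduct.inr g⁻¹) w = ρ (SemidirectProduct.inr g)
          (ρ (SemidirectProduct.inl y) (ρ (SemidirectProduct.inr g⁻¹) w)) := by
        rw [map_mul, map_mul]
        rfl
      rw [← eM, i2, i3, eP g⁻¹ w, fw, eM, eP]
    have i4 : ρP g (ρM y w) - w = ρP g (ρM y w - w) := by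
      rw [map_sub, fw]
    rw [i1, i4, LinearIsometryEquiv.norm_map]
  simp only [g5] at g4
  have hc : (Fintype.card P : ℝ) ≠ 0 := by
    exact_mod_cast Fintype.card_ne_zero
  rw [Finset.sum_const, Finset.card_univ, nsmul_eq_mul, ← mul_assoc ((Fintype.card P : ℝ))⁻¹,
    inv_mul_cancel₀ hc, one_mul] at g4
  have g6 : ‖ρM y w - w‖ ≤ ‖ρM y u - u‖ + 2 * ‖u - w‖ := by
    have i1 : ρM y w - w = (ρM y u - u) - (ρM y (u - w) - (u - w)) := by
      rw [map_sub]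
      abel
    have i2 : ‖ρM y (u - w) - (u - w)‖ ≤ 2 * ‖u - w‖ := by
      refine (norm_sub_le _ _).trans ?_
      rw [LinearIsometryEquiv.norm_map]
      linarith
    rw [i1]
    exact (norm_sub_le _ _).trans (by linarith)
  have g7 : ‖w‖ ^ 2 ≤ C * (‖ρM y u - u‖ + 2 * ‖u - w‖) ^ 2 := by
    refine g4.trans (mul_le_mul_of_nonneg_left ?_ hC)
    exact pow_le_pow_left₀ (norm_nonneg _) g6 2
  have g8 : ‖u‖ ^ 2 = ‖w‖ ^ 2 + ‖u - w‖ ^ 2 := by
    rw [hw]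
    exact gapw_pyth ρP u
  have g9 : ‖v‖ ^ 2 = ‖a‖ ^ 2 + ‖u‖ ^ 2 := by
    rw [ha, hu]
    exact gapw_pyth ρM v
  have g10 : ∀ i, ‖ρP (s i) v - v‖ ^ 2 = ‖ρP (s i) a - a‖ ^ 2 + ‖ρP (s i) u - u‖ ^ 2 := by
    intro i
    rw [ha, hu]
    exact gapw_pyth_disp ρM (ρP (s i)) (cE (s i)) v
  have g11 : ‖ρM y v - v‖ ^ 2 = ‖ρM y a - a‖ ^ 2 + ‖ρM y u - u‖ ^ 2 := by
    rw [ha, hu]
    exact gapw_pyth_disp ρM (ρM y) cy v
  simp only [eM, eP]
  rw [g9]
  refine (gapw_arith hC hκ hκ1 (norm_nonneg _) (norm_nonneg _) g2 g8 g7 g1).trans ?_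
  rw [← Finset.sum_add_distrib, g11]
  have g12 : ∑ i, (‖ρP (s i) a - a‖ ^ 2 + ‖ρP (s i) u - u‖ ^ 2) =
      ∑ i, ‖ρP (s i) v - v‖ ^ 2 := Finset.sum_congr rfl (fun i _ => (g10 i).symm)
  rw [g12]
  have g13 : 0 ≤ ‖ρM y a - a‖ ^ 2 := sq_nonneg _
  linarith

end Pool.Agent.MPfe8e9bW
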