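import Mathlib
import Pool.Agent.Lib.MP_fe8e9b_al_W.Defs
import Pool.Agent.Lib.MP_fe8e9b_al.FinalG

/-!
# MP_fe8e9b_al, wreath towers: cost, direct products
-/

set_option autoImplicit false

open scoped BigOperators

namespace Pool.Agent.MPfe8e9bW

open Pool.Agent.MPfe8e9b Pool.Agent.MPfe8e9bA

theorem Cost.mono {c c' : ℕ} {G : Type} [Group G] (h : Cost c G) (hc : c ≤ c') : Cost c' G := by
  obtain ⟨k, κ, h1, h2, h3, h4⟩ := h
  refine ⟨k, κ, h1, h2, h3.trans ?_, h4⟩
  exact mul_le_mul_of_nonneg_left (pow_le_pow_right₀ one_le_two hc) h1.le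

/-- Proof. `FExpd.surj`. -/
theorem Cost.iso {c : ℕ} {G H : Type} [Group G] [Group H] (e : G ≃* H) (h : Cost c G) :
    Cost c H := by
  obtain ⟨k, κ, h1, h2, h3, h4⟩ := h
  exact ⟨k, κ, h1, h2, h3, FExpd.surj e.toMonoidHom e.surjective h4⟩

/-- Every pair `k`, `κ > 0` has a cost.

Proof. Replace `κ` by `min κ 1` (`FExpd.mono`), and choose `c` with
`(k + 1) / min κ 1 ≤ 2 ^ c`. -/
theorem exists_cost (k : ℕ) {κ : ℝ} (hκ : 0 < κ) : ∃ c : ℕ, ∀ (G : Type) [Group G],
    FExpd G k κ → Cost c G := by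
  have h0 : 0 < min κ 1 := lt_min hκ one_pos
  obtain ⟨c, hc⟩ := pow_unbounded_of_one_lt (((k : ℝ) + 1) / min κ 1) one_lt_two
  refine ⟨c, fun G _ h => ⟨k, min κ 1, h0, min_le_right _ _, ?_,
    h.mono le_rfl (min_le_left _ _)⟩⟩
  rw [div_lt_iff₀ h0] at hc
  linarith

/-- The cost bounds the number of generators and the spectral gap.

Proof. `k + 1 ≤ κ * 2 ^ c ≤ 2 ^ c` and `1 ≤ κ * 2 ^ c`; `FExpd.mono`. -/
theorem Cost.fexpd {c : ℕ} {G : Type} [Group G] (h : Cost c G) :
    FExpd G (2 ^ c) (1 / 2 ^ c) := by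
  obtain ⟨k, κ, h1, h2, h3, h4⟩ := h
  have h5 : (0 : ℝ) < 2 ^ c := by positivity
  have h6 : κ * 2 ^ c ≤ 1 * 2 ^ c := mul_le_mul_of_nonneg_right h2 h5.le
  have h7 : (0 : ℝ) ≤ k := Nat.cast_nonneg k
  refine h4.mono ?_ ?_
  · have : (k : ℝ) ≤ ((2 ^ c : ℕ) : ℝ) := by
      push_cast
      linarith
    exact_mod_cast this
  · rw [div_le_iff₀ h5]
    linarith

/-- A group with one element. -/
theorem exppi_one {G : Type} [Group G] [Subsingleton G] {κ : ℝ} : FExpd G 0 κ := by
  have : Fintype G := Fintype.ofSubsingleton 1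
  refine ⟨this, Fin.elim0, fun f hf => ?_⟩
  have h : f = 0 := by
    funext g
    have h1 : ∑ x, f x = f g :=
      Fintype.sum_eq_single g fun b hb => absurd (Subsingleton.elim b g) hb
    rw [← h1, hf]
    rfl
  rw [h, sq_zero, mul_zero]
  simp

/-- A product of at most `n` groups.

Proof. Induction on `n` for all finite index types with at most `n` elements (an index type with
`n + 1` elements is equivalent to `Option κ`, `MulEquiv.piOptionEquivProd` or by hand), with
`expd_prod`; the empty product is trivial (`expd_card`, `expd_mono`: a function with sum zero on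
a one element group is zero). -/
theorem fexpd_pi (n : ℕ) {K : Type} [Finite K] (hK : Nat.card K ≤ n) (H : K → Type)
    [∀ s, Group (H s)] {k : ℕ} {κ : ℝ} (hκ : 0 ≤ κ) (hH : ∀ s, FExpd (H s) k κ) :
    FExpd (∀ s, H s) (n * k) κ := by
  classical
  induction n generalizing K with
  | zero =>
    have h0 : Nat.card K = 0 := Nat.le_zero.1 hK
    have : IsEmpty K := Finite.card_eq_zero_iff.1 h0
    rw [zero_mul]
    exact exppi_one
  | succ n ih =>
    by_cases hn : Nat.card K ≤ n
    · exact (ih hn H hH).mono (Nat.mul_le_mul_right k (Nat.le_succ n)) le_rfl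
    · have hpos : 0 < Nat.card K := by omega
      obtain ⟨s₀⟩ : Nonempty K := (Finite.card_pos_iff).1 hpos
      have := Fintype.ofFinite K
      have h2 : Nat.card {s : K // s ≠ s₀} ≤ n := by
        have h3 : Fintype.card {s : K // s ≠ s₀} < Fintype.card K :=
          Fintype.card_subtype_lt (p := fun s => s ≠ s₀) (x := s₀) (by simp)
        rw [← Nat.card_eq_fintype_card, ← Nat.card_eq_fintype_card] at h3
        omega
      have h4 := ih h2 (fun s => H s.1) fun s => hH s.1
      have h5 : FExpd (∀ s : {s : K // s = s₀}, H s.1) k κ :=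
        FExpd.surj (MulEquiv.piUnique fun s : {s : K // s = s₀} => H s.1).symm.toMonoidHom
          (MulEquiv.piUnique fun s : {s : K // s = s₀} => H s.1).symm.surjective (hH s₀)
      have h6 := FExpd.union H (fun s => s = s₀) (fun s => s ≠ s₀) hκ h5 h4
      let π : (∀ s : {s : K // s = s₀ ∨ s ≠ s₀}, H s.1) →* (∀ s, H s) :=
        { toFun := fun z s => z ⟨s, em _⟩
          map_one' := rfl
          map_mul' := fun _ _ => rfl }
      have h7 := FExpd.surj π (fun z => ⟨fun s => z s.1, rfl⟩) h6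
      have h8 : (n + 1) * k = k + n * k := by ring
      rw [h8]
      exact h7

/-- Extensions, in terms of a surjective homomorphism.

Proof. `expd_ext` for the kernel `φ.ker`; the quotient is isomorphic to `Q`
(`QuotientGroup.quotientKerEquivOfSurjective`), and `ψ` gives an isomorphism of `N` with `φ.ker`. -/
theorem fexpd_extension {N W Q : Type} [Group N] [Group W] [Group Q] (ψ : N →* W) (φ : W →* Q)
    (hψ : Function.Injective ψ) (hφ : Function.Surjective φ) (h : ψ.range = φ.ker)
    {k₁ k₂ : ℕ} {κ : ℝ} (hN : FExpd N k₁ κ) (hQ : FExpd Q k₂ κ) : FExpd W (k₁ + k₂) κ := by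
  have fN : Finite N := by
    obtain ⟨i, -⟩ := hN
    exact @Fintype.finite _ i
  have fQ : Finite Q := by
    obtain ⟨i, -⟩ := hQ
    exact @Fintype.finite _ i
  let e : N ≃* φ.ker := (MonoidHom.ofInjective hψ).trans (MulEquiv.subgroupCongr h)
  let e' := QuotientGroup.quotientKerEquivOfSurjective φ hφ
  have f1 : Finite φ.ker := Finite.of_equiv N e.toEquiv
  have f2 : Finite (W ⧸ φ.ker) := Finite.of_equiv Q e'.symm.toEquiv
  have f3 : Finite W := Finite.of_equiv _ (Subgroup.groupEquivQuotientProdSubgroup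
    (s := φ.ker)).symm
  exact FExpd.ext φ.ker (FExpd.surj e.toMonoidHom e.surjective hN)
    (FExpd.surj e'.symm.toMonoidHom e'.symm.surjective hQ)

end Pool.Agent.MPfe8e9bW
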