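import Mathlib
import Pool.Agent.Lib.MP_fe8e9b_al_W.Defs
import Pool.Agent.Lib.MP_fe8e9b_al.Vert

/-!
# MP_fe8e9b_al, wreath towers: the number of small sets
-/

set_option autoImplicit false

open scoped BigOperators

namespace Pool.Agent.MPfe8e9bW

open Pool.Agent.MPfe8e9b Pool.Agent.MPfe8e9bA

/-- The number of sets `X i` with `m` elements is bounded.

Proof. Let `s : Fin k → P` have a positive gap; it generates `P` (`gap_closure`, file
`MP_fe8e9b_al/Vert.lean`). For `i` with `Nat.card (X i) = m` choose a bijection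
`e i : X i ≃ Fin m` and map `i` to `fun j => (e i).permCongr (α i (s j))`, an element of
`Fin k → Equiv.Perm (Fin m)`. This map is injective: if `i ≠ i'` have the same image, the
homomorphisms `p ↦ (e i).permCongr (α i p)` and `p ↦ (e i').permCongr (α i' p)` agree on
generators, hence everywhere (`MonoidHom.eq_of_eqOn_dense`); but the element `σ` of
`hα i` acts trivially on `X i'` and non trivially on `X i`. The number of functions
`Fin k → Equiv.Perm (Fin m)` is `(m !) ^ k`. -/
theorem loc_count {D : ℕ} {P I : Type} [Group P] [Finite I] {X : I → Type} [∀ i, Finite (X i)]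
    (α : ∀ i, P →* Equiv.Perm (X i)) (hα : Loc D α) {k : ℕ} {κ : ℝ} (hκ : 0 < κ)
    (hP : FExpd P k κ) (m : ℕ) :
    Nat.card {i // Nat.card (X i) = m} ≤ (Nat.factorial m) ^ k := by
  classical
  obtain ⟨inst, s, hs⟩ := hP
  have hcl := gap_closure s hκ hs
  let e : ∀ i : {i // Nat.card (X i) = m}, X i.1 ≃ Fin m := fun i =>
    Finite.equivFinOfCardEq i.2
  let φ : ∀ i : {i // Nat.card (X i) = m}, P →* Equiv.Perm (Fin m) := fun i =>
    ((e i).permCongrHom : Equiv.Perm (X i.1) →* Equiv.Perm (Fin m)).comp (α i.1)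
  let F : {i // Nat.card (X i) = m} → (Fin k → Equiv.Perm (Fin m)) := fun i j => φ i (s j)
  have hF : Function.Injective F := by
    intro i i' h
    have hφ : φ i = φ i' := by
      refine MonoidHom.eq_of_eqOn_dense hcl ?_
      intro g hg
      have hg' := Finset.mem_coe.1 hg
      rw [Finset.mem_image] at hg'
      obtain ⟨j, -, rfl⟩ := hg'
      exact congrFun h j
    by_contra hne
    obtain ⟨-, x, Z, σ, τ, -, h1, -, -, -, h2⟩ := hα i.1
    have hne' : i'.1 ≠ i.1 := fun h' => hne (Subtype.ext h'.symm)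
    have h3 : φ i' σ = 1 := by
      change (e i').permCongrHom (α i'.1 σ) = 1
      rw [(h2 _ hne').1, map_one]
    have h4 : φ i σ = 1 := by
      rw [hφ, h3]
    have h5 : α i.1 σ = 1 := by
      apply (e i).permCongrHom.injective
      rw [map_one]
      exact h4
    exact h1 (by rw [h5, Equiv.Perm.one_apply])
  refine (Nat.card_le_card_of_injective F hF).trans ?_
  rw [Nat.card_eq_fintype_card]
  simp [Fintype.card_perm]

/-- The number of coordinates `(i, x)` with `card (X i) ≤ N` is bounded.

Proof. `loc_count` for `m ≤ N`: `∑ m ∈ range (N + 1), m * (m !) ^ k ≤ (N + 1) * (N * (N !) ^ k)`. -/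
theorem loc_count_le {D : ℕ} {P I : Type} [Group P] [Finite I] {X : I → Type}
    [∀ i, Finite (X i)] (α : ∀ i, P →* Equiv.Perm (X i)) (hα : Loc D α) {k : ℕ} {κ : ℝ}
    (hκ : 0 < κ) (hP : FExpd P k κ) (N : ℕ) :
    Nat.card (Σ i : {i // Nat.card (X i) ≤ N}, X i.1) ≤ (N + 1) * (N * (Nat.factorial N) ^ k) := by
  classical
  have : Fintype {i // Nat.card (X i) ≤ N} := Fintype.ofFinite _
  rw [Nat.card_sigma]
  have hmaps : ∀ i ∈ (Finset.univ : Finset {i // Nat.card (X i) ≤ N}),
      Nat.card (X i.1) ∈ Finset.range (N + 1) := fun i _ =>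
    Finset.mem_range.2 (Nat.lt_succ_of_le i.2)
  rw [← Finset.sum_fiberwise_of_maps_to hmaps]
  have hterm : ∀ m ∈ Finset.range (N + 1),
      (∑ i ∈ Finset.univ.filter (fun i : {i // Nat.card (X i) ≤ N} => Nat.card (X i.1) = m),
        Nat.card (X i.1)) ≤ N * (Nat.factorial N) ^ k := by
    intro m hm
    have hmN : m ≤ N := Nat.lt_succ_iff.1 (Finset.mem_range.1 hm)
    have h1 : (∑ i ∈ Finset.univ.filter
        (fun i : {i // Nat.card (X i) ≤ N} => Nat.card (X i.1) = m), Nat.card (X i.1)) =
        (Finset.univ.filter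
          (fun i : {i // Nat.card (X i) ≤ N} => Nat.card (X i.1) = m)).card * m := by
      rw [Finset.sum_congr rfl (g := fun _ => m)
        (fun i hi => (Finset.mem_filter.1 hi).2), Finset.sum_const, smul_eq_mul]
    have h2 : (Finset.univ.filter
        (fun i : {i // Nat.card (X i) ≤ N} => Nat.card (X i.1) = m)).card ≤
        (Nat.factorial m) ^ k := by
      rw [← Fintype.card_subtype, ← Nat.card_eq_fintype_card]
      refine le_trans ?_ (loc_count α hα hκ hP m)
      refine Nat.card_le_card_of_injective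
        (fun i : {i : {i // Nat.card (X i) ≤ N} // Nat.card (X i.1) = m} =>
          (⟨i.1.1, i.2⟩ : {i // Nat.card (X i) = m})) ?_
      intro i i' h
      have h' := congrArg Subtype.val h
      exact Subtype.ext (Subtype.ext h')
    rw [h1, mul_comm]
    exact Nat.mul_le_mul hmN (h2.trans (Nat.pow_le_pow_left (Nat.factorial_le hmN) k))
  refine (Finset.sum_le_sum hterm).trans ?_
  rw [Finset.sum_const, Finset.card_range, smul_eq_mul]

end Pool.Agent.MPfe8e9bW
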