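import Mathlib
import Pool.Agent.Lib.MP_fe8e9b_al_W.Lay

/-!
# MP_fe8e9b_al, wreath towers: existence of a good distribution of the letters
-/

set_option autoImplicit false

open scoped BigOperators

namespace Pool.Agent.MPfe8e9bW

section lay2

variable {P X : Type} [Group P] [Fintype P] [Fintype X] [DecidableEq X]

/-- the translate of a set -/
private def lay2_im (α : P →* Equiv.Perm X) (Z : Finset X) (g : P) : Finset X :=
  Z.image fun z => (α g)⁻¹ z

/-- the good pairs -/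
private def lay2_good (α : P →* Equiv.Perm X) (x : X) (Z : Finset X) (q : ℕ)
    (t : X → Fin (2 * q)) (g : P) (j : Fin q) : Prop :=
  (t ((α g)⁻¹ x)).1 = j.1 ∧ ∀ z ∈ Z, z ≠ x → q ≤ (t ((α g)⁻¹ z)).1

private theorem lay2_card (α : P →* Equiv.Perm X) (Z : Finset X) (g : P) :
    (lay2_im α Z g).card = Z.card :=
  Finset.card_image_of_injective _ (Equiv.injective _)

private theorem lay2_good_iff (α : P →* Equiv.Perm X) (x : X) (Z : Finset X) (q : ℕ)
    (t : X → Fin (2 * q)) (g : P) (j : Fin q) :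
    lay2_good α x Z q t g j ↔ (t ((α g)⁻¹ x)).1 = j.1 ∧
      ∀ z ∈ lay2_im α Z g, z ≠ (α g)⁻¹ x → q ≤ (t z).1 := by
  unfold lay2_good lay2_im
  refine and_congr_right fun _ => ?_
  rw [Finset.forall_mem_image]
  refine forall₂_congr fun z _ => ?_
  rw [(Equiv.injective ((α g)⁻¹ : Equiv.Perm X)).ne_iff]

open Classical in
private theorem lay2_one (α : P →* Equiv.Perm X) (x : X) (Z : Finset X) (q : ℕ) (hq : 0 < q)
    (hx : x ∈ Z) (g : P) (j : Fin q) :
    2 ^ Z.card * q * (Finset.univ.filter fun t => lay2_good α x Z q t g j).card =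
      Fintype.card (X → Fin (2 * q)) := by
  have h := lay_one q hq ((α g)⁻¹ x) (lay2_im α Z g) (Finset.mem_image_of_mem _ hx) j
  rw [lay2_card] at h
  rw [← h]
  congr 2
  ext t
  simp only [Finset.mem_filter, Finset.mem_univ, true_and]
  exact lay2_good_iff α x Z q t g j

open Classical in
private theorem lay2_two (α : P →* Equiv.Perm X) (x : X) (Z : Finset X) (q : ℕ) (hq : 0 < q)
    (hx : x ∈ Z) (g h : P) (hd : Disjoint (lay2_im α Z g) (lay2_im α Z h)) (j : Fin q) :
    2 ^ Z.card * q * (2 ^ Z.card * q) * (Finset.univ.filter fun t =>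
      lay2_good α x Z q t g j ∧ lay2_good α x Z q t h j).card =
      Fintype.card (X → Fin (2 * q)) := by
  have h2 := lay_two q hq ((α g)⁻¹ x) ((α h)⁻¹ x) (lay2_im α Z g) (lay2_im α Z h)
    (Finset.mem_image_of_mem _ hx) (Finset.mem_image_of_mem _ hx) hd j
  rw [lay2_card, lay2_card] at h2
  rw [← h2]
  congr 2
  ext t
  simp only [Finset.mem_filter, Finset.mem_univ, true_and]
  exact and_congr (lay2_good_iff α x Z q t g j) (lay2_good_iff α x Z q t h j)

/-- the number of good elements -/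
private noncomputable def lay2_N (α : P →* Equiv.Perm X) (x : X) (Z : Finset X) (q : ℕ)
    (t : X → Fin (2 * q)) (j : Fin q) : ℕ := by
  classical exact (Finset.univ.filter fun g => lay2_good α x Z q t g j).card

private theorem lay2_first (α : P →* Equiv.Perm X) (x : X) (Z : Finset X) (q : ℕ) (hq : 0 < q)
    (hx : x ∈ Z) (j : Fin q) :
    2 ^ Z.card * q * ∑ t, lay2_N α x Z q t j =
      Fintype.card P * Fintype.card (X → Fin (2 * q)) := by
  classical
  have h1 : ∑ t, lay2_N α x Z q t j =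
      ∑ g : P, (Finset.univ.filter fun t => lay2_good α x Z q t g j).card := by
    unfold lay2_N
    simp only [Finset.card_filter]
    exact Finset.sum_comm
  rw [h1, Finset.mul_sum]
  have h2 : ∀ g ∈ (Finset.univ : Finset P), 2 ^ Z.card * q *
      (Finset.univ.filter fun t => lay2_good α x Z q t g j).card =
      Fintype.card (X → Fin (2 * q)) := fun g _ => lay2_one α x Z q hq hx g j
  rw [Finset.sum_congr rfl h2, Finset.sum_const, Finset.card_univ, smul_eq_mul]

open Classical in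
private theorem lay2_second (α : P →* Equiv.Perm X) (x : X) (Z : Finset X) (q : ℕ) (hq : 0 < q)
    (hx : x ∈ Z) (j : Fin q) :
    2 ^ Z.card * q * (2 ^ Z.card * q) * ∑ t, lay2_N α x Z q t j ^ 2 ≤
      Fintype.card P ^ 2 * Fintype.card (X → Fin (2 * q)) +
        2 ^ Z.card * q * Fintype.card (X → Fin (2 * q)) *
          (Finset.univ.filter (fun gh : P × P =>
            ∃ a ∈ Z, ∃ b ∈ Z, (α gh.1)⁻¹ a = (α gh.2)⁻¹ b)).card := by
  have h1 : ∑ t, lay2_N α x Z q t j ^ 2 = ∑ gh : P × P, (Finset.univ.filter fun t =>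
      lay2_good α x Z q t gh.1 j ∧ lay2_good α x Z q t gh.2 j).card := by
    have h0 : ∀ t ∈ (Finset.univ : Finset (X → Fin (2 * q))), lay2_N α x Z q t j ^ 2 =
        ∑ gh : P × P, if lay2_good α x Z q t gh.1 j ∧ lay2_good α x Z q t gh.2 j
          then 1 else 0 := by
      intro t _
      have e : lay2_N α x Z q t j = ∑ g : P, if lay2_good α x Z q t g j then 1 else 0 := by
        unfold lay2_N
        rw [Finset.card_filter]
      rw [e, pow_two, Fintype.sum_mul_sum, Fintype.sum_prod_type]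
      refine Finset.sum_congr rfl fun g _ => Finset.sum_congr rfl fun h _ => ?_
      by_cases hg : lay2_good α x Z q t g j <;> by_cases hh : lay2_good α x Z q t h j <;>
        simp [hg, hh]
    rw [Finset.sum_congr rfl h0, Finset.sum_comm]
    simp only [Finset.card_filter]
  rw [h1, Finset.mul_sum]
  have h2 : ∀ gh ∈ (Finset.univ : Finset (P × P)), 2 ^ Z.card * q * (2 ^ Z.card * q) *
      (Finset.univ.filter fun t =>
        lay2_good α x Z q t gh.1 j ∧ lay2_good α x Z q t gh.2 j).card ≤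
      Fintype.card (X → Fin (2 * q)) + (2 ^ Z.card * q * Fintype.card (X → Fin (2 * q))) *
        (if ∃ a ∈ Z, ∃ b ∈ Z, (α gh.1)⁻¹ a = (α gh.2)⁻¹ b then 1 else 0) := by
    intro gh _
    by_cases hd : Disjoint (lay2_im α Z gh.1) (lay2_im α Z gh.2)
    · rw [lay2_two α x Z q hq hx gh.1 gh.2 hd j]
      exact Nat.le_add_right _ _
    · have hb : ∃ a ∈ Z, ∃ b ∈ Z, (α gh.1)⁻¹ a = (α gh.2)⁻¹ b := by
        obtain ⟨y, hy1, hy2⟩ := Finset.not_disjoint_iff.1 hd
        obtain ⟨a, ha, rfl⟩ := Finset.mem_image.1 hy1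
        obtain ⟨b, hb, hba⟩ := Finset.mem_image.1 hy2
        exact ⟨a, ha, b, hb, hba.symm⟩
      rw [if_pos hb, mul_one]
      refine le_trans ?_ (Nat.le_add_left _ _)
      rw [mul_assoc (2 ^ Z.card * q)]
      refine Nat.mul_le_mul_left _ ?_
      rw [← lay2_one α x Z q hq hx gh.1 j]
      refine Nat.mul_le_mul_left _ (Finset.card_le_card ?_)
      intro t ht
      rw [Finset.mem_filter] at ht ⊢
      exact ⟨ht.1, ht.2.1⟩
  refine (Finset.sum_le_sum h2).trans (le_of_eq ?_)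
  rw [Finset.sum_add_distrib, ← Finset.mul_sum, Finset.sum_const, Finset.card_univ, smul_eq_mul,
    Fintype.card_prod, Finset.card_filter, pow_two]

end lay2

/-- A distribution `t` of the letters `j ∈ Fin q` (`none` means the letter `1`) such that for
every `j` a proportion of at least `1 / (2 ^ (D + 1) * q)` of the translates of `Z` carry the
letter `j` at the point `x` and no other letter.

Proof (second moment). Put `x` into `Z` (the statement does not depend on this, replace `Z` by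
`insert x Z` and note that the bound below only uses `card ≤ D + 1`; `hX` has been chosen for
this). For `t : X → Fin (2 * q)` call `t` good for `(g, j)` if `(t (g⁻¹ x)).1 = j` and
`q ≤ (t (g⁻¹ z)).1` for `z ∈ Z`, `z ≠ x`. Let `T` be the number of all `t`, `m = card Z`,
`p = 1 / (2 ^ m * q)`, `N t j` the number of `g` for which `t` is good for `(g, j)`.
By `lay_one`, `∑ t, N t j = p * T * card P` and by `lay_two` and `lay_pairs`
`∑ t, (N t j) ^ 2 ≤ p ^ 2 * T * (card P) ^ 2 + p * T * m ^ 2 * (card P) ^ 2 / card X`. So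
`∑ t, (N t j - p * card P) ^ 2 ≤ p * T * m ^ 2 * (card P) ^ 2 / card X`. If for every `t` there were
a `j` with `N t j < (p / 2) * card P`, then summing over `t` and `j`:
`T * (p / 2) ^ 2 * (card P) ^ 2 < q * p * T * m ^ 2 * (card P) ^ 2 / card X`, that is
`card X < 4 * q * m ^ 2 / p = 4 * m ^ 2 * 2 ^ m * q ^ 2`, which contradicts `hX`
(`m ≤ D + 1`). Hence some `t` has `N t j ≥ (p / 2) * card P ≥ card P / (2 ^ (D + 2) * q)` for all
`j`; turn `t` into a function with values in `Option (Fin q)` (`if h : (t x).1 < q then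
some ⟨_, h⟩ else none`). -/
theorem layout {P X : Type} [Group P] [Fintype P] [Fintype X] [DecidableEq X]
    (α : P →* Equiv.Perm X) (htr : ∀ x y : X, ∃ p, α p x = y) (x : X) (Z : Finset X) (D q : ℕ)
    (hZ : Z.card ≤ D) (hq : 0 < q)
    (hX : 4 * (D + 1) ^ 2 * 2 ^ (D + 1) * q ^ 2 < Fintype.card X) :
    ∃ t : X → Option (Fin q), ∀ j, Fintype.card P ≤ 2 ^ (D + 2) * q *
      (Finset.univ.filter (fun g : P => t ((α g)⁻¹ x) = some j ∧
        ∀ z ∈ Z, z ≠ x → t ((α g)⁻¹ z) = none)).card := by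
  classical
  obtain ⟨Z', hZ'⟩ : ∃ Z', Z' = insert x Z := ⟨_, rfl⟩
  have hx : x ∈ Z' := by
    rw [hZ']
    exact Finset.mem_insert_self _ _
  have hm : Z'.card ≤ D + 1 := by
    rw [hZ']
    exact (Finset.card_insert_le _ _).trans (by omega)
  obtain ⟨m, hm'⟩ : ∃ m, m = Z'.card := ⟨_, rfl⟩
  obtain ⟨T, hT⟩ : ∃ T, T = Fintype.card (X → Fin (2 * q)) := ⟨_, rfl⟩
  obtain ⟨p, hp⟩ : ∃ p, p = Fintype.card P := ⟨_, rfl⟩
  obtain ⟨B, hB⟩ : ∃ B, B = (Finset.univ.filter (fun gh : P × P =>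
      ∃ a ∈ Z', ∃ b ∈ Z', (α gh.1)⁻¹ a = (α gh.2)⁻¹ b)).card := ⟨_, rfl⟩
  have hT0 : 0 < T := by
    rw [hT]
    have : Nonempty (X → Fin (2 * q)) := ⟨fun _ => ⟨0, by omega⟩⟩
    exact Fintype.card_pos
  have hp0 : 0 < p := by
    rw [hp]
    exact Fintype.card_pos
  have hpairs := lay_pairs α htr Z'
  rw [← hB, ← hm', ← hp] at hpairs
  have key : ∃ t : X → Fin (2 * q), ∀ j, p ≤ 2 ^ (D + 2) * q * lay2_N α x Z' q t j := by
    by_contra hcon
    push Not at hcon
    choose J hJ using hcon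
    have hR : (2 : ℝ) ^ m * q ≤ 2 ^ (D + 1) * q := by
      refine mul_le_mul_of_nonneg_right ?_ (Nat.cast_nonneg q)
      exact pow_le_pow_right₀ (by norm_num) (by omega)
    have hR0 : 0 < (2 : ℝ) ^ m * q := by positivity
    -- the second moment
    have hvar : ∀ j, ∑ t, ((2 : ℝ) ^ m * q * lay2_N α x Z' q t j - p) ^ 2 ≤
        (2 : ℝ) ^ m * q * T * B := by
      intro j
      have h1 := lay2_first α x Z' q hq hx j
      have h2 := lay2_second α x Z' q hq hx j
      rw [← hB, ← hm', ← hp, ← hT] at h2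
      rw [← hm', ← hp, ← hT] at h1
      have h1' : (2 : ℝ) ^ m * q * ∑ t, (lay2_N α x Z' q t j : ℝ) = p * T := by
        exact_mod_cast h1
      have h2' : (2 : ℝ) ^ m * q * (2 ^ m * q) * ∑ t, (lay2_N α x Z' q t j : ℝ) ^ 2 ≤
          p ^ 2 * T + 2 ^ m * q * T * B := by
        exact_mod_cast h2
      have h3 : ∑ t : X → Fin (2 * q), ((2 : ℝ) ^ m * q * lay2_N α x Z' q t j - p) ^ 2 =
          (2 : ℝ) ^ m * q * (2 ^ m * q) * ∑ t, (lay2_N α x Z' q t j : ℝ) ^ 2 -
            2 * p * ((2 : ℝ) ^ m * q * ∑ t, (lay2_N α x Z' q t j : ℝ)) + T * p ^ 2 := by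
        have e : ∀ t ∈ (Finset.univ : Finset (X → Fin (2 * q))),
            ((2 : ℝ) ^ m * q * lay2_N α x Z' q t j - p) ^ 2 =
            (2 : ℝ) ^ m * q * (2 ^ m * q) * (lay2_N α x Z' q t j : ℝ) ^ 2 -
              2 * p * ((2 : ℝ) ^ m * q * (lay2_N α x Z' q t j : ℝ)) + p ^ 2 := by
          intro t _
          ring
        rw [Finset.sum_congr rfl e, Finset.sum_add_distrib, Finset.sum_sub_distrib,
          ← Finset.mul_sum, ← Finset.mul_sum, ← Finset.mul_sum, Finset.sum_const,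
          Finset.card_univ, nsmul_eq_mul, ← hT]
      rw [h3, h1']
      nlinarith
    have hlow : ∀ t : X → Fin (2 * q), (p : ℝ) ^ 2 ≤
        4 * ∑ j, ((2 : ℝ) ^ m * q * lay2_N α x Z' q t j - p) ^ 2 := by
      intro t
      have h1 : (2 : ℝ) ^ (D + 2) * q * lay2_N α x Z' q t (J t) < p := by
        exact_mod_cast hJ t
      have hN : (0 : ℝ) ≤ lay2_N α x Z' q t (J t) := Nat.cast_nonneg _
      have h2 : 2 * ((2 : ℝ) ^ m * q * lay2_N α x Z' q t (J t)) < p := by
        refine lt_of_le_of_lt ?_ h1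
        calc 2 * ((2 : ℝ) ^ m * q * lay2_N α x Z' q t (J t)) ≤
              2 * ((2 : ℝ) ^ (D + 1) * q * lay2_N α x Z' q t (J t)) :=
            mul_le_mul_of_nonneg_left (mul_le_mul_of_nonneg_right hR hN) (by norm_num)
          _ = (2 : ℝ) ^ (D + 2) * q * lay2_N α x Z' q t (J t) := by ring
      have h3 : 0 ≤ (2 : ℝ) ^ m * q * lay2_N α x Z' q t (J t) := mul_nonneg hR0.le hN
      have h4 : ((2 : ℝ) ^ m * q * lay2_N α x Z' q t (J t) - p) ^ 2 ≤
          ∑ j, ((2 : ℝ) ^ m * q * lay2_N α x Z' q t j - p) ^ 2 :=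
        Finset.single_le_sum (f := fun j => ((2 : ℝ) ^ m * q * lay2_N α x Z' q t j - p) ^ 2)
          (fun j _ => sq_nonneg _) (Finset.mem_univ (J t))
      nlinarith
    have hsum : (T : ℝ) * p ^ 2 ≤ 4 * (q * ((2 : ℝ) ^ m * q * T * B)) := by
      have h1 : ∑ _t : X → Fin (2 * q), (p : ℝ) ^ 2 ≤ ∑ t : X → Fin (2 * q),
          4 * ∑ j, ((2 : ℝ) ^ m * q * lay2_N α x Z' q t j - p) ^ 2 :=
        Finset.sum_le_sum fun t _ => hlow t
      rw [Finset.sum_const, Finset.card_univ, nsmul_eq_mul, ← hT, ← Finset.mul_sum,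
        Finset.sum_comm] at h1
      refine h1.trans (mul_le_mul_of_nonneg_left ?_ (by norm_num))
      refine (Finset.sum_le_sum fun j _ => hvar j).trans (le_of_eq ?_)
      rw [Finset.sum_const, Finset.card_univ, Fintype.card_fin, nsmul_eq_mul]
    have hT0' : (0 : ℝ) < T := by exact_mod_cast hT0
    have hp0' : (0 : ℝ) < (p : ℝ) ^ 2 := by positivity
    have h5 : (p : ℝ) ^ 2 ≤ 4 * (q * ((2 : ℝ) ^ m * q * B)) := by
      refine le_of_mul_le_mul_left ?_ hT0'
      linarith
    have hpairs' : (Fintype.card X : ℝ) * B ≤ (m : ℝ) ^ 2 * p ^ 2 := by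
      exact_mod_cast hpairs
    have h6 : (Fintype.card X : ℝ) * p ^ 2 ≤ (4 * (q * ((2 : ℝ) ^ m * q)) * m ^ 2) * p ^ 2 := by
      calc (Fintype.card X : ℝ) * p ^ 2 ≤ Fintype.card X * (4 * (q * ((2 : ℝ) ^ m * q * B))) :=
            mul_le_mul_of_nonneg_left h5 (Nat.cast_nonneg _)
        _ = 4 * (q * ((2 : ℝ) ^ m * q)) * (Fintype.card X * B) := by ring
        _ ≤ 4 * (q * ((2 : ℝ) ^ m * q)) * ((m : ℝ) ^ 2 * p ^ 2) :=
            mul_le_mul_of_nonneg_left hpairs' (by positivity)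
        _ = _ := by ring
    have h7 : (Fintype.card X : ℝ) ≤ 4 * (q * ((2 : ℝ) ^ m * q)) * m ^ 2 :=
      le_of_mul_le_mul_right h6 hp0'
    have h8 : (m : ℝ) ≤ D + 1 := by
      have : m ≤ D + 1 := by omega
      exact_mod_cast this
    have h9 : 4 * (q * ((2 : ℝ) ^ m * q)) * m ^ 2 ≤
        4 * (D + 1) ^ 2 * 2 ^ (D + 1) * q ^ 2 := by
      calc 4 * (q * ((2 : ℝ) ^ m * q)) * m ^ 2 ≤ 4 * (q * ((2 : ℝ) ^ (D + 1) * q)) *
            ((D : ℝ) + 1) ^ 2 := by
            refine mul_le_mul ?_ (pow_le_pow_left₀ (Nat.cast_nonneg m) h8 2) (by positivity)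
              (by positivity)
            exact mul_le_mul_of_nonneg_left
              (mul_le_mul_of_nonneg_left hR (Nat.cast_nonneg q)) (by norm_num)
        _ = _ := by ring
    have h10 : (4 * ((D : ℝ) + 1) ^ 2 * 2 ^ (D + 1) * q ^ 2) < Fintype.card X := by
      exact_mod_cast hX
    linarith
  obtain ⟨t, ht⟩ := key
  refine ⟨fun y => if h : (t y).1 < q then some ⟨(t y).1, h⟩ else none, fun j => ?_⟩
  rw [← hp]
  refine (ht j).trans (Nat.mul_le_mul_left _ ?_)
  unfold lay2_N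
  refine Finset.card_le_card ?_
  intro g hg
  rw [Finset.mem_filter] at hg ⊢
  obtain ⟨-, hg1, hg2⟩ := hg
  refine ⟨Finset.mem_univ _, ?_, fun z hz hzx => ?_⟩
  · have h1 : (t ((α g)⁻¹ x)).1 < q := by
      rw [hg1]
      exact j.2
    refine (dif_pos h1).trans ?_
    congr 1
    exact Fin.ext hg1
  · have h1 : q ≤ (t ((α g)⁻¹ z)).1 := hg2 z (by
      rw [hZ']
      exact Finset.mem_insert_of_mem hz) hzx
    exact dif_neg (not_lt.2 h1)

end Pool.Agent.MPfe8e9bW
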