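import Mathlib
import Pool.Agent.Lib.MP_fe8e9b_al_W.Defs
import Pool.Agent.Lib.MP_fe8e9b_al_W.DM
import Pool.Agent.Lib.MP_fe8e9b_al_A.KzB

/-!
# MP_fe8e9b_al, wreath towers: the local inequality
-/

set_option autoImplicit false

open scoped BigOperators

namespace Pool.Agent.MPfe8e9bW

open Pool.Agent.MPfe8e9b Pool.Agent.MPfe8e9bA

/-- The vector of letters: the letter `y i j` at the points `x` of `X i` with `t i x = some j`, the
letter `1` at the points with `t i x = none`. -/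
def lv {I : Type} {X G J : I → Type} [∀ i, Group (G i)] (y : ∀ i, J i → G i)
    (t : ∀ i, X i → Option (J i)) : ∀ i, X i → G i :=
  fun i x => (t i x).elim 1 (y i)

theorem loci_ai {Y : Type} (f : Equiv.Perm Y) (z : Y) : f (f⁻¹ z) = z :=
  f.apply_symm_apply z

theorem loci_ia {Y : Type} (f : Equiv.Perm Y) (z : Y) : f⁻¹ (f z) = z :=
  f.symm_apply_apply z

theorem loci_sgl_same {I : Type} {X : I → Type} (G : I → Type) [∀ i, Group (G i)] (i : I)
    (x : X i) (a : G i) (z : X i) (h : z = x) : sgl G i x a i z = a := by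
  subst h
  simp [sgl]

theorem loci_sgl_ne {I : Type} {X : I → Type} (G : I → Type) [∀ i, Group (G i)] (i : I)
    (x : X i) (a : G i) (z : X i) (h : z ≠ x) : sgl G i x a i z = 1 := by
  simp [sgl, h]

theorem loci_sgl_off {I : Type} {X : I → Type} (G : I → Type) [∀ i, Group (G i)] (i : I)
    (x : X i) (a : G i) (i' : I) (h : i' ≠ i) (z : X i') : sgl G i x a i' z = 1 := by
  simp [sgl, h]

theorem loci_lv_some {I : Type} {X G J : I → Type} [∀ i, Group (G i)] (y : ∀ i, J i → G i)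
    (t : ∀ i, X i → Option (J i)) (i : I) (x : X i) (j : J i) (h : t i x = some j) :
    lv y t i x = y i j := by
  simp [lv, h]

theorem loci_lv_none {I : Type} {X G J : I → Type} [∀ i, Group (G i)] (y : ∀ i, J i → G i)
    (t : ∀ i, X i → Option (J i)) (i : I) (x : X i) (h : t i x = none) :
    lv y t i x = 1 := by
  simp [lv, h]

/-- The difference of two translates of the vector of letters.

Proof. Compare the values at every `(i', z)`. For `i' ≠ i` the element `σ` acts trivially on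
`X i'`, so the two factors cancel and the right hand side is `1`. For `i' = i` and `z ∉ Z` one has
`σ⁻¹ z = z` and the two factors cancel; `z ≠ x` and `z ≠ σ x` since `x ∈ Z` and `σ x ∈ Z` (a point
outside `Z` is fixed by `σ`, and `σ x ≠ x`). For `z ∈ Z` the first factor is `y i j` for `z = x` and
`1` otherwise, the second factor (the inverse of the letter at `g⁻¹ σ⁻¹ z`) is `(y i j)⁻¹` for
`z = σ x` and `1` otherwise (`σ⁻¹ z ∈ Z`). -/
theorem lv_diff {P I : Type} [Group P] {X : I → Type} (α : ∀ i, P →* Equiv.Perm (X i))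
    (G : I → Type) [∀ i, Group (G i)] {J : I → Type} (y : ∀ i, J i → G i)
    (t : ∀ i, X i → Option (J i)) (i : I) (x : X i) (Z : Finset (X i)) (σ : P)
    (h1 : α i σ x ≠ x) (h2 : ∀ z, z ∉ Z → α i σ z = z) (h3 : ∀ i', i' ≠ i → α i' σ = 1) (g : P)
    (j : J i) (hj : t i ((α i g)⁻¹ x) = some j)
    (hn : ∀ z ∈ Z, z ≠ x → t i ((α i g)⁻¹ z) = none) :
    wrAct α G g (lv y t) * (wrAct α G (σ * g) (lv y t))⁻¹ =
      sgl G i x (y i j) * (sgl G i (α i σ x) (y i j))⁻¹ := by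
  have hσ : ∀ z, (α i σ)⁻¹ z = z ↔ α i σ z = z := by
    intro z
    rw [Equiv.Perm.inv_eq_iff_eq]
    exact eq_comm
  have hxZ : x ∈ Z := by
    by_contra hx
    exact h1 (h2 x hx)
  have hσxZ : α i σ x ∈ Z := by
    by_contra hx
    exact h1 ((α i σ).injective (h2 _ hx))
  funext i' z
  rw [Pi.mul_apply, Pi.mul_apply, Pi.inv_apply, Pi.inv_apply, Pi.mul_apply, Pi.mul_apply,
    Pi.inv_apply, Pi.inv_apply, wrAct_apply, wrAct_apply]
  have e0 : (α i' (σ * g))⁻¹ z = (α i' g)⁻¹ ((α i' σ)⁻¹ z) := by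
    rw [map_mul, mul_inv_rev, Equiv.Perm.mul_apply]
  rw [e0]
  by_cases hi : i' = i
  · subst hi
    by_cases hz : z ∈ Z
    · have hz' : (α i' σ)⁻¹ z ∈ Z := by
        by_contra hx
        have e1 := h2 _ hx
        rw [loci_ai] at e1
        rw [← e1] at hx
        exact hx hz
      have e1 : lv y t i' ((α i' g)⁻¹ z) = sgl G i' x (y i' j) i' z := by
        by_cases hzx : z = x
        · rw [loci_sgl_same G i' x _ z hzx]
          exact loci_lv_some y t i' _ j (by rw [hzx]; exact hj)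
        · rw [loci_sgl_ne G i' x _ z hzx]
          exact loci_lv_none y t i' _ (hn z hz hzx)
      have e2 : lv y t i' ((α i' g)⁻¹ ((α i' σ)⁻¹ z)) = sgl G i' (α i' σ x) (y i' j) i' z := by
        by_cases hzx : z = α i' σ x
        · rw [loci_sgl_same G i' _ _ z hzx]
          refine loci_lv_some y t i' _ j ?_
          rw [hzx, loci_ia]
          exact hj
        · rw [loci_sgl_ne G i' _ _ z hzx]
          refine loci_lv_none y t i' _ (hn _ hz' ?_)
          intro h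
          apply hzx
          rw [← h, loci_ai]
      rw [e1, e2]
    · have e1 : (α i' σ)⁻¹ z = z := (hσ z).2 (h2 z hz)
      rw [e1, mul_inv_cancel, loci_sgl_ne G i' x _ z (fun h => hz (h ▸ hxZ)),
        loci_sgl_ne G i' _ _ z (fun h => hz (h ▸ hσxZ))]
      simp
  · rw [h3 i' hi, inv_one, Equiv.Perm.one_apply, mul_inv_cancel, loci_sgl_off G i x _ i' hi,
      loci_sgl_off G i _ _ i' hi]
    simp

/-- Copies of `G i` at different points of `X i` commute. -/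
theorem sgl_comm {I : Type} {X : I → Type} (G : I → Type) [∀ i, Group (G i)] (i : I)
    {x x' : X i} (h : x ≠ x') (a b : G i) : Commute (sgl G i x a) (sgl G i x' b) := by
  rw [commute_iff_eq]
  funext i' z
  rw [Pi.mul_apply, Pi.mul_apply, Pi.mul_apply, Pi.mul_apply]
  by_cases hi : i' = i
  · subst hi
    by_cases hz : z = x
    · rw [loci_sgl_ne G i' x' b z (fun h' => h (hz.symm.trans h')), mul_one, one_mul]
    · rw [loci_sgl_ne G i' x a z hz, mul_one, one_mul]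
  · rw [loci_sgl_off G i x _ i' hi, mul_one, one_mul]

/-- The pair inequality.

Proof. Let `Y g = wrAct α G g (lv y t)`, `d = (card P)⁻¹ * ∑ g, ‖ρ (Y g) v - v‖ ^ 2` and
`s g = Y g * (Y (σ * g))⁻¹`. Then `‖ρ (s g) v - v‖ ≤ ‖ρ (Y g) v - v‖ + ‖ρ (Y (σ * g)) v - v‖`
(`disp_mul`, `disp_inv` in `MP_fe8e9b_al_A/KzB.lean`), so
`∑ g, ‖ρ (s g) v - v‖ ^ 2 ≤ 4 * card P * d` (reindex `g ↦ σ * g`). For `g` in the set of `ht` for
the letter `j`, `lv_diff` gives
`‖ρ (s g) v - v‖ = ‖ρ (sgl G i x (y i j)) v - ρ (sgl G i (α i σ x) (y i j)) v‖` (the two factors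
commute, apply the isometry `ρ (sgl G i (α i σ x) (y i j))`). The sets for different `j` are
disjoint (`hj` determines `j`), hence
`∑ j, (card of the set) * ‖ρ (sgl G i x (y i j)) v - ρ (sgl G i (α i σ x) (y i j)) v‖ ^ 2 ≤
4 * card P * d`, and `ht` gives the claim. -/
theorem pair_ineq {P I : Type} [Group P] [Fintype P] {X : I → Type} [∀ i, DecidableEq (X i)]
    (α : ∀ i, P →* Equiv.Perm (X i)) (G : I → Type) [∀ i, Group (G i)] {J : I → Type}
    [∀ i, Fintype (J i)] [∀ i, DecidableEq (J i)] (y : ∀ i, J i → G i)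
    (t : ∀ i, X i → Option (J i)) (i : I)
    (x : X i) (Z : Finset (X i)) (σ : P) (D : ℕ)
    (h1 : α i σ x ≠ x) (h2 : ∀ z, z ∉ Z → α i σ z = z) (h3 : ∀ i', i' ≠ i → α i' σ = 1)
    (ht : ∀ j, Fintype.card P ≤ 2 ^ (D + 2) * Fintype.card (J i) *
      (Finset.univ.filter (fun g : P => t i ((α i g)⁻¹ x) = some j ∧
        ∀ z ∈ Z, z ≠ x → t i ((α i g)⁻¹ z) = none)).card)
    {V : Type} [NormedAddCommGroup V] [InnerProductSpace ℂ V]
    (ρ : (∀ i, X i → G i) →* (V ≃ₗᵢ[ℂ] V)) (v : V) :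
    ∑ j, ‖ρ (sgl G i x (y i j)) v - ρ (sgl G i (α i σ x) (y i j)) v‖ ^ 2 ≤
      2 ^ (D + 4) * (Fintype.card (J i) : ℝ) *
        (((Fintype.card P : ℝ))⁻¹ * ∑ g : P, ‖ρ (wrAct α G g (lv y t)) v - v‖ ^ 2) := by
  classical
  set Y : P → (∀ i, X i → G i) := fun g => wrAct α G g (lv y t) with hY
  set N : ℝ := (Fintype.card P : ℝ) with hN
  have hN0 : 0 < N := by
    rw [hN]
    exact_mod_cast Fintype.card_pos
  set A : J i → Finset P := fun j => Finset.univ.filter (fun g : P => t i ((α i g)⁻¹ x) = some j ∧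
        ∀ z ∈ Z, z ≠ x → t i ((α i g)⁻¹ z) = none) with hA
  set Q : J i → ℝ := fun j => ‖ρ (sgl G i x (y i j)) v - ρ (sgl G i (α i σ x) (y i j)) v‖ ^ 2
    with hQ
  set T : ℝ := ∑ g : P, ‖ρ (Y g) v - v‖ ^ 2 with hT
  have hT0 : 0 ≤ T := Finset.sum_nonneg fun _ _ => sq_nonneg _
  -- upper bound
  have k1 : ∑ g : P, ‖ρ (Y g * (Y (σ * g))⁻¹) v - v‖ ^ 2 ≤ 4 * T := by
    have e1 : ∀ g : P, ‖ρ (Y g * (Y (σ * g))⁻¹) v - v‖ ^ 2 ≤
        2 * ‖ρ (Y g) v - v‖ ^ 2 + 2 * ‖ρ (Y (σ * g)) v - v‖ ^ 2 := by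
      intro g
      have e2 : ‖ρ (Y g * (Y (σ * g))⁻¹) v - v‖ ≤ ‖ρ (Y g) v - v‖ + ‖ρ (Y (σ * g)) v - v‖ := by
        refine (disp_mul ρ v _ _).trans ?_
        rw [disp_inv]
      nlinarith [norm_nonneg (ρ (Y g * (Y (σ * g))⁻¹) v - v), norm_nonneg (ρ (Y g) v - v),
        norm_nonneg (ρ (Y (σ * g)) v - v), sq_nonneg (‖ρ (Y g) v - v‖ - ‖ρ (Y (σ * g)) v - v‖)]
    have e3 : ∑ g : P, ‖ρ (Y (σ * g)) v - v‖ ^ 2 = T :=
      Equiv.sum_comp (Equiv.mulLeft σ) (fun g => ‖ρ (Y g) v - v‖ ^ 2)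
    calc ∑ g : P, ‖ρ (Y g * (Y (σ * g))⁻¹) v - v‖ ^ 2
        ≤ ∑ g : P, (2 * ‖ρ (Y g) v - v‖ ^ 2 + 2 * ‖ρ (Y (σ * g)) v - v‖ ^ 2) :=
          Finset.sum_le_sum fun g _ => e1 g
      _ = 4 * T := by
        rw [Finset.sum_add_distrib, ← Finset.mul_sum, ← Finset.mul_sum, e3]
        ring
  -- the values on the sets `A j`
  have k2 : ∀ j, ∀ g ∈ A j, ‖ρ (Y g * (Y (σ * g))⁻¹) v - v‖ ^ 2 = Q j := by
    intro j g hg
    rw [hA] at hg
    simp only [Finset.mem_filter, Finset.mem_univ, true_and] at hg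
    have e1 := lv_diff α G y t i x Z σ h1 h2 h3 g j hg.1 hg.2
    have e2 : Y g * (Y (σ * g))⁻¹ =
        sgl G i x (y i j) * (sgl G i (α i σ x) (y i j))⁻¹ := e1
    have e3 : sgl G i x (y i j) * (sgl G i (α i σ x) (y i j))⁻¹ =
        (sgl G i (α i σ x) (y i j))⁻¹ * sgl G i x (y i j) :=
      ((sgl_comm G i h1.symm (y i j) (y i j)).inv_right).eq
    rw [e2, e3, hQ]
    congr 1
    have e4 : ρ ((sgl G i (α i σ x) (y i j))⁻¹ * sgl G i x (y i j)) v - v =
        ρ ((sgl G i (α i σ x) (y i j))⁻¹)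
          (ρ (sgl G i x (y i j)) v - ρ (sgl G i (α i σ x) (y i j)) v) := by
      rw [map_sub, map_mul]
      congr 1
      change v = (ρ ((sgl G i (α i σ x) (y i j))⁻¹) * ρ (sgl G i (α i σ x) (y i j))) v
      rw [← map_mul, inv_mul_cancel, map_one]
      rfl
    rw [e4, LinearIsometryEquiv.norm_map]
  have k3 : ∑ j, ((A j).card : ℝ) * Q j ≤ 4 * T := by
    refine le_trans ?_ k1
    have e1 : ∀ j, ((A j).card : ℝ) * Q j = ∑ g ∈ A j, ‖ρ (Y g * (Y (σ * g))⁻¹) v - v‖ ^ 2 := by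
      intro j
      rw [Finset.sum_congr rfl (k2 j), Finset.sum_const, nsmul_eq_mul]
    rw [Finset.sum_congr rfl fun j _ => e1 j, ← Finset.sum_biUnion]
    · exact Finset.sum_le_sum_of_subset_of_nonneg (Finset.subset_univ _)
        fun _ _ _ => sq_nonneg _
    · intro j _ j' _ hjj
      rw [Function.onFun, Finset.disjoint_left]
      intro g hg hg'
      rw [hA] at hg hg'
      simp only [Finset.mem_filter, Finset.mem_univ, true_and] at hg hg'
      have e2 := hg.1.symm.trans hg'.1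
      exact hjj (Option.some_inj.1 e2)
  have k4 : ∀ j, Q j ≤ 2 ^ (D + 2) * (Fintype.card (J i) : ℝ) * N⁻¹ * (((A j).card : ℝ) * Q j) := by
    intro j
    have e1 : N ≤ 2 ^ (D + 2) * (Fintype.card (J i) : ℝ) * ((A j).card : ℝ) := by
      have := ht j
      rw [hN, hA]
      exact_mod_cast this
    have hQ0 : 0 ≤ Q j := sq_nonneg _
    have e2 : (1 : ℝ) ≤ 2 ^ (D + 2) * (Fintype.card (J i) : ℝ) * N⁻¹ * ((A j).card : ℝ) := by
      have e3 : (1 : ℝ) = N * N⁻¹ := (mul_inv_cancel₀ hN0.ne').symm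
      rw [e3]
      calc N * N⁻¹ ≤ (2 ^ (D + 2) * (Fintype.card (J i) : ℝ) * ((A j).card : ℝ)) * N⁻¹ :=
            mul_le_mul_of_nonneg_right e1 (inv_nonneg.2 hN0.le)
        _ = _ := by ring
    calc Q j = 1 * Q j := (one_mul _).symm
      _ ≤ (2 ^ (D + 2) * (Fintype.card (J i) : ℝ) * N⁻¹ * ((A j).card : ℝ)) * Q j :=
          mul_le_mul_of_nonneg_right e2 hQ0
      _ = _ := by ring
  calc ∑ j, Q j ≤ ∑ j, 2 ^ (D + 2) * (Fintype.card (J i) : ℝ) * N⁻¹ * (((A j).card : ℝ) * Q j) :=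
        Finset.sum_le_sum fun j _ => k4 j
    _ = 2 ^ (D + 2) * (Fintype.card (J i) : ℝ) * N⁻¹ * ∑ j, ((A j).card : ℝ) * Q j := by
        rw [Finset.mul_sum]
    _ ≤ 2 ^ (D + 2) * (Fintype.card (J i) : ℝ) * N⁻¹ * (4 * T) := by
        refine mul_le_mul_of_nonneg_left k3 ?_
        have := inv_nonneg.2 hN0.le
        positivity
    _ = 2 ^ (D + 4) * (Fintype.card (J i) : ℝ) * (N⁻¹ * T) := by
        rw [show D + 4 = (D + 2) + 2 from rfl, pow_add 2 (D + 2) 2]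
        ring

/-- The local inequality.

Proof. `pair_ineq` for `σ` and for `τ`, and the lemma `dm` for the representation
`ρ.comp (sgl G i x)` of `G i` and the operators `R j = ρ (sgl G i (α i σ x) (y i j))`,
`R' j = ρ (sgl G i (α i τ x) (y i j))` (`sgl_comm`). If
`2 ^ (D + 14) * d < ‖v‖ ^ 2` the hypotheses of `dm` hold (`2 ^ (D + 4) * n * d ≤ n ‖v‖ ^ 2 / 1024`,
`1024 = 2 ^ 10`), so `v = 0`, a contradiction. -/
theorem loc_ineq {P I : Type} [Group P] [Fintype P] {X : I → Type} [∀ i, DecidableEq (X i)]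
    (α : ∀ i, P →* Equiv.Perm (X i)) (G : I → Type) [∀ i, Group (G i)] [∀ i, Fintype (G i)]
    {J : I → Type} [∀ i, Fintype (J i)] [∀ i, DecidableEq (J i)] (y : ∀ i, J i → G i)
    (t : ∀ i, X i → Option (J i)) (i : I) [Nonempty (J i)]
    (hG : commutator (G i) = ⊤) (hy : Mix (y i) (1 / 100))
    (x : X i) (Z : Finset (X i)) (σ τ : P) (D : ℕ)
    (h1 : α i σ x ≠ x) (h1' : α i τ x ≠ x) (h1'' : α i σ x ≠ α i τ x)
    (h2 : ∀ z, z ∉ Z → α i σ z = z ∧ α i τ z = z)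
    (h3 : ∀ i', i' ≠ i → α i' σ = 1 ∧ α i' τ = 1)
    (ht : ∀ j, Fintype.card P ≤ 2 ^ (D + 2) * Fintype.card (J i) *
      (Finset.univ.filter (fun g : P => t i ((α i g)⁻¹ x) = some j ∧
        ∀ z ∈ Z, z ≠ x → t i ((α i g)⁻¹ z) = none)).card)
    {V : Type} [NormedAddCommGroup V] [InnerProductSpace ℂ V] [FiniteDimensional ℂ V]
    (ρ : (∀ i, X i → G i) →* (V ≃ₗᵢ[ℂ] V)) (v : V) (hv : av (ρ.comp (sgl G i x)) v = 0) :
    ‖v‖ ^ 2 ≤ 2 ^ (D + 14) *
      (((Fintype.card P : ℝ))⁻¹ * ∑ g : P, ‖ρ (wrAct α G g (lv y t)) v - v‖ ^ 2) := by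
  by_contra hcon
  push Not at hcon
  set d : ℝ := ((Fintype.card P : ℝ))⁻¹ * ∑ g : P, ‖ρ (wrAct α G g (lv y t)) v - v‖ ^ 2 with hd
  have hd0 : 0 ≤ d := by
    refine mul_nonneg (inv_nonneg.2 (Nat.cast_nonneg _)) ?_
    exact Finset.sum_nonneg fun _ _ => sq_nonneg _
  have hn0 : (0 : ℝ) ≤ (Fintype.card (J i) : ℝ) := Nat.cast_nonneg _
  have e0 : (2 : ℝ) ^ (D + 4) * (Fintype.card (J i) : ℝ) * d ≤
      (Fintype.card (J i) : ℝ) * ‖v‖ ^ 2 / 1024 := by
    have e1 : (2 : ℝ) ^ (D + 14) = 2 ^ (D + 4) * 1024 := by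
      rw [show D + 14 = (D + 4) + 10 from rfl, pow_add 2 (D + 4) 10]
      norm_num
    rw [e1] at hcon
    have e2 : (2 : ℝ) ^ (D + 4) * d ≤ ‖v‖ ^ 2 / 1024 := by linarith
    calc (2 : ℝ) ^ (D + 4) * (Fintype.card (J i) : ℝ) * d
        = (Fintype.card (J i) : ℝ) * (2 ^ (D + 4) * d) := by ring
      _ ≤ (Fintype.card (J i) : ℝ) * (‖v‖ ^ 2 / 1024) := mul_le_mul_of_nonneg_left e2 hn0
      _ = _ := by ring
  have p1 := pair_ineq α G y t i x Z σ D h1 (fun z hz => (h2 z hz).1) (fun i' hi => (h3 i' hi).1)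
    ht ρ v
  have p2 := pair_ineq α G y t i x Z τ D h1' (fun z hz => (h2 z hz).2) (fun i' hi => (h3 i' hi).2)
    ht ρ v
  have hcm : ∀ (a b : ∀ i, X i → G i), Commute a b → ∀ u, ρ a (ρ b u) = ρ b (ρ a u) := by
    intro a b hab u
    change (ρ a * ρ b) u = (ρ b * ρ a) u
    rw [← map_mul, ← map_mul, hab.eq]
  have hv0 : v = 0 := by
    refine dm hG hy (ρ.comp (sgl G i x)) (fun j => ρ (sgl G i (α i σ x) (y i j)))
      (fun j => ρ (sgl G i (α i τ x) (y i j))) ?_ ?_ ?_ v hv (p1.trans e0) (p2.trans e0)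
    · intro j g u
      exact hcm _ _ (sgl_comm G i h1 _ _) u
    · intro j g u
      exact hcm _ _ (sgl_comm G i h1' _ _) u
    · intro j j' u
      exact hcm _ _ (sgl_comm G i h1'' _ _) u
  rw [hv0, norm_zero] at hcon
  have : (0 : ℝ) ≤ 2 ^ (D + 14) * d := by positivity
  linarith

end Pool.Agent.MPfe8e9bW
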