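import Mathlib
import Pool.Agent.Lib.MP_fe8e9b_al_W.Defs
import Pool.Agent.Lib.MP_fe8e9b_al_W.Lay2
import Pool.Agent.Lib.MP_fe8e9b_al_W.LocI
import Pool.Agent.Lib.MP_fe8e9b_al_W.Dec
import Pool.Agent.Lib.MP_fe8e9b_al_W.Gapw

/-!
# MP_fe8e9b_al, wreath towers: the reset lemma
-/

set_option autoImplicit false

open scoped BigOperators

namespace Pool.Agent.MPfe8e9bW

open Pool.Agent.MPfe8e9b Pool.Agent.MPfe8e9bA

/-- The reset lemma: the expansion of the wreath product does not depend on the expansion of the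
groups `G i`, only the sets `X i` have to be large.

Proof. `C₂ = 8 * 2 ^ (D + 14) + 1`. For every `i` take `x i`, `Z i`, `σ i`, `τ i` from `hα i` and
the distribution `t i` of `layout` for `α i`, `x i`, `Z i`, `q i`. Let `y' = lv y t`. For a
representation `ρ` of `∀ i, X i → G i`, a coordinate `(i, x')` and `v` with
`av (ρ.comp (sgl G i x')) v = 0` apply `loc_ineq` to `x'`, `Z' = image of Z i under α i h`,
`h σ h⁻¹`, `h τ h⁻¹`, where `α i h (x i) = x'`: the sets of `ht` for `x'`, `Z'` are the translates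
`h * g` of the sets for `x i`, `Z i`, so have the same number of elements. `dec` with the
homomorphisms `sgl G i x` (`sgl_normal`, `sgl_gen`; index type `Σ i, X i`, `L = P`,
`C = 2 ^ (D + 14) * (card P)⁻¹`) gives the hypothesis of `gap_semi`. If some `X i` is empty the
statement for it is void (`Loc` gives a point of every `X i`). -/
theorem reset (D : ℕ) (P I : Type) [Group P] [Finite I] (X : I → Type) [∀ i, Finite (X i)]
    (α : ∀ i, P →* Equiv.Perm (X i)) (hα : Loc D α) (G : I → Type) [∀ i, Group (G i)]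
    [∀ i, Fintype (G i)] (hG : ∀ i, commutator (G i) = ⊤) (q : I → ℕ) (hq : ∀ i, 0 < q i)
    (y : ∀ i, Fin (q i) → G i) (hy : ∀ i, Mix (y i) (1 / 100))
    (hX : ∀ i, 4 * (D + 1) ^ 2 * 2 ^ (D + 1) * (q i) ^ 2 < Nat.card (X i))
    {k : ℕ} {κ : ℝ} (hκ : 0 < κ) (hκ1 : κ ≤ 1) (hP : FExpd P k κ) :
    FExpd (Wr α G) (k + 1) (κ / (8 * 2 ^ (D + 14) + 1)) := by
  classical
  obtain ⟨instP, hPe⟩ := hP
  have : Fintype I := Fintype.ofFinite I
  have : ∀ i, Fintype (X i) := fun i => Fintype.ofFinite _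
  have hlay : ∀ i, ∃ (x : X i) (Z : Finset (X i)) (σ τ : P) (t : X i → Option (Fin (q i))),
      α i σ x ≠ x ∧ α i τ x ≠ x ∧ α i σ x ≠ α i τ x ∧
      (∀ z, z ∉ Z → α i σ z = z ∧ α i τ z = z) ∧
      (∀ j, j ≠ i → α j σ = 1 ∧ α j τ = 1) ∧
      ∀ j, Fintype.card P ≤ 2 ^ (D + 2) * q i *
        (Finset.univ.filter (fun g : P => t ((α i g)⁻¹ x) = some j ∧
          ∀ z ∈ Z, z ≠ x → t ((α i g)⁻¹ z) = none)).card := by
    intro i
    obtain ⟨htr, x, Z, σ, τ, hZ, h1, h1', h1'', h2, h3⟩ := hα i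
    have hXi := hX i
    rw [Nat.card_eq_fintype_card] at hXi
    obtain ⟨t, ht⟩ := layout (α i) htr x Z D (q i) hZ (hq i) hXi
    exact ⟨x, Z, σ, τ, t, h1, h1', h1'', h2, h3, ht⟩
  choose x Z σ τ t h1 h1' h1'' h2 h3 ht using hlay
  refine gap_semi (wrAct α G) (lv y t) (2 ^ (D + 14)) (by positivity) ?_ hκ hκ1 hPe
  intro V _ _ _ ρ v hv
  have key := dec (K := Σ i, X i) (fun s => G s.1) (fun s => sgl G s.1 s.2)
    (fun s m => sgl_normal G s.1 s.2 m) (fun Q hQ => sgl_gen G Q (fun i x a => hQ ⟨i, x⟩ a))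
    (fun g : P => wrAct α G g (lv y t)) (2 ^ (D + 14) * ((Fintype.card P : ℝ))⁻¹)
    (by positivity) ρ ?_ v hv
  · rw [mul_assoc] at key
    exact key
  rintro ⟨i, x'⟩ u hu
  obtain ⟨p, hp⟩ := (hα i).1 (x i) x'
  have hconj : ∀ (s : P) (w : X i), α i (p * s * p⁻¹) (α i p w) = α i p (α i s w) := by
    intro s w
    simp [map_mul]
  haveI : Nonempty (Fin (q i)) := ⟨⟨0, hq i⟩⟩
  have hloc := loc_ineq α G y t i (hG i) (hy i) x' ((Z i).image (α i p)) (p * σ i * p⁻¹)
    (p * τ i * p⁻¹) D ?_ ?_ ?_ ?_ ?_ ?_ ρ u hu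
  · rw [mul_assoc]
    exact hloc
  · rw [← hp, hconj]
    exact fun h => h1 i ((α i p).injective h)
  · rw [← hp, hconj]
    exact fun h => h1' i ((α i p).injective h)
  · rw [← hp, hconj, hconj]
    exact fun h => h1'' i ((α i p).injective h)
  · intro z hz
    obtain ⟨w, rfl⟩ := (α i p).surjective z
    have hw : w ∉ Z i := fun hw => hz (Finset.mem_image_of_mem _ hw)
    rw [hconj, hconj, (h2 i w hw).1, (h2 i w hw).2]
    exact ⟨rfl, rfl⟩
  · intro i' hi'
    simp [map_mul, (h3 i i' hi').1, (h3 i i' hi').2]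
  · intro j
    rw [Fintype.card_fin]
    refine (ht i j).trans (le_of_eq ?_)
    congr 1
    refine Finset.card_bijective (fun g => p * g) (Group.mulLeft_bijective p) (fun g => ?_)
    have hinv : ∀ w : X i, (α i (p * g))⁻¹ (α i p w) = (α i g)⁻¹ w := by
      intro w
      simp [map_mul, mul_inv_rev]
    simp only [Finset.mem_filter, Finset.mem_univ, true_and, Finset.forall_mem_image]
    rw [← hp, hinv]
    refine and_congr Iff.rfl (forall_congr' fun w => forall_congr' fun _ => ?_)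
    rw [hinv, (α i p).injective.ne_iff]

end Pool.Agent.MPfe8e9bW
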