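import Mathlib
import Pool.Agent.Lib.MP_fe8e9b_al_W.Defs
import Pool.Agent.Lib.MP_fe8e9b_al_W.Perf
import Pool.Agent.Lib.MP_fe8e9b_al_W.ExpPi
import Pool.Agent.Lib.MP_fe8e9b_al_W.HomC
import Pool.Agent.Lib.MP_fe8e9b_al_W.MixQ
import Pool.Agent.Lib.MP_fe8e9b_al_W.Reset

/-!
# MP_fe8e9b_al, wreath towers: one step
-/

set_option autoImplicit false

open scoped BigOperators

namespace Pool.Agent.MPfe8e9bW

open Pool.Agent.MPfe8e9b Pool.Agent.MPfe8e9bA

/-- One step with large sets: the cost does not depend on the cost of the groups `G i`.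

Proof. Let `C` be the constant of `mix_cost`. A group `G i` with `Cost c` has a list of length
`q i ≤ 2 ^ (C * (c + 1))` with `Mix (y i) (1/100)`.
`4 (D+1)^2 2^(D+1) (q i)^2 < Nat.card (X i)` holds if
`4 (D+1)^2 2^(D+1) 2 ^ (2 C (c+1)) < 2 ^ (C₁ * (c + 1))`, for instance `C₁ = 2 C + 3 D + 6`
(`(D+1)^2 ≤ 2 ^ (2 D)`). `reset` with `Cost c' P` (`k + 1 ≤ κ 2 ^ c'`) gives
`FExpd (Wr α G) (k + 1) (κ / (8 * 2 ^ (D+14) + 1))` and
`k + 2 ≤ 2 (k + 1) ≤ κ / (8 * 2 ^ (D+14) + 1) * 2 ^ (c' + C₀)` with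
`2 (8 * 2 ^ (D+14) + 1) ≤ 2 ^ C₀`, `C₀ = D + 19`. -/
theorem step_large (D : ℕ) : ∃ C₁ C₀ : ℕ, 0 < C₁ ∧ ∀ (c c' : ℕ) (P I : Type) [Group P]
    [Finite I] (X : I → Type) [∀ i, Finite (X i)] (α : ∀ i, P →* Equiv.Perm (X i))
    (_ : Loc D α) (G : I → Type) [∀ i, Group (G i)] (_ : ∀ i, commutator (G i) = ⊤)
    (_ : ∀ i, Cost c (G i)) (_ : Cost c' P) (_ : ∀ i, 2 ^ (C₁ * (c + 1)) ≤ Nat.card (X i)),
    Cost (c' + C₀) (Wr α G) := by
  obtain ⟨C, hC⟩ := mix_cost
  refine ⟨2 * C + 3 * D + 6, D + 19, by omega, ?_⟩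
  intro c c' P I _ _ X _ α hα G _ hG hc hP hX
  classical
  have hfin : ∀ i, Finite (G i) := by
    intro i
    obtain ⟨k, κ, _, _, _, inst, _⟩ := hc i
    exact Finite.of_fintype (G i)
  letI : ∀ i, Fintype (G i) := fun i => Fintype.ofFinite (G i)
  have h1 := fun i => hC c (G i) (hc i)
  choose q y hq0 hq1 hy using h1
  obtain ⟨k, κ, hκ0, hκ1, hkκ, hF⟩ := hP
  have hX' : ∀ i, 4 * (D + 1) ^ 2 * 2 ^ (D + 1) * (q i) ^ 2 < Nat.card (X i) := by
    intro i
    have e1 : D + 1 ≤ 2 ^ D := Nat.lt_two_pow_self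
    have e2 : (D + 1) ^ 2 ≤ 2 ^ (2 * D) := by
      calc (D + 1) ^ 2 ≤ (2 ^ D) ^ 2 := Nat.pow_le_pow_left e1 2
        _ = 2 ^ (2 * D) := by rw [← pow_mul, mul_comm]
    have e3 : (q i) ^ 2 ≤ 2 ^ (2 * (C * (c + 1))) := by
      calc (q i) ^ 2 ≤ (2 ^ (C * (c + 1))) ^ 2 := Nat.pow_le_pow_left (hq1 i) 2
        _ = 2 ^ (2 * (C * (c + 1))) := by rw [← pow_mul, mul_comm]
    have e4 : 4 * (D + 1) ^ 2 * 2 ^ (D + 1) * (q i) ^ 2 ≤
        2 ^ (3 * D + 3 + 2 * (C * (c + 1))) := by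
      calc 4 * (D + 1) ^ 2 * 2 ^ (D + 1) * (q i) ^ 2
          ≤ 4 * 2 ^ (2 * D) * 2 ^ (D + 1) * 2 ^ (2 * (C * (c + 1))) := by gcongr
        _ = 2 ^ (3 * D + 3 + 2 * (C * (c + 1))) := by ring
    have e5 : 3 * D + 3 + 2 * (C * (c + 1)) < (2 * C + 3 * D + 6) * (c + 1) := by nlinarith
    calc 4 * (D + 1) ^ 2 * 2 ^ (D + 1) * (q i) ^ 2
        ≤ 2 ^ (3 * D + 3 + 2 * (C * (c + 1))) := e4
      _ < 2 ^ ((2 * C + 3 * D + 6) * (c + 1)) := Nat.pow_lt_pow_right (by norm_num) e5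
      _ ≤ Nat.card (X i) := hX i
  have hR := reset D P I X α hα G hG q hq0 y hy hX' hκ0 hκ1 hF
  have hpos : (0 : ℝ) < 8 * 2 ^ (D + 14) + 1 := by positivity
  refine ⟨k + 1, κ / (8 * 2 ^ (D + 14) + 1), by positivity, ?_, ?_, hR⟩
  · rw [div_le_one hpos]
    have : (0 : ℝ) < 2 ^ (D + 14) := by positivity
    linarith
  · have e6 : (2 : ℝ) * (8 * 2 ^ (D + 14) + 1) ≤ 2 ^ (D + 19) := by
      have e7 : (2 : ℝ) ^ (D + 19) = 32 * 2 ^ (D + 14) := by ring
      have e8 : (1 : ℝ) ≤ 2 ^ (D + 14) := one_le_pow₀ (by norm_num)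
      rw [e7]
      linarith
    have e9 : κ / (8 * 2 ^ (D + 14) + 1) * 2 ^ (c' + (D + 19)) =
        (κ * 2 ^ c') * (2 ^ (D + 19) / (8 * 2 ^ (D + 14) + 1)) := by
      rw [pow_add (2 : ℝ) c' (D + 19)]
      field_simp
    have e10 : (2 : ℝ) ≤ 2 ^ (D + 19) / (8 * 2 ^ (D + 14) + 1) := by
      rw [le_div_iff₀ hpos]
      exact e6
    have e11 : (0 : ℝ) ≤ k := Nat.cast_nonneg k
    rw [e9]
    push_cast
    calc (k : ℝ) + 1 + 1 ≤ ((k : ℝ) + 1) * 2 := by linarith
      _ ≤ (κ * 2 ^ c') * (2 ^ (D + 19) / (8 * 2 ^ (D + 14) + 1)) :=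
        mul_le_mul hkκ e10 (by norm_num) (by positivity)

/-- Restriction of the families to the indices with property `p`. -/
def crudeRes {P I : Type} [Group P] {X : I → Type} (α : ∀ i, P →* Equiv.Perm (X i))
    (G : I → Type) [∀ i, Group (G i)] (p : I → Prop) :
    Wr α G →* Wr (fun i : {i // p i} => α i.1) (fun i : {i // p i} => G i.1) :=
  MonoidHom.mk' (fun w => ⟨fun i x => w.left i.1 x, w.right⟩) (fun _ _ => rfl)

theorem crudeRes_surj {P I : Type} [Group P] {X : I → Type} (α : ∀ i, P →* Equiv.Perm (X i))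
    (G : I → Type) [∀ i, Group (G i)] (p : I → Prop) :
    Function.Surjective (crudeRes α G p) := by
  classical
  intro w
  refine ⟨⟨fun i x => if h : p i then w.left ⟨i, h⟩ x else 1, w.right⟩, ?_⟩
  apply SemidirectProduct.ext
  · funext i x
    change (if h : p i.1 then w.left ⟨i.1, h⟩ x else 1) = w.left i x
    rw [dif_pos i.2]
  · rfl

open Classical in
/-- Inclusion of the coordinates without property `p`. -/
noncomputable def crudeInc {P I : Type} [Group P] {X : I → Type}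
    (α : ∀ i, P →* Equiv.Perm (X i)) (G : I → Type) [∀ i, Group (G i)] (p : I → Prop) :
    (∀ s : (Σ i : {i // p i}, X i.1), G s.1.1) →* Wr α G :=
  SemidirectProduct.inl.comp (MonoidHom.mk'
    (fun z i x => if h : p i then z ⟨⟨i, h⟩, x⟩ else 1) (by
      intro a b
      funext i x
      change (if h : p i then (a * b) ⟨⟨i, h⟩, x⟩ else (1 : G i)) =
        (if h : p i then a ⟨⟨i, h⟩, x⟩ else (1 : G i)) *
          (if h : p i then b ⟨⟨i, h⟩, x⟩ else (1 : G i))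
      by_cases h : p i
      · rw [dif_pos h, dif_pos h, dif_pos h]
        rfl
      · rw [dif_neg h, dif_neg h, dif_neg h, mul_one]))

theorem crudeInc_left {P I : Type} [Group P] {X : I → Type}
    (α : ∀ i, P →* Equiv.Perm (X i)) (G : I → Type) [∀ i, Group (G i)] (p : I → Prop)
    (z : ∀ s : (Σ i : {i // p i}, X i.1), G s.1.1) (i : I) (x : X i) (h : p i) :
    (crudeInc α G p z).left i x = z ⟨⟨i, h⟩, x⟩ := by
  classical
  change (if h : p i then z ⟨⟨i, h⟩, x⟩ else (1 : G i)) = _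
  rw [dif_pos h]

theorem crudeInc_left' {P I : Type} [Group P] {X : I → Type}
    (α : ∀ i, P →* Equiv.Perm (X i)) (G : I → Type) [∀ i, Group (G i)] (p : I → Prop)
    (z : ∀ s : (Σ i : {i // p i}, X i.1), G s.1.1) (i : I) (x : X i) (h : ¬ p i) :
    (crudeInc α G p z).left i x = 1 := by
  classical
  change (if h : p i then z ⟨⟨i, h⟩, x⟩ else (1 : G i)) = _
  rw [dif_neg h]

theorem crudeInc_right {P I : Type} [Group P] {X : I → Type}
    (α : ∀ i, P →* Equiv.Perm (X i)) (G : I → Type) [∀ i, Group (G i)] (p : I → Prop)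
    (z : ∀ s : (Σ i : {i // p i}, X i.1), G s.1.1) : (crudeInc α G p z).right = 1 := rfl

theorem crudeInc_inj {P I : Type} [Group P] {X : I → Type}
    (α : ∀ i, P →* Equiv.Perm (X i)) (G : I → Type) [∀ i, Group (G i)] (p : I → Prop) :
    Function.Injective (crudeInc α G p) := by
  intro a b hab
  funext s
  obtain ⟨⟨i, h⟩, x⟩ := s
  rw [← crudeInc_left α G p a i x h, ← crudeInc_left α G p b i x h, hab]

theorem crude_range {P I : Type} [Group P] {X : I → Type}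
    (α : ∀ i, P →* Equiv.Perm (X i)) (G : I → Type) [∀ i, Group (G i)] (p r : I → Prop)
    (hpr : ∀ i, r i ↔ ¬ p i) : (crudeInc α G p).range = (crudeRes α G r).ker := by
  ext w
  rw [MonoidHom.mem_range, MonoidHom.mem_ker]
  constructor
  · rintro ⟨z, rfl⟩
    apply SemidirectProduct.ext
    · funext i x
      exact crudeInc_left' α G p z i.1 x ((hpr i.1).1 i.2)
    · rfl
  · intro hw
    refine ⟨fun s => w.left s.1.1 s.2, ?_⟩
    apply SemidirectProduct.ext
    · funext i x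
      by_cases h : p i
      · rw [crudeInc_left α G p _ i x h]
      · rw [crudeInc_left' α G p _ i x h]
        have h1 := congrArg (fun u => u.left ⟨i, (hpr i).2 h⟩ x) hw
        exact h1.symm
    · have h2 := congrArg (fun u => u.right) hw
      exact h2.symm

theorem crude_loc {D : ℕ} {P I : Type} [Group P] {X : I → Type}
    (α : ∀ i, P →* Equiv.Perm (X i)) (hα : Loc D α) (r : I → Prop) :
    Loc D (fun i : {i // r i} => α i.1) := by
  intro i
  obtain ⟨h1, x, Z, σ, τ, h2, h3, h4, h5, h6, h7⟩ := hα i.1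
  exact ⟨h1, x, Z, σ, τ, h2, h3, h4, h5, h6, fun j hj => h7 j.1 (fun e => hj (Subtype.ext e))⟩

/-- One step, without a condition on the sets.

Proof. Let `N = 2 ^ (C₁ * (c + 1))` from `step_large`. The wreath product over the indices `i`
with `N ≤ card (X i)` (restriction of the families; `Loc` is inherited) has cost at most
`c' + C₀` by `step_large`. `Wr α G` maps onto it with kernel isomorphic to the product of the groups
`G i` over the pairs `(i, x)` with `card (X i) < N`, at most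
`B = (N + 1) * (N * (N !) ^ (2 ^ c'))` pairs (`loc_count_le` with `Cost.fexpd`). By `fexpd_pi`
the kernel has `FExpd _ (B * 2 ^ c) (1 / 2 ^ c)`; `fexpd_extension` with
`κ = min (1 / 2 ^ c) (1 / 2 ^ (c' + C₀))` and `exists_cost`. -/
theorem crude (D c c' : ℕ) : ∃ c'' : ℕ, ∀ (P I : Type) [Group P]
    [Finite I] (X : I → Type) [∀ i, Finite (X i)] (α : ∀ i, P →* Equiv.Perm (X i))
    (_ : Loc D α) (G : I → Type) [∀ i, Group (G i)] (_ : ∀ i, commutator (G i) = ⊤)
    (_ : ∀ i, Cost c (G i)) (_ : Cost c' P), Cost c'' (Wr α G) := by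
  obtain ⟨C₁, C₀, _, hstep⟩ := step_large D
  have hκ : (0 : ℝ) < min (1 / 2 ^ c) (1 / 2 ^ (c' + C₀)) := by positivity
  obtain ⟨c'', hc''⟩ := exists_cost
    ((2 ^ (C₁ * (c + 1)) + 1) * (2 ^ (C₁ * (c + 1)) *
      (Nat.factorial (2 ^ (C₁ * (c + 1)))) ^ (2 ^ c')) * 2 ^ c + 2 ^ (c' + C₀)) hκ
  refine ⟨c'', ?_⟩
  intro P I _ _ X _ α hα G _ hG hc hP
  generalize hN : 2 ^ (C₁ * (c + 1)) = N at *
  apply hc''
  have hK := loc_count_le α hα (by positivity) hP.fexpd N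
  have h1 : FExpd (∀ s : (Σ i : {i // Nat.card (X i) ≤ N}, X i.1), G s.1.1) _ _ :=
    fexpd_pi _ hK (fun s => G s.1.1) (by positivity) (fun s => (hc s.1.1).fexpd)
  have h2 : Cost (c' + C₀) (Wr (fun i : {i // N < Nat.card (X i)} => α i.1)
      (fun i : {i // N < Nat.card (X i)} => G i.1)) := by
    refine hstep c c' P {i // N < Nat.card (X i)} (fun i => X i.1) (fun i => α i.1)
      (crude_loc α hα _) (fun i => G i.1) (fun i => hG i.1) (fun i => hc i.1) hP ?_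
    intro i
    rw [hN]
    exact i.2.le
  exact fexpd_extension (crudeInc α G (fun i => Nat.card (X i) ≤ N))
    (crudeRes α G (fun i => N < Nat.card (X i))) (crudeInc_inj α G _) (crudeRes_surj α G _)
    (crude_range α G _ _ (fun i => not_le.symm)) (h1.mono le_rfl (min_le_left _ _))
    (h2.fexpd.mono le_rfl (min_le_right _ _))

end Pool.Agent.MPfe8e9bW
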