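import Mathlib
import Pool.Agent.Lib.MP_fe8e9b_al_W.Defs

/-!
# MP_fe8e9b_al, wreath towers: composition of wreath products
-/

set_option autoImplicit false

open scoped BigOperators

namespace Pool.Agent.MPfe8e9bW

/-- The action of a wreath product on `X i × Y i j`: `(f, p) (x, y) = (p x, f (p x) y)`. -/
def cmp {P I : Type} [Group P] {X : I → Type} (α : ∀ i, P →* Equiv.Perm (X i)) {Q : I → Type}
    [∀ i, Group (Q i)] {J : I → Type} {Y : ∀ i, J i → Type}
    (β : ∀ i, ∀ j, Q i →* Equiv.Perm (Y i j)) (s : Σ i, J i) :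
    Wr α Q →* Equiv.Perm (X s.1 × Y s.1 s.2) where
  toFun w :=
    { toFun := fun z => (α s.1 w.right z.1, β s.1 s.2 (w.left s.1 (α s.1 w.right z.1)) z.2)
      invFun := fun z => ((α s.1 w.right)⁻¹ z.1, (β s.1 s.2 (w.left s.1 z.1))⁻¹ z.2)
      left_inv := fun z => by simp
      right_inv := fun z => by simp }
  map_one' := by
    ext z <;> simp
  map_mul' a b := by
    ext z <;> simp [wrAct_apply]

theorem cmp_apply {P I : Type} [Group P] {X : I → Type} (α : ∀ i, P →* Equiv.Perm (X i))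
    {Q : I → Type} [∀ i, Group (Q i)] {J : I → Type} {Y : ∀ i, J i → Type}
    (β : ∀ i, ∀ j, Q i →* Equiv.Perm (Y i j)) (s : Σ i, J i) (w : Wr α Q)
    (z : X s.1 × Y s.1 s.2) :
    cmp α β s w z = (α s.1 w.right z.1, β s.1 s.2 (w.left s.1 (α s.1 w.right z.1)) z.2) := rfl

/-- Associativity of wreath products.

Proof. Map `(F, p)` to `(fun s z => (F s.1 z.1).left s.2 z.2, ((fun i x => (F i x).right), p))`,
with inverse `(L, (f, p)) ↦ ((fun i x => (fun j y => L ⟨i, j⟩ (x, y), f i x)), p)`. It is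
multiplicative: the left part of `(F, p) * (F', p')` at `(x, y)` is
`(F i x).left j y * (F' i (p⁻¹ x)).left j ((β (F i x).right)⁻¹ y)` and
`(cmp α β ⟨i, j⟩ (f, p))⁻¹ (x, y) = (p⁻¹ x, (β (f i x))⁻¹ y)`. -/
theorem wr_assoc {P I : Type} [Group P] {X : I → Type} (α : ∀ i, P →* Equiv.Perm (X i))
    {Q : I → Type} [∀ i, Group (Q i)] {J : I → Type} {Y : ∀ i, J i → Type}
    (β : ∀ i, ∀ j, Q i →* Equiv.Perm (Y i j)) (A : ∀ i, J i → Type)
    [∀ i j, Group (A i j)] :
    Nonempty (Wr α (fun i => Wr (β i) (A i)) ≃*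
      Wr (fun s : Σ i, J i => cmp α β s) (fun s => A s.1 s.2)) := by
  refine ⟨{
    toFun := fun w => ⟨fun s z => (w.left s.1 z.1).left s.2 z.2,
      ⟨fun i x => (w.left i x).right, w.right⟩⟩
    invFun := fun w => ⟨fun i x => ⟨fun j y => w.left ⟨i, j⟩ (x, y), w.right.left i x⟩,
      w.right.right⟩
    left_inv := fun w => rfl
    right_inv := fun w => rfl
    map_mul' := fun w w' => ?_ }⟩
  apply SemidirectProduct.ext
  · funext s z
    rfl
  · apply SemidirectProduct.ext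
    · funext i x
      rfl
    · rfl

theorem assoc_sgl_same {I : Type} {X : I → Type} (G : I → Type) [∀ i, Group (G i)] (i : I)
    (x : X i) (g : G i) : sgl G i x g i x = g := by
  classical
  simp [sgl]

theorem assoc_sgl_ne {I : Type} {X : I → Type} (G : I → Type) [∀ i, Group (G i)] (i : I)
    (x : X i) (g : G i) {y : X i} (h : y ≠ x) : sgl G i x g i y = 1 := by
  classical
  simp [sgl, h]

theorem assoc_sgl_ne' {I : Type} {X : I → Type} (G : I → Type) [∀ i, Group (G i)] (i : I)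
    (x : X i) (g : G i) {i' : I} (h : i' ≠ i) (y : X i') : sgl G i x g i' y = 1 := by
  classical
  simp [sgl, h]

/-- The element used for the local elements. -/
noncomputable def assocElt {P I : Type} [Group P] {X : I → Type} (α : ∀ i, P →* Equiv.Perm (X i))
    (Q : I → Type) [∀ i, Group (Q i)] (i : I) (x : X i) (q : Q i) : Wr α Q :=
  ⟨sgl Q i x q, 1⟩

theorem assocElt_apply {P I : Type} [Group P] {X : I → Type} (α : ∀ i, P →* Equiv.Perm (X i))
    {Q : I → Type} [∀ i, Group (Q i)] {J : I → Type} {Y : ∀ i, J i → Type}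
    (β : ∀ i, ∀ j, Q i →* Equiv.Perm (Y i j)) (i : I) (x : X i) (q : Q i) (s : Σ i, J i)
    (z : X s.1 × Y s.1 s.2) :
    cmp α β s (assocElt α Q i x q) z = (z.1, β s.1 s.2 (sgl Q i x q s.1 z.1) z.2) := by
  rw [cmp_apply]
  simp [assocElt]

/-- The composition of actions with local elements has local elements.

Proof. Transitivity: move the first coordinate with `inr p` (`inr p (x, y) = (p x, y)`), then the
second with `inl (Pi.mulSingle i (Pi.mulSingle x q))`. Local elements for `⟨i, j⟩`: if `x, Z, σ, τ`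
are the local data of `β i` for `j`, and `x₀` is a point of `X i` (`hα i`), take `(x₀, x)`,
`{x₀} × Z`, and the elements `inl` of the function which is `σ` (resp. `τ`) at the coordinate
`(i, x₀)` and `1` elsewhere: it fixes every point with first coordinate different from `x₀`, and
acts trivially on `X i' × Y i' j'` for `i' ≠ i` and on `X i × Y i j'` for `j' ≠ j`. -/
theorem loc_cmp {D : ℕ} {P I : Type} [Group P] {X : I → Type}
    (α : ∀ i, P →* Equiv.Perm (X i)) (hα : Loc D α) {Q : I → Type} [∀ i, Group (Q i)]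
    {J : I → Type} {Y : ∀ i, J i → Type} (β : ∀ i, ∀ j, Q i →* Equiv.Perm (Y i j))
    (hβ : ∀ i, Loc D (β i)) : Loc D (fun s : Σ i, J i => cmp α β s) := by
  rintro ⟨i, j⟩
  obtain ⟨hαt, x₀, -⟩ := hα i
  obtain ⟨hβt, y₀, Z, σ, τ, hZ, hσ, hτ, hστ, hfix, hoth⟩ := hβ i j
  have key : ∀ q : Q i, (∀ z, z ∉ Z → β i j q z = z) → (∀ j', j' ≠ j → β i j' q = 1) →
      (∀ z : X i × Y i j, z ∉ Z.map ⟨fun y => (x₀, y), Prod.mk_right_injective x₀⟩ →
        cmp α β ⟨i, j⟩ (assocElt α Q i x₀ q) z = z) ∧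
      ∀ s : Σ i, J i, s ≠ ⟨i, j⟩ → cmp α β s (assocElt α Q i x₀ q) = 1 := by
    intro q h1 h2
    refine ⟨?_, ?_⟩
    · rintro ⟨x, y⟩ hz
      rw [assocElt_apply]
      by_cases hx : x = x₀
      · subst hx
        have hy : y ∉ Z := fun hy => hz (by
          rw [Finset.mem_map]
          exact ⟨y, hy, rfl⟩)
        simp only [assoc_sgl_same]
        rw [h1 y hy]
      · simp only [assoc_sgl_ne Q i x₀ q hx, map_one, Equiv.Perm.coe_one, id_eq]
    · rintro ⟨i', j'⟩ hs
      apply Equiv.ext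
      rintro ⟨x, y⟩
      rw [assocElt_apply]
      by_cases hi : i' = i
      · subst hi
        have hj : j' ≠ j := fun h => hs (by rw [h])
        by_cases hx : x = x₀
        · subst hx
          simp only [assoc_sgl_same, h2 j' hj, Equiv.Perm.coe_one, id_eq]
        · simp only [assoc_sgl_ne Q i' x₀ q hx, map_one, Equiv.Perm.coe_one, id_eq]
      · simp only [assoc_sgl_ne' Q i x₀ q hi, map_one, Equiv.Perm.coe_one, id_eq]
  obtain ⟨kσ1, kσ2⟩ := key σ (fun z hz => (hfix z hz).1) (fun j' hj' => (hoth j' hj').1)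
  obtain ⟨kτ1, kτ2⟩ := key τ (fun z hz => (hfix z hz).2) (fun j' hj' => (hoth j' hj').2)
  have hpt : ∀ q : Q i, cmp α β ⟨i, j⟩ (assocElt α Q i x₀ q) (x₀, y₀) = (x₀, β i j q y₀) := by
    intro q
    rw [assocElt_apply]
    simp only [assoc_sgl_same]
  refine ⟨?_, (x₀, y₀), Z.map ⟨fun y => (x₀, y), Prod.mk_right_injective x₀⟩,
    assocElt α Q i x₀ σ, assocElt α Q i x₀ τ, ?_, ?_, ?_, ?_, ?_, ?_⟩
  · rintro ⟨x, y⟩ ⟨x', y'⟩
    obtain ⟨p, hp⟩ := hαt x x'
    obtain ⟨q, hq⟩ := hβt y y'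
    refine ⟨⟨sgl Q i x' q, p⟩, ?_⟩
    rw [cmp_apply]
    simp only [hp, assoc_sgl_same, hq]
  · rw [Finset.card_map]
    exact hZ
  · rw [hpt]
    exact fun h => hσ (Prod.ext_iff.mp h).2
  · rw [hpt]
    exact fun h => hτ (Prod.ext_iff.mp h).2
  · rw [hpt, hpt]
    exact fun h => hστ (Prod.ext_iff.mp h).2
  · exact fun z hz => ⟨kσ1 z hz, kτ1 z hz⟩
  · exact fun s hs => ⟨kσ2 s hs, kτ2 s hs⟩

/-- A set with local elements has at least three points. -/
theorem loc_three {D : ℕ} {P I : Type} [Group P] {X : I → Type} [∀ i, Finite (X i)]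
    (α : ∀ i, P →* Equiv.Perm (X i)) (hα : Loc D α) (i : I) : 3 ≤ Nat.card (X i) := by
  classical
  obtain ⟨-, x, Z, σ, τ, -, hσ, hτ, hστ, -, -⟩ := hα i
  have : Fintype (X i) := Fintype.ofFinite (X i)
  rw [Nat.card_eq_fintype_card]
  have h3 : ({x, α i σ x, α i τ x} : Finset (X i)).card = 3 := by
    rw [Finset.card_eq_three]
    exact ⟨x, α i σ x, α i τ x, fun h => hσ h.symm, fun h => hτ h.symm, hστ, rfl⟩
  rw [← h3]
  exact Finset.card_le_univ _

end Pool.Agent.MPfe8e9bW
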