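import Mathlib
import Pool.Agent.Lib.MP_fe8e9b_al_W.Defs
import Pool.Agent.Lib.MP_fe8e9b_al_W.Perf

/-!
# MP_fe8e9b_al, wreath towers: wreath products with alternating groups
-/

set_option autoImplicit false

open scoped BigOperators

namespace Pool.Agent.MPfe8e9bW

open Pool.Agent.MPfe8e9b Pool.Agent.MPfe8e9bA

/-- The wreath product of `G` with the alternating group of degree `n` in its natural action. -/
abbrev AltWr (n : ℕ) (G : Type) [Group G] : Type :=
  (Fin n → G) ⋊[mulAutArrow] alternatingGroup (Fin n)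

/-- The natural actions of a product of alternating groups. -/
def altAct {I : Type} (n : I → ℕ) (i : I) :
    (∀ i, alternatingGroup (Fin (n i))) →* Equiv.Perm (Fin (n i)) :=
  (alternatingGroup (Fin (n i))).subtype.comp (Pi.evalMonoidHom _ i)

/-- The product of the wreath products with alternating groups.

Proof. Map a family `w` to `(fun i x => (w i).left x, fun i => (w i).right)`. -/
theorem alt_wr {I : Type} (n : I → ℕ) (G : I → Type) [∀ i, Group (G i)] :
    Nonempty ((∀ i, AltWr (n i) (G i)) ≃* Wr (altAct n) G) :=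
  ⟨{ toFun := fun w => ⟨fun i x => (w i).left x, fun i => (w i).right⟩
     invFun := fun v i => ⟨fun x => v.left i x, v.right i⟩
     left_inv := fun w => rfl
     right_inv := fun v => rfl
     map_mul' := fun w w' => by
       refine SemidirectProduct.ext ?_ ?_
       · funext i x
         rfl
       · rfl }⟩

private theorem altwr_cyc {m : ℕ} (hm : 5 ≤ m) : ∃ (x : Fin m) (Z : Finset (Fin m))
    (σ τ : alternatingGroup (Fin m)), Z.card ≤ 3 ∧ σ.1 x ≠ x ∧ τ.1 x ≠ x ∧ σ.1 x ≠ τ.1 x ∧
      ∀ z, z ∉ Z → σ.1 z = z ∧ τ.1 z = z := by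
  let a : Fin m := ⟨0, by omega⟩
  let b : Fin m := ⟨1, by omega⟩
  let c : Fin m := ⟨2, by omega⟩
  have hab : a ≠ b := fun h => by
    have := congrArg Fin.val h
    simp [a, b] at this
  have hac : a ≠ c := fun h => by
    have := congrArg Fin.val h
    simp [a, c] at this
  have hbc : b ≠ c := fun h => by
    have := congrArg Fin.val h
    simp [b, c] at this
  have h1 : Equiv.swap a b * Equiv.swap b c ∈ alternatingGroup (Fin m) := by
    rw [Equiv.Perm.mem_alternatingGroup, map_mul, Equiv.Perm.sign_swap hab,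
      Equiv.Perm.sign_swap hbc]
    rfl
  have h2 : Equiv.swap a c * Equiv.swap b c ∈ alternatingGroup (Fin m) := by
    rw [Equiv.Perm.mem_alternatingGroup, map_mul, Equiv.Perm.sign_swap hac,
      Equiv.Perm.sign_swap hbc]
    rfl
  have e1 : (Equiv.swap a b * Equiv.swap b c) a = b := by
    rw [Equiv.Perm.mul_apply, Equiv.swap_apply_of_ne_of_ne hab hac, Equiv.swap_apply_left]
  have e2 : (Equiv.swap a c * Equiv.swap b c) a = c := by
    rw [Equiv.Perm.mul_apply, Equiv.swap_apply_of_ne_of_ne hab hac, Equiv.swap_apply_left]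
  refine ⟨a, {a, b, c}, ⟨_, h1⟩, ⟨_, h2⟩, Finset.card_le_three, ?_, ?_, ?_, ?_⟩
  · change (Equiv.swap a b * Equiv.swap b c) a ≠ a
    rw [e1]
    exact hab.symm
  · change (Equiv.swap a c * Equiv.swap b c) a ≠ a
    rw [e2]
    exact hac.symm
  · change (Equiv.swap a b * Equiv.swap b c) a ≠ (Equiv.swap a c * Equiv.swap b c) a
    rw [e1, e2]
    exact hbc
  · intro z hz
    simp only [Finset.mem_insert, Finset.mem_singleton, not_or] at hz
    obtain ⟨z1, z2, z3⟩ := hz
    constructor
    · change (Equiv.swap a b * Equiv.swap b c) z = z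
      rw [Equiv.Perm.mul_apply, Equiv.swap_apply_of_ne_of_ne z2 z3,
        Equiv.swap_apply_of_ne_of_ne z1 z2]
    · change (Equiv.swap a c * Equiv.swap b c) z = z
      rw [Equiv.Perm.mul_apply, Equiv.swap_apply_of_ne_of_ne z2 z3,
        Equiv.swap_apply_of_ne_of_ne z1 z3]

/-- Three-cycles are local elements.

Proof. `alternatingGroup (Fin n)` is transitive for `3 ≤ n`. `x = 0`, `Z = {0, 1, 2}`, `σ` the
3-cycle `0 ↦ 1 ↦ 2 ↦ 0` and `τ = σ ^ 2` at the index `i` and `1` at the other indices
(`Pi.mulSingle`). -/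
theorem alt_loc {I : Type} (n : I → ℕ) (hn : ∀ i, 5 ≤ n i) : Loc 3 (altAct n) := by
  classical
  intro i
  have hs : ∀ g : alternatingGroup (Fin (n i)), altAct n i (Pi.mulSingle i g) = g.1 := fun g => by
    change ((Pi.mulSingle i g : ∀ i, alternatingGroup (Fin (n i))) i).1 = g.1
    rw [Pi.mulSingle_eq_same]
  have ho : ∀ (g : alternatingGroup (Fin (n i))) (j : I), j ≠ i →
      altAct n j (Pi.mulSingle i g) = 1 := fun g j hj => by
    change ((Pi.mulSingle i g : ∀ i, alternatingGroup (Fin (n i))) j).1 = 1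
    rw [Pi.mulSingle_eq_of_ne hj]
    rfl
  constructor
  · intro x y
    have : MulAction.IsPretransitive (alternatingGroup (Fin (n i))) (Fin (n i)) :=
      alternatingGroup.isPretransitive_of_three_le_card _ (by
        rw [Nat.card_eq_fintype_card, Fintype.card_fin]
        have := hn i
        omega)
    obtain ⟨g, hg⟩ := MulAction.exists_smul_eq (alternatingGroup (Fin (n i))) x y
    refine ⟨Pi.mulSingle i g, ?_⟩
    rw [hs]
    exact hg
  · obtain ⟨x, Z, σ, τ, h1, h2, h3, h4, h5⟩ := altwr_cyc (hn i)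
    refine ⟨x, Z, Pi.mulSingle i σ, Pi.mulSingle i τ, h1, ?_, ?_, ?_, ?_, ?_⟩
    · rw [hs]
      exact h2
    · rw [hs]
      exact h3
    · rw [hs, hs]
      exact h4
    · intro z hz
      rw [hs, hs]
      exact h5 z hz
    · intro j hj
      exact ⟨ho σ j hj, ho τ j hj⟩

/-- Products of alternating groups are perfect.

Proof. `pi_perfect`; for `5 ≤ m` the group `alternatingGroup (Fin m)` is perfect: it is simple and
not commutative (`alternatingGroup.isSimpleGroup...`) or every 3-cycle `(a b c)` is the commutator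
of `(a b d)` and `(a c e)` and the 3-cycles generate
(`Equiv.Perm.closure_three_cycles_eq_alternating`). -/
theorem alt_perfect {I : Type} [Finite I] (n : I → ℕ) (hn : ∀ i, 5 ≤ n i) :
    commutator (∀ i, alternatingGroup (Fin (n i))) = ⊤ :=
  pi_perfect _ fun i => commutator_alternatingGroup_eq_top (by
    rw [Nat.card_eq_fintype_card, Fintype.card_fin]
    exact hn i)

end Pool.Agent.MPfe8e9bW
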