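import Mathlib
import Pool.Agent.Lib.MP_fe8e9b_al_W.Defs
import Pool.Agent.Lib.MP_fe8e9b_al_W.Perf
import Pool.Agent.Lib.MP_fe8e9b_al_W.Assoc

/-!
# MP_fe8e9b_al, wreath towers: splitting a tower
-/

set_option autoImplicit false

open scoped BigOperators

namespace Pool.Agent.MPfe8e9bW

open Pool.Agent.MPfe8e9b Pool.Agent.MPfe8e9bA

/-- The height is an upper bound.

Proof. Induction on `h : Tow k D κ h G inst`. -/
theorem Tow.succ {k D : ℕ} {κ : ℝ} {h : ℕ} {G : Type} {inst : Group G}
    (hG : Tow k D κ h G inst) : Tow k D κ (h + 1) G inst := by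
  induction hG with
  | base h G inst hG => exact Tow.base _ G inst hG
  | step h P instP hP I hI X hX α hα G instG _ ih =>
    exact Tow.step (h + 1) P instP hP I hI X hX α hα G instG ih
  | iso h G H instG instH e _ ih => exact Tow.iso _ G H instG instH e ih

/-- The groups of the class are perfect.

Proof. Induction; `wr_perfect`, `perfect_iso`. -/
theorem Tow.perfect {k D : ℕ} {κ : ℝ} {h : ℕ} {G : Type} {inst : Group G}
    (hG : Tow k D κ h G inst) : commutator G = ⊤ := by
  induction hG with
  | base h G inst hG => exact hG.1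
  | step h P instP hP I hI X hX α hα G instG _ ih =>
    have := hI
    have := hX
    exact wr_perfect α G hP.1 ih
  | iso h G H instG instH e _ ih => exact perfect_iso e ih

/-- `W` is a wreath product with a top group of height `b` acting on sets with at least `3 ^ b`
points, and with groups of height `a`. -/
def Spl (k D : ℕ) (κ : ℝ) (a b : ℕ) (W : Type) [Group W] : Prop :=
  ∃ (B : Type) (instB : Group B) (I : Type) (_ : Finite I) (X : I → Type)
    (_ : ∀ i, Finite (X i)) (α : ∀ i, B →* Equiv.Perm (X i)) (A : I → Type)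
    (instA : ∀ i, Group (A i)), Tow k D κ b B instB ∧ Loc D α ∧ (∀ i, 3 ^ b ≤ Nat.card (X i)) ∧
      (∀ i, Tow k D κ a (A i) (instA i)) ∧ Nonempty (W ≃* Wr α A)

theorem split_base {k D : ℕ} {κ : ℝ} (a b : ℕ) (G : Type) (inst : Group G)
    (hG : PE k κ G) : Spl k D κ a b G :=
  ⟨G, inst, PEmpty.{1}, inferInstance, fun _ => PUnit.{1}, fun _ => inferInstance,
    fun i => i.elim, fun _ => G, fun _ => inst, Tow.base b G inst hG, fun i => i.elim,
    fun i => i.elim, fun i => i.elim,
    wr_empty (X := fun _ => PUnit.{1}) (fun i => i.elim) (fun _ => G)⟩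

theorem split_aux {k D : ℕ} {κ : ℝ} (a : ℕ) {n : ℕ} {W : Type} {inst : Group W}
    (h : Tow k D κ n W inst) : ∀ b : ℕ, n = a + (b + 1) → Spl k D κ a (b + 1) W := by
  induction h with
  | base h G inst hG => exact fun b _ => split_base a (b + 1) G inst hG
  | iso h G H instG instH e _ ih =>
    intro b hb
    obtain ⟨B, instB, I, hI, X, hX, α, A, instA, h1, h2, h3, h4, ⟨e'⟩⟩ := ih b hb
    exact ⟨B, instB, I, hI, X, hX, α, A, instA, h1, h2, h3, h4, ⟨e.symm.trans e'⟩⟩
  | step h P instP hP I hI X hX α hα G instG hG ih =>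
    intro b hb
    have := hI
    have := hX
    rcases b with _ | b
    · have hh : h = a := by omega
      subst hh
      refine ⟨P, instP, I, hI, X, hX, α, G, instG, Tow.base _ P instP hP, hα, fun i => ?_, hG,
        ⟨MulEquiv.refl _⟩⟩
      simpa using loc_three α hα i
    · have hh : h = a + (b + 1) := by omega
      choose B instB J hJ Y hY β A instA hB hloc hcard hA he using fun i => ih i b hh
      obtain ⟨e1⟩ := wr_congr α G (fun i => Wr (β i) (A i)) (fun i => Classical.choice (he i))
      obtain ⟨e2⟩ := wr_assoc α β A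
      refine ⟨Wr α B, inferInstance, Σ i, J i, inferInstance, fun s => X s.1 × Y s.1 s.2,
        fun s => inferInstance, fun s => cmp α β s, fun s => A s.1 s.2, fun s => instA s.1 s.2,
        Tow.step (b + 1) P instP hP I hI X hX α hα B instB hB, loc_cmp α hα β hloc,
        fun s => ?_, fun s => hA s.1 s.2, ⟨e1.trans e2⟩⟩
      rw [Nat.card_prod, pow_succ, mul_comm]
      exact Nat.mul_le_mul (loc_three α hα s.1) (hcard s.1 s.2)

/-- Splitting of a tower.

Proof. Induction on `b`. For `b = 0` (top height one) and `W` of height `a + 1`: induction on (cases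
of) the hypothesis: `base`: `B = W`, `I = PEmpty`, `wr_empty`; `step`: `B = P`, which has height `1`
by `base`, the same sets (`loc_three`) and groups; `iso`: compose the isomorphisms. For `b + 1` and
`W` of height `a + (b + 1) + 1`: `base` and `iso` as before; `step`: `W = Wr α G` with `G i` of
height `a + (b + 1)`, by the induction hypothesis `G i ≃* Wr (β i) (A i)` with top groups `Q i`
(choose the data, `Classical.choice`); by `wr_congr` and `wr_assoc`
`W ≃* Wr (cmp α β) (A s.1 s.2)` with the top group `Wr α Q` of height `b + 2` (`Tow.step`),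
`loc_cmp`, and `Nat.card (X i × Y i j) ≥ 3 * 3 ^ (b + 1)`. The `iso` case needs an induction on
the derivation with the height as an index: generalize the height (`generalize`/`∀ h, h = a + b + 1
→ …`). -/
theorem split {k D : ℕ} {κ : ℝ} (a b : ℕ) (W : Type) (inst : Group W)
    (h : Tow k D κ (a + (b + 1)) W inst) : Spl k D κ a (b + 1) W :=
  split_aux a h b rfl

end Pool.Agent.MPfe8e9bW
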