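import Mathlib
import Pool.Agent.Lib.MP_fe8e9b_al_W.Defs
import Pool.Agent.Lib.MP_fe8e9b_al_W.ExpPi
import Pool.Agent.Lib.MP_fe8e9b_al_W.Crude
import Pool.Agent.Lib.MP_fe8e9b_al_W.Split

/-!
# MP_fe8e9b_al, wreath towers: uniform bounds for all heights
-/

set_option autoImplicit false

open scoped BigOperators

namespace Pool.Agent.MPfe8e9bW

open Pool.Agent.MPfe8e9b Pool.Agent.MPfe8e9bA

/-- All groups of height at most `h` have cost at most `c`. -/
def Bd (k D : ℕ) (κ : ℝ) (h c : ℕ) : Prop :=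
  ∀ (W : Type) (inst : Group W), Tow k D κ h W inst → Cost c W

theorem boot_zero {k D : ℕ} {κ : ℝ} {c₀ : ℕ}
    (hc₀ : ∀ (G : Type) [Group G], FExpd G k κ → Cost c₀ G) {h : ℕ} {W : Type}
    {inst : Group W} (hW : Tow k D κ h W inst) : h = 0 → Cost c₀ W := by
  induction hW with
  | base h G inst hG => intro _; exact hc₀ G hG.2
  | step h P instP hP I hI X hX α hα G instG hG ih => intro h0; omega
  | iso h G H instG instH e hG ih => intro h0; exact Cost.iso e (ih h0)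

theorem boot_succ {k D : ℕ} {κ : ℝ} {c₀ : ℕ}
    (hc₀ : ∀ (G : Type) [Group G], FExpd G k κ → Cost c₀ G) {n c c'' : ℕ}
    (hc : Bd k D κ n c)
    (hc'' : ∀ (P I : Type) [Group P]
      [Finite I] (X : I → Type) [∀ i, Finite (X i)] (α : ∀ i, P →* Equiv.Perm (X i))
      (_ : Loc D α) (G : I → Type) [∀ i, Group (G i)] (_ : ∀ i, commutator (G i) = ⊤)
      (_ : ∀ i, Cost c (G i)) (_ : Cost c₀ P), Cost c'' (Wr α G)) {h : ℕ} {W : Type}
    {inst : Group W} (hW : Tow k D κ h W inst) : h = n + 1 → Cost (max c₀ c'') W := by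
  induction hW with
  | base h G inst hG => intro _; exact (hc₀ G hG.2).mono (le_max_left _ _)
  | step h P instP hP I hI X hX α hα G instG hG ih =>
    intro h0
    have hn : h = n := by omega
    subst hn
    exact (hc'' P I X α hα G (fun i => (hG i).perfect) (fun i => hc (G i) (instG i) (hG i))
      (hc₀ P hP.2)).mono (le_max_right _ _)
  | iso h G H instG instH e hG ih => intro h0; exact Cost.iso e (ih h0)

theorem boot_tow_le {k D : ℕ} {κ : ℝ} {h h' : ℕ} (hh : h ≤ h') {W : Type}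
    {inst : Group W} (hW : Tow k D κ h W inst) : Tow k D κ h' W inst := by
  induction hh with
  | refl => exact hW
  | step _ ih => exact ih.succ

/-- Every height has a bound.

Proof. Induction on `h`. The groups of height `0` are isomorphic to groups with `PE k κ`
(`exists_cost`; induction on the derivation). Height `h + 1`: induction on the derivation: `base`
(`exists_cost`), `step` (`crude` with the bound for `h` and the cost of `P` from `exists_cost`,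
`Tow.perfect`), `iso` (`Cost.iso`); take the maximum of the bounds (`Cost.mono`). -/
theorem bd_exists {k D : ℕ} {κ : ℝ} (hκ : 0 < κ) (h : ℕ) : ∃ c, Bd k D κ h c := by
  obtain ⟨c₀, hc₀⟩ := exists_cost k hκ
  induction h with
  | zero => exact ⟨c₀, fun W inst hW => boot_zero hc₀ hW rfl⟩
  | succ h ih =>
    obtain ⟨c, hc⟩ := ih
    obtain ⟨c'', hc''⟩ := crude D c c₀
    exact ⟨max c₀ c'', fun W inst hW => boot_succ hc₀ hc hc'' hW rfl⟩

/-- Adding heights costs a constant.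

Proof. `split`, `step_large` with `2 ^ (C₁ * (c + 1)) ≤ 2 ^ b ≤ 3 ^ b`, `Tow.perfect`,
`Cost.iso`. -/
theorem bd_add {k D : ℕ} {κ : ℝ} {C₁ C₀ : ℕ} (hC : ∀ (c c' : ℕ) (P I : Type) [Group P]
      [Finite I] (X : I → Type) [∀ i, Finite (X i)] (α : ∀ i, P →* Equiv.Perm (X i))
      (_ : Loc D α) (G : I → Type) [∀ i, Group (G i)] (_ : ∀ i, commutator (G i) = ⊤)
      (_ : ∀ i, Cost c (G i)) (_ : Cost c' P) (_ : ∀ i, 2 ^ (C₁ * (c + 1)) ≤ Nat.card (X i)),
      Cost (c' + C₀) (Wr α G))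
    {a b c c' : ℕ} (ha : Bd k D κ a c) (hb : Bd k D κ b c') (hb0 : 0 < b)
    (hbc : C₁ * (c + 1) ≤ b) : Bd k D κ (a + b) (c' + C₀) := by
  intro W inst hW
  obtain ⟨b', rfl⟩ : ∃ b', b = b' + 1 := ⟨b - 1, by omega⟩
  obtain ⟨B, instB, I, hI, X, hX, α, A, instA, hB, hα, hcard, hA, ⟨e⟩⟩ := split a b' W inst hW
  have h1 : Cost (c' + C₀) (Wr α A) := hC c c' B I X α hα A (fun i => (hA i).perfect)
    (fun i => ha (A i) (instA i) (hA i)) (hb B instB hB) (fun i =>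
      calc 2 ^ (C₁ * (c + 1)) ≤ 2 ^ (b' + 1) := Nat.pow_le_pow_right (by norm_num) hbc
        _ ≤ 3 ^ (b' + 1) := Nat.pow_le_pow_left (by norm_num) _
        _ ≤ Nat.card (X i) := hcard i)
  exact Cost.iso e.symm h1

/-- The uniform bound.

Proof. Let `C₁`, `C₀` be as in `step_large`. `a = 2 * C₁ * C₀ + 1` has a bound `c_a` (`bd_exists`),
`b₀ = C₁ * (c_a + 1) + 1` a bound `c₀`. By `bd_add` and induction on `i`:
`Bd (b₀ + i * a) (c₀ + i * C₀)` (`a + b` and `b + a` are equal). For `i = c₀ + C₀ + 1` the height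
`b = b₀ + i * a` and `c = c₀ + i * C₀` satisfy `C₁ * (c + C₀ + 1) ≤ b`: indeed
`C₁ * (c₀ + i C₀ + C₀ + 1) = C₁ * i * C₀ + C₁ * i ≤ i * (2 C₁ C₀ + 1) + b₀`; to be safe with
`C₁ * i` use `C₀ ≥ 1` (enlarge `C₀`, `Cost.mono`), so `C₁ i ≤ C₁ C₀ i`. Then `Bd h (c + C₀)` for all
`h` by strong induction: for `h ≤ b` by `Tow.succ`, for `h = a' + b` with `a' < h` by `bd_add`.
-/
theorem bd_all {k D : ℕ} {κ : ℝ} (hκ : 0 < κ) : ∃ c, ∀ h, Bd k D κ h c := by
  obtain ⟨C₁, C₀', -, hC'⟩ := step_large D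
  obtain ⟨C₀, hC₀⟩ : ∃ C₀, C₀ = C₀' + 1 := ⟨_, rfl⟩
  have hC : ∀ (c c' : ℕ) (P I : Type) [Group P]
      [Finite I] (X : I → Type) [∀ i, Finite (X i)] (α : ∀ i, P →* Equiv.Perm (X i))
      (_ : Loc D α) (G : I → Type) [∀ i, Group (G i)] (_ : ∀ i, commutator (G i) = ⊤)
      (_ : ∀ i, Cost c (G i)) (_ : Cost c' P) (_ : ∀ i, 2 ^ (C₁ * (c + 1)) ≤ Nat.card (X i)),
      Cost (c' + C₀) (Wr α G) := by
    intro c c' P I _ _ X _ α h1 G _ h2 h3 h4 h5
    exact (hC' c c' P I X α h1 G h2 h3 h4 h5).mono (by omega)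
  obtain ⟨a, ha⟩ : ∃ a, a = 2 * C₁ * C₀ + 1 := ⟨_, rfl⟩
  obtain ⟨ca, hca⟩ := bd_exists (k := k) (D := D) hκ a
  obtain ⟨b₀, hb₀⟩ : ∃ b₀, b₀ = C₁ * (ca + 1) + 1 := ⟨_, rfl⟩
  obtain ⟨c₀, hc₀⟩ := bd_exists (k := k) (D := D) hκ b₀
  have hind : ∀ i : ℕ, Bd k D κ (b₀ + i * a) (c₀ + i * C₀) := by
    intro i
    induction i with
    | zero => simpa using hc₀
    | succ i ih =>
      have h1 := bd_add hC hca ih (by omega)
        (le_trans (by omega : C₁ * (ca + 1) ≤ b₀) (Nat.le_add_right _ _))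
      have e1 : a + (b₀ + i * a) = b₀ + (i + 1) * a := by ring
      have e2 : c₀ + i * C₀ + C₀ = c₀ + (i + 1) * C₀ := by ring
      rwa [e1, e2] at h1
  obtain ⟨i, hi⟩ : ∃ i, i = c₀ + C₀ + 1 := ⟨_, rfl⟩
  obtain ⟨b, hb⟩ : ∃ b, b = b₀ + i * a := ⟨_, rfl⟩
  obtain ⟨c, hc⟩ : ∃ c, c = c₀ + i * C₀ := ⟨_, rfl⟩
  have hbc : Bd k D κ b c := by rw [hb, hc]; exact hind i
  have hkey : C₁ * (c + C₀ + 1) ≤ b := by
    have h1 : C₁ * (c + C₀ + 1) = C₁ * C₀ * i + C₁ * i := by rw [hc, hi]; ring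
    have h2 : C₁ * i ≤ C₁ * C₀ * i := by
      have : 1 ≤ C₀ := by omega
      nlinarith [Nat.zero_le (C₁ * i), Nat.mul_le_mul_left (C₁ * i) this]
    have h3 : i * a = 2 * (C₁ * C₀ * i) + i := by rw [ha]; ring
    omega
  have hb1 : 0 < b := by omega
  refine ⟨c + C₀, fun h => ?_⟩
  induction h using Nat.strong_induction_on with
  | _ h ih =>
    rcases Nat.lt_or_ge b h with hlt | hge
    · obtain ⟨a', ha'⟩ : ∃ a', h = a' + b := ⟨h - b, by omega⟩
      rw [ha']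
      exact bd_add hC (ih a' (by omega)) hbc hb1 hkey
    · intro W inst hW
      exact (hbc W inst (boot_tow_le hge hW)).mono (Nat.le_add_right _ _)

end Pool.Agent.MPfe8e9bW
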