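import Mathlib
import Pool.Agent.Lib.MP_fe8e9b_al.Vert
import Pool.Agent.Lib.MP_fe8e9b_al_W.Defs
import Pool.Agent.Lib.MP_fe8e9b_al_W.Boot
import Pool.Agent.Lib.MP_fe8e9b_al_W.Cheeg
import Pool.Agent.Lib.MP_fe8e9b_al_W.AltWr

/-!
# MP_fe8e9b_al, wreath towers: main theorem
-/

set_option autoImplicit false

open scoped BigOperators Pointwise

namespace Pool.Agent.MPfe8e9bW

open Pool.Agent.MPfe8e9b Pool.Agent.MPfe8e9bA

/-- The smallest class of groups, closed under isomorphism, which contains the perfect groups with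
vertex expansion `ε` for `k` elements, the wreath products `(∏ i, G i ^ (X i)) ⋊ P` of groups `G i`
of the class with perfect groups `P` with vertex expansion `ε` for `k` elements, transitive on the
sets `X i` with local elements, and the products of the wreath products of groups `G i` of the
class with the alternating groups of degrees `n i ≥ 5`, with at most `(m !) ^ d` factors of each
degree `m`. -/
inductive WreathClass (k D d : ℕ) (ε : ℝ) : (G : Type) → Group G → Prop
  | base (G : Type) (inst : Group G) (hp : commutator G = ⊤) (hG : VExp k ε G) :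
      WreathClass k D d ε G inst
  | step (P : Type) (instP : Group P) (hp : commutator P = ⊤) (hP : VExp k ε P) (I : Type)
      (hI : Finite I) (X : I → Type) (hX : ∀ i, Finite (X i)) (α : ∀ i, P →* Equiv.Perm (X i))
      (hα : Loc D α) (G : I → Type) (instG : ∀ i, Group (G i))
      (hG : ∀ i, WreathClass k D d ε (G i) (instG i)) :
      WreathClass k D d ε (Wr α G) inferInstance
  | alt (I : Type) (hI : Finite I) (n : I → ℕ) (hn : ∀ i, 5 ≤ n i)
      (hm : ∀ m, Nat.card {i // n i = m} ≤ (Nat.factorial m) ^ d) (G : I → Type)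
      (instG : ∀ i, Group (G i)) (hG : ∀ i, WreathClass k D d ε (G i) (instG i)) :
      WreathClass k D d ε (∀ i, AltWr (n i) (G i)) inferInstance
  | iso (G H : Type) (instG : Group G) (instH : Group H) (e : G ≃* H)
      (hG : WreathClass k D d ε G instG) : WreathClass k D d ε H instH

theorem main_loc_mono {D D' : ℕ} (hD : D ≤ D') {P I : Type} [Group P] {X : I → Type}
    {α : ∀ i, P →* Equiv.Perm (X i)} (h : Loc D α) : Loc D' α := by
  intro i
  obtain ⟨h1, x, Z, σ, τ, h2, h3⟩ := h i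
  exact ⟨h1, x, Z, σ, τ, h2.trans hD, h3⟩

theorem main_tow_le {k D : ℕ} {κ : ℝ} {h h' : ℕ} (hh : h ≤ h') {G : Type} {inst : Group G}
    (hG : Tow k D κ h G inst) : Tow k D κ h' G inst := by
  induction hh with
  | refl => exact hG
  | step _ ih => exact ih.succ

theorem main_tow_sup {k D : ℕ} {κ : ℝ} {I : Type} (hI : Finite I) {G : I → Type}
    {instG : ∀ i, Group (G i)} (hG : ∀ i, ∃ h, Tow k D κ h (G i) (instG i)) :
    ∃ h, ∀ i, Tow k D κ h (G i) (instG i) := by
  choose h hh using hG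
  obtain ⟨N, hN⟩ := (Set.finite_range h).bddAbove
  exact ⟨N, fun i => main_tow_le (hN ⟨i, rfl⟩) (hh i)⟩

/-- The groups of the class are towers.

Proof. `alt_expd d` gives `k₁`, `κ₁ > 0` for the products of alternating groups. Let
`κ = min κ₁ (ε ^ 2 / (4 (k + 1)))`, `k' = max k k₁`, `D' = max D 3`. Induction on the derivation:
`base`: `Tow.base` (`vexp_fexpd`, `FExpd.mono`); `step` : `Tow.step` (`Loc` is monotone in `D`);
since the heights of the `G i` may differ, take their maximum over the finite set `I`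
(`Tow.succ`, `Finite.exists_max` or `Finset.sup`); `alt`: `Tow.step` for `altAct n`
(`alt_loc`, `alt_perfect`, `alt_expd` with `AltProduct`, the identity isomorphism), then
`Tow.iso` with `alt_wr`; `iso`: `Tow.iso`. -/
theorem class_tow (k D d : ℕ) {ε : ℝ} (hε : 0 < ε) : ∃ (k' D' : ℕ) (κ : ℝ), 0 < κ ∧
    ∀ (G : Type) (inst : Group G), WreathClass k D d ε G inst → ∃ h, Tow k' D' κ h G inst := by
  obtain ⟨k₁, κ₁, hκ₁, hA⟩ := alt_expd d
  refine ⟨max k k₁, max D 3, min κ₁ (ε ^ 2 / (4 * ((k : ℝ) + 1))),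
    lt_min hκ₁ (by positivity), fun G inst hG => ?_⟩
  induction hG with
  | base G inst hp hG =>
    exact ⟨0, Tow.base 0 G inst ⟨hp, (vexp_fexpd hε hG).mono (le_max_left _ _)
      (min_le_right _ _)⟩⟩
  | step P instP hp hP I hI X hX α hα G instG _ ih =>
    obtain ⟨h, hh⟩ := main_tow_sup hI ih
    exact ⟨h + 1, Tow.step h P instP ⟨hp, (vexp_fexpd hε hP).mono (le_max_left _ _)
      (min_le_right _ _)⟩ I hI X hX α (main_loc_mono (le_max_left _ _) hα) G instG hh⟩
  | alt I hI n hn hm G instG _ ih =>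
    obtain ⟨h, hh⟩ := main_tow_sup hI ih
    have h1 : FExpd (∀ i, alternatingGroup (Fin (n i))) (max k k₁)
        (min κ₁ (ε ^ 2 / (4 * ((k : ℝ) + 1)))) :=
      (hA _ ⟨I, Fintype.ofFinite I, n, hn, hm, ⟨MulEquiv.refl _⟩⟩).mono (le_max_right _ _)
        (min_le_left _ _)
    obtain ⟨e⟩ := alt_wr n G
    exact ⟨h + 1, Tow.iso (h + 1) _ _ _ _ e.symm (Tow.step h _ _ ⟨alt_perfect n hn, h1⟩ I hI
      (fun i => Fin (n i)) (fun i => inferInstance) (altAct n)
      (main_loc_mono (le_max_right _ _) (alt_loc n hn)) G instG hh)⟩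
  | iso G H instG instH e _ ih =>
    obtain ⟨h, hh⟩ := ih
    exact ⟨h, Tow.iso h G H instG instH e hh⟩

/-- The main theorem.

Proof. `class_tow`, `bd_all`, `Cost.fexpd`, `expd_vertex` (with `FExpd.expd`). -/
theorem wreath_main (k D d : ℕ) {ε : ℝ} (hε : 0 < ε) :
    ∃ (k' : ℕ) (ε' : ℝ), 0 < ε' ∧ ∀ (G : Type) [inst : Group G] [Fintype G] [DecidableEq G],
      WreathClass k D d ε G inst →
      ∃ S : Finset G, S.card ≤ k' ∧ Subgroup.closure (S : Set G) = ⊤ ∧
        ∀ A : Finset G, 2 * A.card ≤ Fintype.card G →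
          (1 + ε') * (A.card : ℝ) ≤ ((A ∪ S * A).card : ℝ) := by
  obtain ⟨k', D', κ, hκ, h1⟩ := class_tow k D d hε
  obtain ⟨c, hc⟩ := bd_all (k := k') (D := D') hκ
  refine ⟨2 ^ c, (1 / 2 ^ c) / (4 * (((2 ^ c : ℕ) : ℝ) + 1)), by positivity, ?_⟩
  intro G inst _ _ hG
  obtain ⟨h, hh⟩ := h1 G inst hG
  have h2 : FExpd G (2 ^ c) (1 / 2 ^ c) := (hc h G inst hh).fexpd
  exact expd_vertex (by positivity) h2.expd

end Pool.Agent.MPfe8e9bW
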